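import Pool.Agent.Lib.MP_154526_nt.Mot.FIN

/-!
# COM: the operators `D_ψ` commute with the coaction
-/

set_option autoImplicit false

namespace MP154526.Mot.COMM

open Finset MP154526.Bound MP154526.Top MP154526.Top.Pass2 MP154526.Lin MP154526.Low
open scoped TensorProduct

/-! ### the terms of the sums -/

/-- `1` or `0` -/
def q (b : Bool) : ℚ := if b then 1 else 0

/-- the last letter of `l w` -/
def lastB : Bool → List Bool → Bool
  | l, [] => l
  | _, a :: w => lastB a w

/-- the first letter of `w r` -/
def headB : Bool → List Bool → Bool
  | r, [] => r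
  | _, a :: _ => a

theorem lastB_app (w v : List Bool) (a : Bool) : ∀ l, lastB l (w ++ a :: v) = lastB a v := by
  induction w with
  | nil => intro l; rfl
  | cons b w ih => intro l; exact ih b

theorem lastB_rev (r : Bool) (y : List Bool) : lastB r y.reverse = headB r y := by
  cases y with
  | nil => rfl
  | cons a y =>
    rw [List.reverse_cons, lastB_app]
    rfl

theorem headB_rev (l : Bool) (x : List Bool) : headB l x.reverse = lastB l x := by
  rw [← lastB_rev, List.reverse_reverse]

theorem headB_app (r a : Bool) (y w : List Bool) : headB r (y ++ a :: w) = headB a y := by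
  cases y <;> rfl

theorem q_head (v : List Bool) : (if v.head? = some true then (1 : ℚ) else 0) = q (headB false v) := by
  cases v with
  | nil => simp [q, headB]
  | cons a v => cases a <;> simp [q, headB]

variable (n : ℕ) (ψ : List Bool → ℤ)

/-- the coefficient of the factorisation `w = a U b`, `|a| = i` -/
def ce (l r : Bool) (w : List Bool) (i : ℕ) : ℚ :=
  (q (lastB l (w.take i)) - q (headB r (w.drop (i + n)))) * (ψ ((w.drop i).take n) : ℚ)

/-- the word `ab` -/
def del (w : List Bool) (i : ℕ) : List Bool := w.take i ++ w.drop (i + n)

variable {n ψ}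

theorem ce_app (l r : Bool) (x U y : List Bool) (hU : U.length = n) :
    ce n ψ l r (x ++ (U ++ y)) x.length = (q (lastB l x) - q (headB r y)) * (ψ U : ℚ) := by
  unfold ce
  have h1 : (x ++ (U ++ y)).take x.length = x := List.take_left
  have h2 : (x ++ (U ++ y)).drop (x.length + n) = y := by
    rw [← List.drop_drop, List.drop_left, ← hU, List.drop_left]
  have h3 : ((x ++ (U ++ y)).drop x.length).take n = U := by
    rw [List.drop_left, ← hU, List.take_left]
  rw [h1, h2, h3]

theorem del_app (x U y : List Bool) (hU : U.length = n) :
    del n (x ++ (U ++ y)) x.length = x ++ y := by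
  unfold del
  have h1 : (x ++ (U ++ y)).take x.length = x := List.take_left
  have h2 : (x ++ (U ++ y)).drop (x.length + n) = y := by
    rw [← List.drop_drop, List.drop_left, ← hU, List.drop_left]
  rw [h1, h2]

/-- every position gives a factorisation -/
theorem fac (w : List Bool) (i : ℕ) (h : i + n ≤ w.length) :
    ∃ x U y : List Bool, w = x ++ (U ++ y) ∧ x.length = i ∧ U.length = n := by
  refine ⟨w.take i, (w.drop i).take n, (w.drop i).drop n, ?_, ?_, ?_⟩
  · rw [List.take_append_drop, List.take_append_drop]
  · rw [List.length_take]; omega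
  · rw [List.length_take, List.length_drop]; omega

theorem TTsum {M : Type} [AddCommGroup M] [Module ℚ M] (hn : 1 ≤ n) (w : List Bool) :
    ∀ (l : Bool) (φ : List Bool → M),
    TT n (fun u => (ψ u : ℚ)) l φ w =
      ∑ i ∈ range (w.length + 1 - n), ce n ψ l false w i • φ (del n w i) := by
  induction w with
  | nil =>
    intro l φ
    have e : ([] : List Bool).length + 1 - n = 0 := by
      rw [List.length_nil]; omega
    rw [e, Finset.sum_range_zero]
    show hd n (fun u => (ψ u : ℚ)) l φ [] = 0
    unfold hd
    rw [if_neg]
    rw [List.length_nil]; omega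
  | cons a w ih =>
    intro l φ
    show hd n (fun u => (ψ u : ℚ)) l φ (a :: w) + TT n (fun u => (ψ u : ℚ)) a
      (fun v => φ (a :: v)) w = _
    rw [ih]
    by_cases h : n ≤ w.length + 1
    · have e : (a :: w).length + 1 - n = (w.length + 1 - n) + 1 := by
        rw [List.length_cons]; omega
      rw [e, Finset.sum_range_succ']
      rw [add_comm]
      congr 1
      · refine Finset.sum_congr rfl fun i _ => ?_
        have h1 : ce n ψ l false (a :: w) (i + 1) = ce n ψ a false w i := by
          unfold ce
          rw [Nat.add_right_comm]
          rfl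
        have h2 : del n (a :: w) (i + 1) = a :: del n w i := by
          unfold del
          rw [Nat.add_right_comm]
          rfl
        rw [h1, h2]
      · unfold hd
        rw [if_pos (by rw [List.length_cons]; exact h), q_head]
        unfold ce del
        rw [Nat.zero_add]
        rfl
    · have e : (a :: w).length + 1 - n = 0 := by
        rw [List.length_cons]; omega
      have e' : w.length + 1 - n = 0 := by omega
      rw [e, e', Finset.sum_range_zero, Finset.sum_range_zero, add_zero]
      unfold hd
      rw [if_neg]
      rw [List.length_cons]; omega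

/-! ### the segments -/

theorem seg_tf (w : List Bool) : seg true false w = wd w := by
  unfold seg
  by_cases h : w = []
  · rw [if_pos h, h]
  · rw [if_neg h, if_neg (by simp), if_pos rfl]

theorem seg_ft (w : List Bool) : seg false true w = (-1 : ℚ) ^ w.length • wd w.reverse := by
  unfold seg
  by_cases h : w = []
  · rw [if_pos h, h]; simp
  · rw [if_neg h, if_neg (by simp), if_neg (by simp)]

theorem seg_ll (l : Bool) (w : List Bool) : seg l l w = if w = [] then wd [] else 0 := by
  unfold seg
  by_cases h : w = []
  · rw [if_pos h, if_pos h]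
  · rw [if_neg h, if_pos rfl, if_neg h]

theorem Dw_wd_sum (hn : 1 ≤ n) (w : List Bool) : Dw n ψ (wd w) =
    ∑ i ∈ range (w.length + 1 - n), ce n ψ true false w i • wd (del n w i) := by
  rw [SEPM.Dw_wd]
  exact TTsum hn w true wd

/-- `D_ψ` of a segment -/
theorem D_seg (hψ : Kp n ψ) (l r : Bool) (w : List Bool) : Dw n ψ (seg l r w) =
    ∑ i ∈ range (w.length + 1 - n), ce n ψ l r w i • seg l r (del n w i) := by
  have hn := hψ.1
  have hll : ∀ l : Bool, Dw n ψ (seg l l w) =
      ∑ i ∈ range (w.length + 1 - n), ce n ψ l l w i • seg l l (del n w i) := by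
    intro l
    have h1 : Dw n ψ (seg l l w) = 0 := by
      rw [seg_ll]
      split_ifs
      · rw [Dw_wd_sum hn]
        have e : ([] : List Bool).length + 1 - n = 0 := by
          rw [List.length_nil]; omega
        rw [e, Finset.sum_range_zero]
      · exact map_zero _
    rw [h1]
    symm
    refine Finset.sum_eq_zero fun i hi => ?_
    rw [Finset.mem_range] at hi
    obtain ⟨x, U, y, rfl, hx, hU⟩ := fac (n := n) w i (by omega)
    subst hx
    rw [ce_app l l x U y hU, del_app x U y hU, seg_ll]
    split_ifs with h
    · rw [List.append_eq_nil_iff] at h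
      rw [h.1, h.2]
      show ((q l - q l) * (ψ U : ℚ)) • wd [] = 0
      rw [sub_self, zero_mul, zero_smul]
    · exact smul_zero _
  cases l with
  | true =>
    cases r with
    | true => exact hll true
    | false =>
      simp only [seg_tf]
      exact Dw_wd_sum hn w
  | false =>
    cases r with
    | false => exact hll false
    | true =>
      rw [seg_ft, map_smul, Dw_wd_sum hn, List.length_reverse, ← Finset.sum_range_reflect,
        Finset.smul_sum]
      refine Finset.sum_congr rfl fun j hj => ?_
      rw [Finset.mem_range] at hj
      obtain ⟨x, U, y, rfl, hx, hU⟩ := fac (n := n) w j (by omega)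
      subst hx
      rw [ce_app false true x U y hU, del_app x U y hU, seg_ft]
      have e1 : (x ++ (U ++ y)).reverse = y.reverse ++ (U.reverse ++ x.reverse) := by
        rw [List.reverse_append, List.reverse_append, List.append_assoc]
      have e2 : (x ++ (U ++ y)).length + 1 - n - 1 - x.length = y.reverse.length := by
        rw [List.length_append, List.length_append, List.length_reverse]
        omega
      have hU' : U.reverse.length = n := by rw [List.length_reverse, hU]
      rw [e1, e2, ce_app true false y.reverse U.reverse x.reverse hU',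
        del_app y.reverse U.reverse x.reverse hU', lastB_rev, headB_rev, List.reverse_append]
      have hanti := PSIM.anti ψ n hψ.2 U hU hn
      have hanti' : ((-1 : ℚ)) ^ n * (ψ U.reverse : ℚ) = - (ψ U : ℚ) := by exact_mod_cast hanti
      rw [smul_smul, smul_smul]
      congr 1
      have e3 : (x ++ (U ++ y)).length = n + (x ++ y).length := by
        rw [List.length_append, List.length_append, List.length_append, hU]
        omega
      rw [e3, pow_add]
      linear_combination ((-1 : ℚ) ^ (x ++ y).length * (q (headB true y) - q (lastB false x))) *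
        hanti'

/-! ### the coaction -/

/-- the word `s` with the marker `k` -/
noncomputable def G (l : Bool) (k : ℕ) (s : List Bool) : H ⊗[ℚ] H := gon l (s.take k) (s.drop k)

theorem G_app (l : Bool) (p r : List Bool) : G l p.length (p ++ r) = gon l p r := by
  unfold G
  rw [List.take_left, List.drop_left]

/-- the position of the marker -/
def kk (n m i : ℕ) : ℕ := min m (max (m - n) i)

/-- `(h ⧢ ⊗ a)` -/
noncomputable def W (a : Bool) (h : H) : H ⊗[ℚ] H →ₗ[ℚ] H ⊗[ℚ] H :=
  TensorProduct.map (shL h) (lmL a)

theorem gon_cons (l : Bool) (u : List Bool) (a : Bool) (w : List Bool) :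
    gon l u (a :: w) = gon l (u ++ [a]) w + W a (seg l a u) (gon a [] w) := rfl

theorem shL_add (h h' : H) : shL (h + h') = shL h + shL h' := by
  apply LinearMap.ext
  intro g
  rw [LinearMap.add_apply, CNTM.shL_apply, CNTM.shL_apply, CNTM.shL_apply, Alg.shuffle_add_left]

theorem shL_smul (c : ℚ) (h : H) : shL (c • h) = c • shL h := by
  apply LinearMap.ext
  intro g
  rw [LinearMap.smul_apply, CNTM.shL_apply, CNTM.shL_apply, Alg.shuffle_smul_left]

theorem W_add (a : Bool) (h h' : H) (z : H ⊗[ℚ] H) : W a (h + h') z = W a h z + W a h' z := by
  unfold W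
  rw [shL_add, TensorProduct.map_add_left, LinearMap.add_apply]

theorem W_smul (a : Bool) (c : ℚ) (h : H) (z : H ⊗[ℚ] H) : W a (c • h) z = c • W a h z := by
  unfold W
  rw [shL_smul, TensorProduct.map_smul_left, LinearMap.smul_apply]

theorem W_zero (a : Bool) (z : H ⊗[ℚ] H) : W a 0 z = 0 := by
  have := W_smul a 0 0 z
  rwa [zero_smul, zero_smul] at this

theorem W_sum (a : Bool) (z : H ⊗[ℚ] H) (s : Finset ℕ) (c : ℕ → ℚ) (h : ℕ → H) :
    W a (∑ i ∈ s, c i • h i) z = ∑ i ∈ s, c i • W a (h i) z := by
  classical
  induction s using Finset.induction_on with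
  | empty => rw [Finset.sum_empty, Finset.sum_empty, W_zero]
  | insert i s hi ih => rw [Finset.sum_insert hi, Finset.sum_insert hi, W_add, W_smul, ih]

theorem W_der (hDER : SpecDER) (hψ : Kp n ψ) (a : Bool) (h : H) (z : H ⊗[ℚ] H) :
    TensorProduct.map (Dw n ψ) LinearMap.id (W a h z) =
      W a (Dw n ψ h) z + W a h (TensorProduct.map (Dw n ψ) LinearMap.id z) := by
  have key : TensorProduct.map (Dw n ψ) LinearMap.id ∘ₗ W a h =
      W a (Dw n ψ h) + W a h ∘ₗ TensorProduct.map (Dw n ψ) LinearMap.id := by
    unfold W
    apply TensorProduct.ext'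
    intro x y
    simp only [LinearMap.comp_apply, LinearMap.add_apply, TensorProduct.map_tmul,
      LinearMap.id_apply, CNTM.shL_apply]
    rw [hDER.der n ψ hψ, TensorProduct.add_tmul]
  have := congrArg (fun f => f z) key
  simpa only [LinearMap.comp_apply, LinearMap.add_apply] using this

/-- the sum of the terms beyond the position `m` -/
theorem sum_tail {M : Type} [AddCommMonoid M] (m N : ℕ) (B : ℕ → M) :
    ∑ i ∈ range N, (if m ≤ i then B (i - m) else 0) = ∑ j ∈ range (N - m), B j := by
  by_cases h : m ≤ N
  · obtain ⟨k, rfl⟩ := Nat.exists_eq_add_of_le h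
    rw [Finset.sum_range_add, Nat.add_sub_cancel_left]
    have h0 : ∑ x ∈ range m, (if m ≤ x then B (x - m) else 0) = 0 :=
      Finset.sum_eq_zero fun x hx => by
        rw [Finset.mem_range] at hx
        rw [if_neg (by omega)]
    rw [h0, zero_add]
    refine Finset.sum_congr rfl fun x _ => ?_
    rw [if_pos (by omega), Nat.add_sub_cancel_left]
  · have e : N - m = 0 := by omega
    rw [e, Finset.sum_range_zero]
    refine Finset.sum_eq_zero fun x hx => ?_
    rw [Finset.mem_range] at hx
    rw [if_neg (by omega)]

theorem sum_head {M : Type} [AddCommMonoid M] (m N : ℕ) (h : m ≤ N) (A : ℕ → M) :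
    ∑ i ∈ range N, (if i < m then A i else 0) = ∑ j ∈ range m, A j := by
  rw [← Finset.sum_filter]
  congr 1
  ext i
  rw [Finset.mem_filter, Finset.mem_range, Finset.mem_range]
  omega

/-- the effect of one letter -/
theorem term (l a : Bool) (u w : List Bool) (i : ℕ) (hn : 1 ≤ n)
    (hi : i + n ≤ (u ++ a :: w).length) :
    ce n ψ l false (u ++ a :: w) i • G l (kk n u.length i) (del n (u ++ a :: w) i) =
      ce n ψ l false (u ++ a :: w) i • G l (kk n (u.length + 1) i) (del n (u ++ a :: w) i) +
      ((if i < u.length + 1 - n then
        ce n ψ l a u i • W a (seg l a (del n u i)) (gon a [] w) else 0) +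
      (if u.length + 1 ≤ i then ce n ψ a false w (i - (u.length + 1)) •
        W a (seg l a u) (gon a [] (del n w (i - (u.length + 1)))) else 0)) := by
  rcases Nat.lt_or_ge u.length i with h1 | h1
  · -- the segment is in `w`
    have hlen : i + n ≤ u.length + 1 + w.length := by
      rw [List.length_append, List.length_cons] at hi; omega
    obtain ⟨x, U, y, rfl, hx, hU⟩ := fac (n := n) w (i - (u.length + 1)) (by omega)
    rw [if_neg (by omega), if_pos (by omega), zero_add]
    have e1 : u ++ a :: (x ++ (U ++ y)) = (u ++ a :: x) ++ (U ++ y) := by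
      rw [List.append_assoc, List.cons_append]
    have e2 : i = (u ++ a :: x).length := by
      rw [List.length_append, List.length_cons]; omega
    have k1 : kk n u.length i = u.length := by unfold kk; omega
    have k2 : kk n (u.length + 1) i = (u ++ [a]).length := by
      rw [List.length_append, List.length_singleton]; unfold kk; omega
    have c1 : ce n ψ l false (u ++ a :: (x ++ (U ++ y))) i =
        (q (lastB a x) - q (headB false y)) * (ψ U : ℚ) := by
      rw [e1, e2, ce_app _ _ _ _ _ hU, lastB_app]
    have c2 : ce n ψ a false (x ++ (U ++ y)) (i - (u.length + 1)) =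
        (q (lastB a x) - q (headB false y)) * (ψ U : ℚ) := by
      rw [← hx, ce_app _ _ _ _ _ hU]
    have d1 : del n (u ++ a :: (x ++ (U ++ y))) i = u ++ a :: (x ++ y) := by
      rw [e1, e2, del_app _ _ _ hU, List.append_assoc, List.cons_append]
    have d2 : del n (x ++ (U ++ y)) (i - (u.length + 1)) = x ++ y := by
      rw [← hx, del_app _ _ _ hU]
    rw [k1, k2, c1, c2, d1, d2, G_app]
    have e3 : u ++ a :: (x ++ y) = (u ++ [a]) ++ (x ++ y) := by
      rw [List.append_assoc, List.singleton_append]
    rw [e3, G_app, gon_cons, smul_add]
  · rw [if_neg (show ¬ u.length + 1 ≤ i by omega), add_zero]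
    rcases Nat.lt_or_ge u.length (i + n) with h2 | h2
    · -- the segment contains `a`
      have k1 : kk n u.length i = i := by unfold kk; omega
      have k2 : kk n (u.length + 1) i = i := by unfold kk; omega
      rw [k1, k2, if_neg (by omega), add_zero]
    · -- the segment is in `u`
      obtain ⟨x, U, y, rfl, hx, hU⟩ := fac (n := n) u i h2
      subst hx
      have hl : (x ++ (U ++ y)).length = x.length + n + y.length := by
        rw [List.length_append, List.length_append, hU]; omega
      rw [if_pos (by omega)]
      have e1 : (x ++ (U ++ y)) ++ a :: w = x ++ (U ++ (y ++ a :: w)) := by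
        rw [List.append_assoc, List.append_assoc]
      have k1 : kk n (x ++ (U ++ y)).length x.length = (x ++ y).length := by
        rw [hl, List.length_append]; unfold kk; omega
      have k2 : kk n ((x ++ (U ++ y)).length + 1) x.length = ((x ++ y) ++ [a]).length := by
        rw [hl, List.length_append, List.length_append, List.length_singleton]; unfold kk; omega
      have e2 : x ++ (y ++ a :: w) = (x ++ y) ++ a :: w := by rw [List.append_assoc]
      have e3 : (x ++ y) ++ a :: w = ((x ++ y) ++ [a]) ++ w := by
        rw [List.append_assoc (x ++ y), List.singleton_append]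
      rw [k1, k2, e1, ce_app _ _ _ _ _ hU, del_app _ _ _ hU, ce_app _ _ _ _ _ hU,
        del_app _ _ _ hU, headB_app, e2, G_app, gon_cons, smul_add]
      congr 1
      rw [e3, G_app]

theorem claim (hDER : SpecDER) (hψ : Kp n ψ) (w : List Bool) : ∀ (l : Bool) (u : List Bool),
    TensorProduct.map (Dw n ψ) LinearMap.id (gon l u w) =
      ∑ i ∈ range ((u ++ w).length + 1 - n),
        ce n ψ l false (u ++ w) i • G l (kk n u.length i) (del n (u ++ w) i) := by
  have hn := hψ.1
  induction w with
  | nil =>
    intro l u
    show TensorProduct.map (Dw n ψ) LinearMap.id (seg l false u ⊗ₜ[ℚ] wd []) = _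
    rw [TensorProduct.map_tmul, D_seg hψ, LinearMap.id_apply, TensorProduct.sum_tmul,
      List.append_nil]
    refine Finset.sum_congr rfl fun i hi => ?_
    rw [Finset.mem_range] at hi
    rw [← TensorProduct.smul_tmul']
    congr 1
    have hl : (del n u i).length = u.length - n := by
      unfold del
      rw [List.length_append, List.length_take, List.length_drop]
      omega
    have k1 : kk n u.length i = (del n u i).length := by
      rw [hl]; unfold kk; omega
    rw [k1]
    have e := G_app l (del n u i) []
    rw [List.append_nil] at e
    rw [e]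
    rfl
  | cons a w ih =>
    intro l u
    rw [gon_cons, map_add, W_der hDER hψ, ih l (u ++ [a]), ih a [], D_seg hψ, W_sum, map_sum]
    have e1 : (u ++ [a]) ++ w = u ++ a :: w := by
      rw [List.append_assoc, List.singleton_append]
    have e2 : (u ++ [a]).length = u.length + 1 := by
      rw [List.length_append, List.length_singleton]
    rw [e1, e2, List.nil_append]
    have hM : (u ++ a :: w).length = u.length + 1 + w.length := by
      rw [List.length_append, List.length_cons]; omega
    symm
    calc ∑ i ∈ range ((u ++ a :: w).length + 1 - n),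
          ce n ψ l false (u ++ a :: w) i • G l (kk n u.length i) (del n (u ++ a :: w) i)
        = ∑ i ∈ range ((u ++ a :: w).length + 1 - n),
          (ce n ψ l false (u ++ a :: w) i • G l (kk n (u.length + 1) i) (del n (u ++ a :: w) i) +
          ((if i < u.length + 1 - n then
            ce n ψ l a u i • W a (seg l a (del n u i)) (gon a [] w) else 0) +
          (if u.length + 1 ≤ i then ce n ψ a false w (i - (u.length + 1)) •
            W a (seg l a u) (gon a [] (del n w (i - (u.length + 1)))) else 0))) := by
          refine Finset.sum_congr rfl fun i hi => ?_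
          rw [Finset.mem_range] at hi
          exact term l a u w i hn (by omega)
      _ = _ := by
          rw [Finset.sum_add_distrib, Finset.sum_add_distrib]
          congr 1
          rw [sum_head (u.length + 1 - n) _ (by omega) (fun i =>
            ce n ψ l a u i • W a (seg l a (del n u i)) (gon a [] w))]
          rw [sum_tail (u.length + 1) _ (fun j => ce n ψ a false w j •
            W a (seg l a u) (gon a [] (del n w j)))]
          congr 1
          have e3 : (u ++ a :: w).length + 1 - n - (u.length + 1) = w.length + 1 - n := by omega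
          rw [e3]
          refine Finset.sum_congr rfl fun i _ => ?_
          rw [map_smul]
          congr 2

end MP154526.Mot.COMM

namespace MP154526.Mot

open Finset MP154526.Bound MP154526.Top MP154526.Top.Pass2 MP154526.Lin MP154526.Low
open scoped TensorProduct

theorem specCOM (hDER : SpecDER) : SpecCOM := by
  intro n ψ hψ h
  have hn := hψ.1
  have key : coact ∘ₗ Dw n ψ = TensorProduct.map (Dw n ψ) LinearMap.id ∘ₗ coact := by
    apply SEPM.ext_wd
    intro w
    rw [LinearMap.comp_apply, LinearMap.comp_apply, CNTM.coact_wd, COMM.claim hDER hψ,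
      COMM.Dw_wd_sum hn, map_sum, List.nil_append]
    refine Finset.sum_congr rfl fun i _ => ?_
    rw [map_smul, CNTM.coact_wd]
    congr 1
  have := congrArg (fun f => f h) key
  simpa only [LinearMap.comp_apply] using this

end MP154526.Mot
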