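import Pool.Agent.Lib.MP_154526_nt.Mot.Spec
import Pool.Agent.Lib.MP_154526_nt.Low.Ideal
import Pool.Agent.Lib.MP_154526_nt.Low.RacW

/-!
# DRI: the operators `D_ψ` preserve the ideal `RI`
-/

set_option autoImplicit false

namespace MP154526.Mot.DRIM

open Finset MP154526.Bound MP154526.Top MP154526.Top.Pass2 MP154526.Lin MP154526.Low

theorem kp_of_dw {n : ℕ} {ψ : List Bool → ℤ} (h : DW n ψ) : Kp n ψ :=
  ⟨le_trans (by norm_num) h.three, h.sh⟩

theorem Dw_wd (n : ℕ) (ψ : List Bool → ℤ) (w : List Bool) :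
    Dw n ψ (wd w) = T n (fun u => (ψ u : ℚ)) wd w := by
  unfold Dw wd
  rw [Finsupp.linearCombination_single, one_smul]

theorem gr_wd (p : ℕ) (w : List Bool) : Mot.gr p (wd w) = if w.length = p then wd w else 0 := by
  unfold Mot.gr wd
  rw [Finsupp.linearCombination_single, one_smul]

theorem gr_H0 {p : ℕ} {h : H} (hh : h ∈ H0 p) : Mot.gr p h = h := by
  rw [H0] at hh
  induction hh using Submodule.span_induction with
  | mem x hx =>
    obtain ⟨v, _, hlen, rfl⟩ := hx
    rw [gr_wd, if_pos hlen]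
  | zero => exact map_zero _
  | add x y _ _ h1 h2 => rw [map_add, h1, h2]
  | smul a x _ h => rw [map_smul, h]

theorem T_H0 (n : ℕ) (ψ : List Bool → ℚ) (v : List Bool) (hv : EndY v)
    (hv' : v.head? ≠ some true) : T n ψ wd v ∈ H0 (v.length - n) := by
  have h1 := RacWM.T_congr_ad (M := H ⧸ H0 (v.length - n)) n ψ
    (fun s => (H0 (v.length - n)).mkQ (wd s)) (fun _ => 0) v hv hv' (fun s h1 h2 h3 => by
      rw [Submodule.mkQ_apply, Submodule.Quotient.mk_eq_zero]
      refine Submodule.subset_span ⟨s, ?_, by omega, rfl⟩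
      rcases h1 with rfl | ⟨u, rfl⟩
      · exact Or.inl rfl
      · rcases u with _ | ⟨b, u⟩
        · exact absurd rfl h2
        · have hb : b = false := by
            by_contra h4
            exact h2 (by simpa using h4)
          subst hb
          exact Or.inr ⟨u, rfl⟩)
  rw [RacWM.T_zero, ← Ops.T_map (H0 (v.length - n)).mkQ, Submodule.mkQ_apply,
    Submodule.Quotient.mk_eq_zero] at h1
  exact h1

theorem Dw_H0 (n p : ℕ) (ψ : List Bool → ℤ) {a : H} (ha : a ∈ H0 p) :
    Dw n ψ a ∈ H0 (p - n) := by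
  rw [H0] at ha
  induction ha using Submodule.span_induction with
  | mem x hx =>
    obtain ⟨v, hv, hlen, rfl⟩ := hx
    rw [Dw_wd, ← hlen]
    exact T_H0 n _ v (IdealM.adm_endY hv).1 (IdealM.adm_endY hv).2
  | zero => rw [map_zero]; exact Submodule.zero_mem _
  | add x y _ _ h1 h2 => rw [map_add]; exact Submodule.add_mem _ h1 h2
  | smul r x _ h => rw [map_smul]; exact Submodule.smul_mem _ r h

theorem linL_Dw (n : ℕ) (ψ φ : List Bool → ℤ) (a : H) :
    linL φ (Dw n ψ a) = linL (T n ψ φ) a := by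
  induction a using Finsupp.induction_linear with
  | zero => rw [map_zero, map_zero, map_zero]
  | add f g hf hg => rw [map_add, map_add, map_add, hf, hg]
  | single w c =>
    have e : (Finsupp.single w c : H) = c • wd w := by
      unfold wd
      rw [Finsupp.smul_single, smul_eq_mul, mul_one]
    rw [e, map_smul, map_smul, map_smul, linL_wd, Dw_wd]
    congr 1
    have h1 := Ops.T_map (linL φ) n (fun u => (ψ u : ℚ)) wd w
    rw [h1]
    have h2 : (fun s => linL φ (wd s)) = fun s => (φ s : ℚ) := by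
      funext s
      exact linL_wd φ s
    rw [h2]
    exact RacWM.T_rat n ψ φ w

theorem Dw_RDS {n p : ℕ} {ψ : List Bool → ℤ} (hψ : DW n ψ) (hp : n ≤ p) {a : H}
    (ha : a ∈ RDS p) : Dw n ψ a ∈ Submodule.span ℚ (RDS (p - n)) := by
  refine IdealM.mem_of_kill _ _ (Dw_H0 n p ψ ha.1) fun φ hφ => ?_
  rw [linL_Dw]
  have h1 := (IdealM.closure hψ hφ).rr
  rw [show n + (p - n) = p by omega] at h1
  exact IdealM.kill_span h1 a (Submodule.subset_span ha)

end DRIM

open Finset MP154526.Bound MP154526.Top MP154526.Top.Pass2 MP154526.Lin MP154526.Low in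
theorem specDRI (hDER : SpecDER) (hRIB : SpecRIB) : SpecDRI := by
  intro n ψ hψ h hh
  have hK := DRIM.kp_of_dw hψ
  have h3 := hψ.three
  have hA := specAlg
  have zero_mul' : ∀ b : H, shuffle 0 b = 0 := fun b => by
    have := hA.smul 0 0 b
    rwa [zero_smul, zero_smul] at this
  rw [RI] at hh
  induction hh using Submodule.span_induction with
  | mem x hx =>
    obtain ⟨a, b, hab, rfl⟩ := hx
    rw [hDER.der n ψ hK]
    refine Submodule.add_mem _ ?_ (Submodule.subset_span ⟨a, _, hab, rfl⟩)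
    have hlow : ∀ m < n, Mot.gr m a = a → shuffle (Dw n ψ a) b ∈ RI := by
      intro m hm he
      rw [← he, hDER.low n ψ m a hm, zero_mul']
      exact Submodule.zero_mem _
    rcases hab with rfl | rfl | ⟨p, hp⟩
    · exact hlow 1 (by omega) (by rw [DRIM.gr_wd]; rfl)
    · exact hlow 1 (by omega) (by rw [DRIM.gr_wd]; rfl)
    · rcases Nat.lt_or_ge p n with h4 | h4
      · exact hlow p h4 (DRIM.gr_H0 hp.1)
      · refine hRIB.ideal _ ?_ b
        exact (hRIB.h0 (p - n) _ (DRIM.Dw_H0 n p ψ hp.1)).2 (DRIM.Dw_RDS hψ h4 hp)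
  | zero => rw [map_zero]; exact Submodule.zero_mem _
  | add x y _ _ h1 h2 => rw [map_add]; exact Submodule.add_mem _ h1 h2
  | smul r x _ h => rw [map_smul]; exact Submodule.smul_mem _ r h

end MP154526.Mot
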