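import Pool.Agent.Lib.MP_154526_nt.Mot.Spec
import Pool.Agent.Lib.MP_154526_nt.Low.Ptr
import Pool.Agent.Lib.MP_154526_nt.Low.Ind
import Pool.Agent.Lib.MP_154526_nt.Low.PiW
import Pool.Agent.Lib.MP_154526_nt.Top.Alg
import Pool.Agent.Lib.MP_154526_nt.Low.SHW
import Pool.Agent.Lib.MP_154526_nt.Top.F2
import Pool.Agent.Lib.MP_154526_nt.Top.Pass2Main

section
/-!
# CNT: the counit
-/
set_option autoImplicit false

namespace MP154526.Mot.CNTM

open Finset MP154526.Bound MP154526.Top MP154526.Top.Pass2 MP154526.Lin MP154526.Low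
open scoped TensorProduct

/-- the coefficient of the empty word -/
noncomputable def eps : H →ₗ[ℚ] ℚ := Finsupp.lapply ([] : List Bool)

theorem eps_wd (w : List Bool) : eps (wd w) = if w = [] then 1 else 0 := by
  show (wd w : H) [] = _
  unfold wd
  exact Finsupp.single_apply

theorem shL_wd (h : H) (w : List Bool) : shL h (wd w) = shuffle h (wd w) := by
  unfold shL
  unfold wd
  rw [Finsupp.linearCombination_single, one_smul]

theorem shL_apply (h g : H) : shL h g = shuffle h g := by
  have : shL h = Alg.S h := Alg.ext_wd fun w => by rw [shL_wd, Alg.S_apply]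
  rw [this, Alg.S_apply]

theorem lmL_wd (a : Bool) (w : List Bool) : lmL a (wd w) = wd (a :: w) := by
  unfold lmL
  unfold wd
  rw [Finsupp.linearCombination_single, one_smul]

theorem eps_sh (u v : List Bool) : eps (sh u v) = eps (wd u) * eps (wd v) := by
  have h := map_sh (eps : H →+ ℚ) u v
  have e : eps (sh u v) = shs (fun l => eps (wd l)) u v := h
  rw [e]
  cases u with
  | nil => rw [shs_nil_left, eps_wd [], if_pos rfl, one_mul]
  | cons a u =>
    rw [eps_wd (a :: u), if_neg (by simp), zero_mul]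
    rw [shs_congr_len (G := fun _ => (0 : ℚ)), shs_zero]
    intro l hl
    rw [eps_wd, if_neg]
    rintro rfl
    simp only [List.length_nil, List.length_cons] at hl
    omega

theorem eps_shuffle (a b : H) : eps (shuffle a b) = eps a * eps b := by
  have key : Alg.S.compr₂ eps = (LinearMap.mul ℚ ℚ).compl₁₂ eps eps := by
    refine Alg.ext_wd fun u => Alg.ext_wd fun v => ?_
    simp only [LinearMap.compr₂_apply, LinearMap.compl₁₂_apply, Alg.S_apply, Alg.shuffle_wd,
      LinearMap.mul_apply']
    exact eps_sh u v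
  have := congrArg (fun f => f a b) key
  simpa only [LinearMap.compr₂_apply, LinearMap.compl₁₂_apply, Alg.S_apply,
    LinearMap.mul_apply'] using this

theorem eps_seg (l r : Bool) (u : List Bool) : eps (seg l r u) = if u = [] then 1 else 0 := by
  unfold seg
  by_cases hu : u = []
  · rw [if_pos hu, if_pos hu, eps_wd, if_pos rfl]
  rw [if_neg hu, if_neg hu]
  split_ifs
  · exact map_zero _
  · rw [eps_wd, if_neg hu]
  · rw [map_smul, eps_wd, if_neg (by simpa using hu), smul_zero]

/-- apply a functional to the left factor -/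
noncomputable def lf (f : H →ₗ[ℚ] ℚ) : H ⊗[ℚ] H →ₗ[ℚ] H :=
  (TensorProduct.lid ℚ H).toLinearMap ∘ₗ TensorProduct.map f LinearMap.id

theorem lf_tmul (f : H →ₗ[ℚ] ℚ) (a b : H) : lf f (a ⊗ₜ[ℚ] b) = f a • b := by
  simp [lf]

theorem lf_map (f g : H →ₗ[ℚ] ℚ) (c : ℚ) (h : H) (hf : ∀ a, f (shuffle h a) = c * g a)
    (a : Bool) (t : H ⊗[ℚ] H) :
    lf f (TensorProduct.map (shL h) (lmL a) t) = c • lmL a (lf g t) := by
  induction t using TensorProduct.induction_on with
  | zero => simp
  | tmul x y => rw [TensorProduct.map_tmul, lf_tmul, lf_tmul, shL_apply, hf, map_smul, mul_smul]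
  | add x y hx hy => rw [map_add, map_add, hx, hy, map_add, map_add, smul_add]

theorem gon_eps' (w : List Bool) : ∀ (l : Bool) (u : List Bool),
    lf eps (gon l u w) = if u = [] then wd w else 0 := by
  induction w with
  | nil =>
    intro l u
    rw [gon, lf_tmul, eps_seg]
    split_ifs <;> simp
  | cons a w ih =>
    intro l u
    rw [gon, map_add, ih l (u ++ [a]), if_neg (by simp), zero_add,
      lf_map eps eps (eps (seg l a u)) (seg l a u) (fun b => eps_shuffle _ _), ih a [],
      if_pos rfl, lmL_wd, eps_seg]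
    split_ifs <;> simp

theorem gon_eps (l : Bool) (w : List Bool) : lf eps (gon l [] w) = wd w := by
  rw [gon_eps', if_pos rfl]

theorem coact_wd (w : List Bool) : coact (wd w) = gon true [] w := by
  unfold coact
  unfold wd
  rw [Finsupp.linearCombination_single, one_smul]

end MP154526.Mot.CNTM

namespace MP154526.Mot

open Finset MP154526.Bound MP154526.Top MP154526.Low CNTM

/-- CNT -/
theorem specCNT : SpecCNT := by
  intro h
  have key : lf eps ∘ₗ coact = LinearMap.id := by
    refine Alg.ext_wd fun w => ?_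
    rw [LinearMap.comp_apply, coact_wd, gon_eps]
    rfl
  exact congrArg (fun f => f h) key

end MP154526.Mot
end

section
/-!
# PSI: `(ψ ⊗ 1) Δ = D_ψ`
-/
set_option autoImplicit false

namespace MP154526.Mot.PSIM

open Finset MP154526.Bound MP154526.Top MP154526.Top.Pass2 MP154526.Lin MP154526.Low
open MP154526.Mot.CNTM
open scoped TensorProduct

/-! ### the antipode -/

/-- signed sum over the letters moved from `v` to `u` -/
def Sm (f : List Bool → ℤ) : List Bool → List Bool → ℤ
  | u, [] => f u
  | u, b :: v => shs f u (b :: v) - Sm f (b :: u) v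

theorem Sm_cons (f : List Bool → ℤ) (a : Bool) (u v : List Bool) :
    Sm f (a :: u) v = shs (fun l => f (a :: l)) u v := by
  induction v generalizing a u with
  | nil => simp [Sm]
  | cons b v ih =>
    rw [Sm, ih, shs_cons_cons, add_sub_cancel_right]

theorem Sm_eq (f : List Bool → ℤ) (n : ℕ)
    (hf : ∀ u v : List Bool, u ≠ [] → v ≠ [] → u.length + v.length = n → shs f u v = 0)
    (v : List Bool) : ∀ u : List Bool, u ≠ [] → u.length + v.length = n →
      Sm f u v = (-1) ^ v.length * f (v.reverse ++ u) := by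
  induction v with
  | nil => intro u _ _; simp [Sm]
  | cons b v ih =>
    intro u hu hn
    rw [Sm, hf u (b :: v) hu (by simp) hn, zero_sub, ih (b :: u) (by simp) (by
      simp only [List.length_cons] at hn ⊢
      omega)]
    rw [List.length_cons, pow_succ, List.reverse_cons, List.append_assoc, List.singleton_append]
    ring

/-- a functional killing products, at a reversed word -/
theorem anti (f : List Bool → ℤ) (n : ℕ)
    (hf : ∀ u v : List Bool, u ≠ [] → v ≠ [] → u.length + v.length = n → shs f u v = 0)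
    (w : List Bool) (hw : w.length = n) (hn : 1 ≤ n) :
    (-1) ^ n * f w.reverse = - f w := by
  cases w with
  | nil =>
    simp only [List.length_nil] at hw
    omega
  | cons b v =>
    have h1 := Sm_cons f b [] v
    rw [Sm_eq f n hf v [b] (by simp) (by
      simp only [List.length_cons, List.length_nil] at hw ⊢
      omega), shs_nil_left] at h1
    rw [← hw, List.reverse_cons, List.length_cons, pow_succ, ← h1]
    ring

/-! ### the functional `fn n ψ` -/

theorem fn_wd (n : ℕ) (ψ : List Bool → ℤ) (w : List Bool) :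
    fn n ψ (wd w) = if w.length = n then (ψ w : ℚ) else 0 := by
  unfold fn
  unfold wd
  rw [Finsupp.linearCombination_single, one_smul]

theorem fn_shuffle (n : ℕ) (ψ : List Bool → ℤ) (hψ : Kp n ψ) (u : List Bool) (hu : u ≠ [])
    (g : H) : fn n ψ (shuffle (wd u) g) = fn n ψ (wd u) * eps g := by
  have key : fn n ψ ∘ₗ Alg.S (wd u) = fn n ψ (wd u) • eps := by
    refine Alg.ext_wd fun v => ?_
    rw [LinearMap.comp_apply, Alg.S_apply, Alg.shuffle_wd, LinearMap.smul_apply, smul_eq_mul,
      eps_wd]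
    by_cases hv : v = []
    · subst hv
      rw [Alg.sh_nil_right, if_pos rfl, mul_one]
    rw [if_neg hv, mul_zero]
    have h := map_sh (fn n ψ : H →+ ℚ) u v
    have e : fn n ψ (sh u v) = shs (fun l => fn n ψ (wd l)) u v := h
    rw [e]
    by_cases hn : u.length + v.length = n
    · rw [shs_congr_len (G := fun l => ((Int.castAddHom ℚ) (ψ l) : ℚ)) u v (fun l hl => by
        rw [fn_wd, if_pos (by omega)]
        rfl), ← shs_map, hψ.2 u v hu hv hn, map_zero]
    · rw [shs_congr_len (G := fun _ => (0 : ℚ)) u v (fun l hl => by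
        rw [fn_wd, if_neg (by omega)]), shs_zero]
  have := congrArg (fun f => f g) key
  exact this

theorem fn_seg_mul (n : ℕ) (ψ : List Bool → ℤ) (hψ : Kp n ψ) (l r : Bool) (u : List Bool)
    (hu : u ≠ []) (g : H) : fn n ψ (shuffle (seg l r u) g) = fn n ψ (seg l r u) * eps g := by
  unfold seg
  rw [if_neg hu]
  split_ifs
  · rw [Alg.shuffle_zero_left, map_zero, zero_mul]
  · exact fn_shuffle n ψ hψ u hu g
  · rw [Alg.shuffle_smul_left, map_smul, map_smul, fn_shuffle n ψ hψ u.reverse (by simpa using hu) g,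
      smul_eq_mul, smul_eq_mul, mul_assoc]

theorem fn_seg (n : ℕ) (ψ : List Bool → ℤ) (hψ : Kp n ψ) (l r : Bool) (u : List Bool)
    (hu : u.length = n) : fn n ψ (seg l r u) =
      ((if l then 1 else 0) - (if r = true then 1 else 0)) * (ψ u : ℚ) := by
  have hn := hψ.1
  have hu0 : u ≠ [] := by
    rintro rfl
    simp only [List.length_nil] at hu
    omega
  unfold seg
  rw [if_neg hu0]
  by_cases hlr : l = r
  · subst hlr
    rw [if_pos rfl, map_zero]
    cases l <;> simp
  rw [if_neg hlr]
  cases l with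
  | true =>
    have hr : r = false := by
      cases r
      · rfl
      · exact absurd rfl hlr
    subst hr
    simp [fn_wd, hu]
  | false =>
    have hr : r = true := by
      cases r
      · exact absurd rfl hlr
      · rfl
    subst hr
    have h1 := anti ψ n hψ.2 u hu hψ.1
    have h2 : ((-1 : ℚ) ^ n * (ψ u.reverse : ℚ)) = - (ψ u : ℚ) := by exact_mod_cast h1
    rw [if_neg (by simp), map_smul, fn_wd, if_pos (by rw [List.length_reverse, hu]), hu,
      smul_eq_mul, h2]
    simp

theorem fn_seg_zero (n : ℕ) (ψ : List Bool → ℤ) (l r : Bool) (u : List Bool) (hu0 : u ≠ [])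
    (hu : u.length ≠ n) : fn n ψ (seg l r u) = 0 := by
  unfold seg
  rw [if_neg hu0]
  split_ifs
  · exact map_zero _
  · rw [fn_wd, if_neg hu]
  · rw [map_smul, fn_wd, if_neg (by rw [List.length_reverse]; exact hu), smul_zero]

theorem seg_nil (l r : Bool) : seg l r [] = wd [] := by
  unfold seg
  rw [if_pos rfl]

/-- the second term for a nonempty gap -/
theorem second (n : ℕ) (ψ : List Bool → ℤ) (hψ : Kp n ψ) (l a : Bool) (u w : List Bool)
    (hu : u ≠ []) : lf (fn n ψ) (TensorProduct.map (shL (seg l a u)) (lmL a) (gon a [] w)) =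
      fn n ψ (seg l a u) • wd (a :: w) := by
  rw [lf_map (fn n ψ) eps (fn n ψ (seg l a u)) (seg l a u) (fn_seg_mul n ψ hψ l a u hu), gon_eps,
    lmL_wd]

/-- the second term for an empty gap -/
theorem second_nil (n : ℕ) (ψ : List Bool → ℤ) (l a : Bool) (t : H ⊗[ℚ] H) :
    lf (fn n ψ) (TensorProduct.map (shL (seg l a [])) (lmL a) t) = lmL a (lf (fn n ψ) t) := by
  rw [lf_map (fn n ψ) (fn n ψ) 1 (seg l a []) (fun b => by
    rw [seg_nil, Alg.shuffle_one_left, one_mul]), one_smul]

theorem gon_long (n : ℕ) (ψ : List Bool → ℤ) (hψ : Kp n ψ) (w : List Bool) :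
    ∀ (l : Bool) (u : List Bool), n < u.length → lf (fn n ψ) (gon l u w) = 0 := by
  induction w with
  | nil =>
    intro l u hu
    rw [gon, lf_tmul, fn_seg_zero n ψ l false u (by
      rintro rfl
      simp at hu) (by omega), zero_smul]
  | cons a w ih =>
    intro l u hu
    have hu0 : u ≠ [] := by
      rintro rfl
      simp at hu
    rw [gon, map_add, ih l (u ++ [a]) (by
      rw [List.length_append]
      omega), second n ψ hψ l a u w hu0, fn_seg_zero n ψ l a u hu0 (by omega), zero_smul, add_zero]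

theorem gon_mid (n : ℕ) (ψ : List Bool → ℤ) (hψ : Kp n ψ) (w : List Bool) :
    ∀ (l : Bool) (u : List Bool), u ≠ [] → u.length ≤ n →
      lf (fn n ψ) (gon l u w) = hd n (fun u => (ψ u : ℚ)) l wd (u ++ w) := by
  induction w with
  | nil =>
    intro l u hu0 hu
    rw [gon, lf_tmul, List.append_nil]
    by_cases hn : u.length = n
    · rw [fn_seg n ψ hψ l false u hn]
      unfold hd
      rw [if_pos hn.ge, ← hn, List.drop_length, List.take_length]
      rfl
    · rw [fn_seg_zero n ψ l false u hu0 hn, zero_smul]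
      unfold hd
      rw [if_neg (by omega)]
  | cons a w ih =>
    intro l u hu0 hu
    rw [gon, map_add, second n ψ hψ l a u w hu0]
    by_cases hn : u.length = n
    · rw [gon_long n ψ hψ w l (u ++ [a]) (by
        rw [List.length_append, hn]
        simp), zero_add, fn_seg n ψ hψ l a u hn]
      unfold hd
      rw [if_pos (show n ≤ (u ++ a :: w).length by rw [List.length_append]; omega), ← hn,
        List.drop_left, List.take_left]
      simp only [List.head?_cons, Option.some.injEq]
    · rw [fn_seg_zero n ψ l a u hu0 hn, zero_smul, add_zero, ih l (u ++ [a]) (by simp) (by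
        rw [List.length_append]
        simp only [List.length_cons, List.length_nil]
        omega), List.append_assoc, List.singleton_append]

theorem gon_start (n : ℕ) (ψ : List Bool → ℤ) (hψ : Kp n ψ) (w : List Bool) :
    ∀ l : Bool, lf (fn n ψ) (gon l [] w) = TT n (fun u => (ψ u : ℚ)) l wd w := by
  induction w with
  | nil =>
    intro l
    have hn := hψ.1
    rw [gon, lf_tmul, seg_nil, fn_wd, if_neg (by simp only [List.length_nil]; omega), zero_smul,
      Level.TT_nil, Level.hd_short]
    simp only [List.length_nil]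
    omega
  | cons a w ih =>
    intro l
    have hn := hψ.1
    rw [gon, map_add, second_nil, ih a, List.nil_append, gon_mid n ψ hψ w l [a] (by simp) (by
      simpa using hn), Level.TT_cons, Ops.TT_map, List.singleton_append]
    simp only [lmL_wd]

end MP154526.Mot.PSIM

namespace MP154526.Mot

open Finset MP154526.Bound MP154526.Top MP154526.Low CNTM PSIM

/-- PSI -/
theorem specPSI : SpecPSI := by
  intro n ψ hψ h
  have key : lf (fn n ψ) ∘ₗ coact = Dw n ψ := by
    refine Alg.ext_wd fun w => ?_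
    rw [LinearMap.comp_apply, coact_wd, gon_start n ψ hψ]
    unfold Dw
    unfold wd
    rw [Finsupp.linearCombination_single, one_smul]
    rfl
  exact congrArg (fun f => f h) key

end MP154526.Mot
end

section
/-!
# SEP: the common kernel of the operators `D_j`
-/
set_option autoImplicit false

namespace MP154526.Mot.SEPM

open Finset MP154526.Bound MP154526.Top MP154526.Top.Pass2 MP154526.Lin MP154526.Low

section gen

variable {K M : Type} [CommRing K] [AddCommGroup M] [Module K M]

theorem hd_congr_len (n : ℕ) (ψ : List Bool → K) (c : Bool) (φ φ' : List Bool → M)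
    (w : List Bool) (h : ∀ v : List Bool, v.length + n = w.length → φ v = φ' v) :
    hd n ψ c φ w = hd n ψ c φ' w := by
  unfold hd
  by_cases h1 : n ≤ w.length
  · rw [if_pos h1, if_pos h1, h]
    rw [List.length_drop]
    omega
  · rw [if_neg h1, if_neg h1]

theorem TT_congr_len (n : ℕ) (ψ : List Bool → K) (w : List Bool) :
    ∀ (c : Bool) (φ φ' : List Bool → M),
    (∀ v : List Bool, v.length + n = w.length → φ v = φ' v) →
    TT n ψ c φ w = TT n ψ c φ' w := by
  induction w with
  | nil => exact fun c φ φ' h => hd_congr_len n ψ c φ φ' [] h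
  | cons a w ih =>
    intro c φ φ' h
    show hd n ψ c φ (a :: w) + TT n ψ a (fun v => φ (a :: v)) w =
      hd n ψ c φ' (a :: w) + TT n ψ a (fun v => φ' (a :: v)) w
    rw [hd_congr_len n ψ c φ φ' _ h, ih a (fun v => φ (a :: v)) (fun v => φ' (a :: v))]
    intro v hv
    apply h
    rw [List.length_cons, List.length_cons]
    omega

theorem TT_zero (n : ℕ) (ψ : List Bool → K) (w : List Bool) :
    ∀ c : Bool, TT n ψ c (fun _ => (0 : M)) w = 0 := by
  induction w with
  | nil =>
    intro c
    show hd n ψ c (fun _ => (0 : M)) [] = 0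
    unfold hd
    split_ifs <;> simp
  | cons a w ih =>
    intro c
    show hd n ψ c (fun _ => (0 : M)) (a :: w) + TT n ψ a (fun _ => (0 : M)) w = 0
    rw [ih a, add_zero]
    unfold hd
    split_ifs <;> simp

theorem T_zero_len (n : ℕ) (ψ : List Bool → K) (φ : List Bool → M) (w : List Bool)
    (h : ∀ v : List Bool, v.length + n = w.length → φ v = 0) : T n ψ φ w = 0 := by
  unfold T
  rw [TT_congr_len n ψ w true φ (fun _ => 0) h, TT_zero]

theorem T_congr_len (n : ℕ) (ψ : List Bool → K) (φ φ' : List Bool → M) (w : List Bool)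
    (h : ∀ v : List Bool, v.length + n = w.length → φ v = φ' v) : T n ψ φ w = T n ψ φ' w :=
  TT_congr_len n ψ w true φ φ' h

end gen

theorem hd_cast (n : ℕ) (ψ : List Bool → ℤ) (c : Bool) (φ : List Bool → ℤ) (w : List Bool) :
    ((hd n ψ c φ w : ℤ) : ℚ) = hd n (fun u => (ψ u : ℚ)) c (fun v => (φ v : ℚ)) w := by
  unfold hd
  split_ifs <;> simp

theorem TT_cast (n : ℕ) (ψ : List Bool → ℤ) (w : List Bool) : ∀ (c : Bool) (φ : List Bool → ℤ),
    ((TT n ψ c φ w : ℤ) : ℚ) = TT n (fun u => (ψ u : ℚ)) c (fun v => (φ v : ℚ)) w := by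
  induction w with
  | nil => exact fun c φ => hd_cast n ψ c φ []
  | cons a w ih =>
    intro c φ
    show ((hd n ψ c φ (a :: w) + TT n ψ a (fun v => φ (a :: v)) w : ℤ) : ℚ) = _
    rw [Int.cast_add, hd_cast, ih]
    rfl

theorem ext_wd {M : Type} [AddCommGroup M] [Module ℚ M] {F G : H →ₗ[ℚ] M}
    (h : ∀ w, F (wd w) = G (wd w)) : F = G := by
  apply Finsupp.lhom_ext'
  intro w
  apply LinearMap.ext_ring
  exact h w

theorem fn_wd (n : ℕ) (ψ : List Bool → ℤ) (w : List Bool) :
    fn n ψ (wd w) = if w.length = n then (ψ w : ℚ) else 0 := by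
  unfold fn wd
  rw [Finsupp.linearCombination_single, one_smul]

theorem gr_wd (p : ℕ) (w : List Bool) : gr p (wd w) = if w.length = p then wd w else 0 := by
  unfold gr
  exact (Finsupp.linearCombination_single ℚ 1 w).trans (one_smul ℚ _)

theorem Dw_wd (n : ℕ) (ψ : List Bool → ℤ) (w : List Bool) :
    Dw n ψ (wd w) = T n (fun u => (ψ u : ℚ)) wd w := by
  unfold Dw
  conv_lhs => unfold wd
  rw [Finsupp.linearCombination_single, one_smul]
  rfl

/-- `T` is the transpose of `D_ψ` -/
theorem fn_T (n m : ℕ) (ψ χ : List Bool → ℤ) (h : H) :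
    fn (n + m) (T n ψ χ) h = fn m χ (Dw n ψ h) := by
  have : fn (n + m) (T n ψ χ) = fn m χ ∘ₗ Dw n ψ := by
    apply ext_wd
    intro w
    rw [LinearMap.comp_apply, fn_wd, Dw_wd, Ops.T_map]
    split_ifs with hw
    · unfold T
      rw [TT_cast]
      apply TT_congr_len
      intro v hv
      rw [fn_wd, if_pos (by omega)]
    · symm
      apply T_zero_len
      intro v hv
      rw [fn_wd, if_neg (by omega)]
  rw [this, LinearMap.comp_apply]

/-- integral functionals from rational ones -/
theorem fn_clear (m : ℕ) (χ : List Bool → ℤ) (N : ℕ) (φ : H →ₗ[ℚ] ℚ)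
    (h : ∀ w : List Bool, w.length = m → (χ w : ℚ) = N * φ (wd w)) (g : H) :
    fn m χ g = N * φ (gr m g) := by
  have : fn m χ = (N : ℚ) • (φ ∘ₗ gr m) := by
    apply ext_wd
    intro w
    rw [LinearMap.smul_apply, LinearMap.comp_apply, fn_wd, gr_wd]
    split_ifs with hw
    · rw [h w hw, smul_eq_mul]
    · rw [map_zero, smul_zero]
  rw [this, LinearMap.smul_apply, LinearMap.comp_apply, smul_eq_mul]

/-- common denominator -/
theorem clearS {α : Type} (S : Finset α) (c : α → ℚ) :
    ∃ (M : ℕ) (c' : α → ℤ), M ≠ 0 ∧ ∀ s ∈ S, (c' s : ℚ) = M * c s := by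
  classical
  induction S using Finset.induction_on with
  | empty => exact ⟨1, fun _ => 0, one_ne_zero, by simp⟩
  | insert a S ha ih =>
    obtain ⟨M, c', hM, hc⟩ := ih
    refine ⟨(c a).den * M, fun s => if s = a then M * (c a).num else (c a).den * c' s,
      mul_ne_zero (c a).den_ne_zero hM, ?_⟩
    intro s hs
    dsimp only
    by_cases hsa : s = a
    · subst hsa
      rw [if_pos rfl]
      push_cast
      have := Rat.den_mul_eq_num (c s)
      rw [mul_comm ((c s).den : ℚ) (M : ℚ), mul_assoc, this]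
    · rw [if_neg hsa]
      have hs' : s ∈ S := (Finset.mem_insert.1 hs).resolve_left hsa
      push_cast
      rw [hc s hs', mul_assoc]

theorem Z_wd (w : List Bool) : Z (wd w) = Zw w := by
  unfold Z wd
  rw [Finsupp.linearCombination_single, one_smul]

/-- a rational functional which is nonzero on `(xy)^m` and factors through the period map -/
theorem exists_mu {P : H →ₗ[ℚ] ℝ} (hP : IsPer P) (m : ℕ) :
    ∃ μ : ℝ →ₗ[ℚ] ℚ, μ (P (wd (zp m))) ≠ 0 := by
  have h0 : P (wd (zp m)) ≠ 0 := by
    rw [hP.adm _ (PiW.adm_zp m), Z_wd, PiW.zw_zp]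
    exact (PiW.zeta_pos m).ne'
  by_contra hc
  push Not at hc
  exact h0 ((Module.forall_dual_apply_eq_zero_iff ℚ _).1 hc)

/-- the core: `ξ ∈ R` if all `D_j ξ ∈ R`, and, for even weight, a functional which kills `R` and
`ξ` and is nonzero on `(xy)^m` exists -/
theorem core (hIND : SpecIND) (hDRI : SpecDRI) (hPER : SpecPER) (hRIB : SpecRIB)
    (σ : ℕ → List Bool → ℤ) (hσ : Fam σ) (N : ℕ) (ξ : H) (hξ : Hom N ξ)
    (hD : ∀ j, Dj σ j ξ ∈ RI)
    (hb : ∀ m, N = 2 * m → ∃ φ : H →ₗ[ℚ] ℚ, (∀ h ∈ RI, φ h = 0) ∧ φ (wd (zp m)) ≠ 0 ∧ φ ξ = 0) :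
    ξ ∈ RI := by
  classical
  have h1 := hRIB.span N ξ
  rw [show Mot.gr N ξ = ξ from hξ] at h1
  obtain ⟨r, hr, e, he, hre⟩ := Submodule.mem_sup.1 h1
  -- `e` as a finite sum
  have hset : {z : H | ∃ w, (expand w).length = N ∧ z = wd (expand w)} =
      Set.range fun w : {w : List Bool // (expand w).length = N} => wd (expand w.1) := by
    ext z
    constructor
    · rintro ⟨w, hw, rfl⟩
      exact ⟨⟨w, hw⟩, rfl⟩
    · rintro ⟨w, rfl⟩
      exact ⟨w.1, w.2, rfl⟩
  rw [hset, Finsupp.mem_span_range_iff_exists_finsupp] at he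
  obtain ⟨c, hc⟩ := he
  set S : Finset (List Bool) := c.support.map (Function.Embedding.subtype _) with hS
  set d : List Bool → ℚ := fun w => if h : (expand w).length = N then c ⟨w, h⟩ else 0 with hd
  have hSlen : ∀ s ∈ S, (expand s).length = N := by
    intro s hs
    rw [hS, Finset.mem_map] at hs
    obtain ⟨y, _, rfl⟩ := hs
    exact y.2
  have hesum : e = ∑ s ∈ S, d s • wd (expand s) := by
    rw [← hc, Finsupp.sum, hS, Finset.sum_map]
    refine Finset.sum_congr rfl fun y _ => ?_
    have : d (Function.Embedding.subtype _ y) = c y := by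
      rw [hd]
      exact dif_pos y.2
    rw [this]
    rfl
  obtain ⟨M, c', hM, hc'⟩ := clearS S d
  have hfe : ∀ φ : List Bool → ℤ, (M : ℚ) * fn N φ e =
      ((∑ s ∈ S, c' s * φ (expand s) : ℤ) : ℚ) := by
    intro φ
    rw [hesum, map_sum, Finset.mul_sum, Int.cast_sum]
    refine Finset.sum_congr rfl fun s hs => ?_
    rw [map_smul, fn_wd, if_pos (hSlen s hs), smul_eq_mul, ← mul_assoc, ← hc' s hs]
    push_cast
    ring
  -- the operators on `e`
  have hDe : ∀ j, Dj σ j e ∈ RI := by
    intro j
    have h2 : e = ξ - r := by rw [← hre]; abel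
    rw [h2, map_sub]
    exact RI.sub_mem (hD j) (hDRI _ _ (hσ j).1 r hr)
  -- the induction
  have key := hIND σ hσ (fun m χ => (∀ h ∈ RI, fn m χ h = 0) ∧ (m = N → fn m χ e = 0)) ?_ ?_ N S c'
    hSlen ?_
  · have hd0 : ∀ s ∈ S, d s = 0 := by
      intro s hs
      have h2 := hc' s hs
      rw [key s hs, Int.cast_zero] at h2
      rcases mul_eq_zero.1 h2.symm with h3 | h3
      · exact absurd (by exact_mod_cast h3) hM
      · exact h3
    have he0 : e = 0 := by
      rw [hesum]
      exact Finset.sum_eq_zero fun s hs => by rw [hd0 s hs, zero_smul]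
    rw [← hre, he0, add_zero]
    exact hr
  · rintro j m χ ⟨h2, h3⟩
    refine ⟨fun h hh => ?_, fun hmN => ?_⟩
    · rw [fn_T]
      exact h2 _ (hDRI _ _ (hσ j).1 h hh)
    · rw [fn_T]
      exact h2 _ (hDe j)
  · intro m
    by_cases hm : N = 2 * m
    · obtain ⟨φ, hφ1, hφ2, hφ3⟩ := hb m hm
      obtain ⟨N', χ, hN', hχ⟩ := ExW.clear (2 * m) fun w => φ (wd w)
      refine ⟨χ, ⟨fun h hh => ?_, fun _ => ?_⟩, ?_⟩
      · rw [fn_clear (2 * m) χ N' φ hχ, hφ1 _ (hRIB.gr h hh _), mul_zero]
      · rw [fn_clear (2 * m) χ N' φ hχ]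
        have h2 : e = ξ - r := by rw [← hre]; abel
        rw [h2, map_sub, map_sub, ← hm, show Mot.gr N ξ = ξ from hξ, hφ3,
          hφ1 _ (hRIB.gr r hr _), sub_zero, mul_zero]
      · intro h10
        have h9 := hχ (zp m) (PiW.len_zp m)
        rw [h10, Int.cast_zero] at h9
        rcases mul_eq_zero.1 h9.symm with h11 | h11
        · exact hN' (by exact_mod_cast h11)
        · exact hφ2 h11
    · obtain ⟨P, hP, -⟩ := hPER
      obtain ⟨μ, hμ⟩ := exists_mu hP m
      obtain ⟨N', χ, hN', hχ⟩ := ExW.clear (2 * m) fun w => μ (P (wd w))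
      have hχ' : ∀ w : List Bool, w.length = 2 * m → (χ w : ℚ) = N' * (μ ∘ₗ P) (wd w) := hχ
      refine ⟨χ, ⟨fun h hh => ?_, fun h2 => absurd h2.symm hm⟩, ?_⟩
      · rw [fn_clear (2 * m) χ N' (μ ∘ₗ P) hχ', LinearMap.comp_apply,
          hRIB.per P hP _ (hRIB.gr h hh _), map_zero, mul_zero]
      · intro h10
        have h9 := hχ (zp m) (PiW.len_zp m)
        rw [h10, Int.cast_zero] at h9
        rcases mul_eq_zero.1 h9.symm with h11 | h11
        · exact hN' (by exact_mod_cast h11)
        · exact hμ h11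
  · rintro φ ⟨-, h3⟩
    have h4 := hfe φ
    rw [h3 rfl, mul_zero] at h4
    exact_mod_cast h4.symm

end MP154526.Mot.SEPM

namespace MP154526.Mot

open Finset MP154526.Bound MP154526.Top MP154526.Top.Pass2 MP154526.Lin MP154526.Low

theorem specSEP (hIND : SpecIND) (hDRI : SpecDRI) (hPER : SpecPER) (hRIB : SpecRIB) : SpecSEP := by
  intro σ hσ N ξ hξ hD
  refine ⟨fun hN => ?_, fun m hm φ h1 h2 h3 => ?_⟩
  · exact SEPM.core hIND hDRI hPER hRIB σ hσ N ξ hξ hD (fun m hm => by omega)
  · refine SEPM.core hIND hDRI hPER hRIB σ hσ N ξ hξ hD (fun m' hm' => ?_)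
    obtain rfl : m' = m := by omega
    exact ⟨φ, h1, h2, h3⟩

end MP154526.Mot
end

section
/-!
# CRI: the elements which vanish modulo `R + ζ(2) H`
-/
set_option autoImplicit false

namespace MP154526.Mot.CRIM

open Finset MP154526.Bound MP154526.Top MP154526.Top.Pass2 MP154526.Lin MP154526.Low

/-! ### graded parts of products with a word -/

theorem gr_sh (p : ℕ) (u v : List Bool) :
    Mot.gr p (sh u v) = if u.length + v.length = p then sh u v else 0 := by
  have h := map_sh (Mot.gr p : H →+ H) u v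
  have e : Mot.gr p (sh u v) = shs (fun l => Mot.gr p (wd l)) u v := h
  rw [e]
  have h2 := map_sh (AddMonoidHom.id H) u v
  simp only [AddMonoidHom.id_apply] at h2
  split_ifs with hn
  · rw [h2]
    exact shs_congr_len u v fun l hl => by rw [SEPM.gr_wd, if_pos (by omega)]
  · rw [shs_congr_len (G := fun _ => (0 : H)) u v (fun l hl => by
      rw [SEPM.gr_wd, if_neg (by omega)]), shs_zero]

theorem gr_wd_shuffle (p : ℕ) (u : List Bool) (b : H) : Mot.gr p (shuffle (wd u) b) =
    if u.length ≤ p then shuffle (wd u) (Mot.gr (p - u.length) b) else 0 := by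
  have key : Mot.gr p ∘ₗ Alg.S (wd u) =
      if u.length ≤ p then Alg.S (wd u) ∘ₗ Mot.gr (p - u.length) else 0 := by
    refine Alg.ext_wd fun v => ?_
    rw [LinearMap.comp_apply, Alg.S_apply, Alg.shuffle_wd, gr_sh]
    by_cases hu : u.length ≤ p
    · rw [if_pos hu, LinearMap.comp_apply, SEPM.gr_wd, Alg.S_apply]
      by_cases hv : u.length + v.length = p
      · rw [if_pos hv, if_pos (by omega), Alg.shuffle_wd]
      · rw [if_neg hv, if_neg (by omega), Alg.shuffle_zero_right]
    · rw [if_neg hu, if_neg (by omega)]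
      rfl
  have := congrArg (fun f => f b) key
  simp only [LinearMap.comp_apply, Alg.S_apply] at this
  rw [this]
  split_ifs
  · rfl
  · rfl

theorem gr_gr (p q : ℕ) (h : H) : Mot.gr p (Mot.gr q h) = if p = q then Mot.gr q h else 0 := by
  have : Mot.gr p ∘ₗ Mot.gr q = if p = q then Mot.gr q else 0 := by
    apply SEPM.ext_wd
    intro w
    rw [LinearMap.comp_apply, SEPM.gr_wd]
    by_cases hw : w.length = q
    · rw [if_pos hw, SEPM.gr_wd]
      by_cases hpq : p = q
      · rw [if_pos hpq, if_pos (by omega), SEPM.gr_wd, if_pos hw]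
      · rw [if_neg hpq, if_neg (by omega), LinearMap.zero_apply]
    · rw [if_neg hw, map_zero]
      split_ifs
      · rw [SEPM.gr_wd, if_neg hw]
      · rfl
  have h2 := congrArg (fun f => f h) this
  simp only [LinearMap.comp_apply] at h2
  rw [h2]
  split_ifs <;> rfl

theorem gr_hom (p : ℕ) (h : H) : Hom p (Mot.gr p h) := by
  unfold Hom
  rw [gr_gr, if_pos rfl]

theorem gr_coeff (p : ℕ) (h : H) (w : List Bool) :
    (Mot.gr p h) w = if w.length = p then h w else 0 := by
  have : (Finsupp.lapply w : H →ₗ[ℚ] ℚ) ∘ₗ Mot.gr p =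
      if w.length = p then (Finsupp.lapply w : H →ₗ[ℚ] ℚ) else 0 := by
    apply SEPM.ext_wd
    intro v
    rw [LinearMap.comp_apply, SEPM.gr_wd]
    by_cases hw : w.length = p
    · rw [if_pos hw]
      by_cases hv : v.length = p
      · rw [if_pos hv]
      · rw [if_neg hv, map_zero]
        have hne : v ≠ w := by rintro rfl; exact hv hw
        show (0 : ℚ) = (wd v : H) w
        unfold wd
        rw [Finsupp.single_apply, if_neg hne]
    · rw [if_neg hw, LinearMap.zero_apply]
      by_cases hv : v.length = p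
      · rw [if_pos hv]
        have hne : v ≠ w := by rintro rfl; exact hw hv
        show (wd v : H) w = 0
        unfold wd
        rw [Finsupp.single_apply, if_neg hne]
      · rw [if_neg hv, map_zero]
  have h2 := congrArg (fun f => f h) this
  simp only [LinearMap.comp_apply] at h2
  have h3 : (Mot.gr p h) w = (Finsupp.lapply w : H →ₗ[ℚ] ℚ) (Mot.gr p h) := rfl
  rw [h3, h2]
  split_ifs <;> rfl

/-- an element is the sum of its homogeneous parts -/
theorem mem_of_gr (S : Submodule ℚ H) (h : H) (hh : ∀ p, Mot.gr p h ∈ S) : h ∈ S := by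
  classical
  obtain ⟨B, hB⟩ : ∃ B : ℕ, ∀ w ∈ h.support, w.length < B :=
    ⟨h.support.sup List.length + 1, fun w hw => Nat.lt_succ_of_le (Finset.le_sup hw)⟩
  have : h = ∑ p ∈ range B, Mot.gr p h := by
    apply Finsupp.ext
    intro w
    rw [Finsupp.finsetSum_apply]
    simp only [gr_coeff]
    by_cases hw : w ∈ h.support
    · rw [Finset.sum_ite_eq, if_pos (Finset.mem_range.2 (hB w hw))]
    · rw [Finsupp.notMem_support_iff.1 hw]
      simp
  rw [this]
  exact S.sum_mem fun p _ => hh p

/-! ### iterated operators -/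

/-- the iterated operator of the list `L` -/
noncomputable def FL (σ : ℕ → List Bool → ℤ) : List ℕ → H →ₗ[ℚ] H
  | [] => LinearMap.id
  | j :: L => FL σ L ∘ₗ Dj σ j

theorem foldl_eq (σ : ℕ → List Bool → ℤ) (L : List ℕ) (h : H) :
    L.foldl (fun h j => Dj σ j h) h = FL σ L h := by
  induction L generalizing h with
  | nil => rfl
  | cons j L ih =>
    rw [List.foldl_cons, ih]
    rfl

/-- the weight of a list -/
def sL : List ℕ → ℕ
  | [] => 0
  | j :: L => sL L + (2 * (j + 1) + 1)

theorem gr_FL (hDER : SpecDER) (σ : ℕ → List Bool → ℤ) (L : List ℕ) (m : ℕ) (h : H) :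
    Mot.gr m (FL σ L h) = FL σ L (Mot.gr (m + sL L) h) := by
  induction L generalizing h with
  | nil => rfl
  | cons j L ih =>
    show Mot.gr m (FL σ L (Dj σ j h)) = FL σ L (Dj σ j (Mot.gr (m + sL (j :: L)) h))
    rw [ih]
    unfold Dj
    rw [hDER.gr]
    have e : m + sL L + (2 * (j + 1) + 1) = m + sL (j :: L) := by
      show m + sL L + (2 * (j + 1) + 1) = m + (sL L + (2 * (j + 1) + 1))
      omega
    rw [e]

theorem FL_nil (hDER : SpecDER) (σ : ℕ → List Bool → ℤ) (L : List ℕ) (h : H) :
    (FL σ L h) [] = (FL σ L (Mot.gr (sL L) h)) [] := by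
  have h1 := gr_FL hDER σ L 0 h
  rw [Nat.zero_add] at h1
  rw [← h1, gr_coeff]
  simp

/-- the hypothesis of CRI -/
def Van (σ : ℕ → List Bool → ℤ) (ξ : H) : Prop := ∀ L : List ℕ, (FL σ L ξ) [] = 0

theorem Van.gr (hDER : SpecDER) {σ : ℕ → List Bool → ℤ} {ξ : H} (h : Van σ ξ) (p : ℕ) :
    Van σ (Mot.gr p ξ) := by
  intro L
  rw [FL_nil hDER, gr_gr]
  split_ifs with hp
  · rw [← hp, ← FL_nil hDER]
    exact h L
  · rw [map_zero]; rfl

theorem Van.D {σ : ℕ → List Bool → ℤ} {ξ : H} (h : Van σ ξ) (j : ℕ) : Van σ (Dj σ j ξ) :=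
  fun L => h (j :: L)

/-! ### multiplication by `xy` -/

/-- the word `xy` -/
noncomputable def xy : H := wd [false, true]

theorem shuffle_add_right (a b c : H) : shuffle a (b + c) = shuffle a b + shuffle a c := by
  rw [specAlg.comm, specAlg.add, specAlg.comm b, specAlg.comm c]

theorem shuffle_smul_right (r : ℚ) (a b : H) : shuffle a (r • b) = r • shuffle a b := by
  rw [specAlg.comm, specAlg.smul, specAlg.comm b]

theorem shuffle_sub_right (a b c : H) : shuffle a (b - c) = shuffle a b - shuffle a c := by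
  have h : b - c = b + (-1 : ℚ) • c := by rw [neg_one_smul, sub_eq_add_neg]
  rw [h, shuffle_add_right, shuffle_smul_right, neg_one_smul, sub_eq_add_neg]

theorem shuffle_zero_right (a : H) : shuffle a 0 = 0 := by
  have := shuffle_smul_right 0 a 0
  rwa [zero_smul, zero_smul] at this

theorem zeta2_iff (z : H) (hz : z ∈ zeta2) : ∃ g, z = shuffle xy g := by
  unfold zeta2 at hz
  induction hz using Submodule.span_induction with
  | mem x hx => exact hx
  | zero => exact ⟨0, (shuffle_zero_right _).symm⟩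
  | add x y _ _ hx hy =>
    obtain ⟨g, rfl⟩ := hx
    obtain ⟨g', rfl⟩ := hy
    exact ⟨g + g', (shuffle_add_right _ _ _).symm⟩
  | smul r x _ hx =>
    obtain ⟨g, rfl⟩ := hx
    exact ⟨r • g, (shuffle_smul_right _ _ _).symm⟩

theorem mem_zeta2 (g : H) : shuffle xy g ∈ zeta2 := Submodule.subset_span ⟨g, rfl⟩

theorem gr_xy (p : ℕ) (g : H) : Mot.gr p (shuffle xy g) =
    if 2 ≤ p then shuffle xy (Mot.gr (p - 2) g) else 0 := gr_wd_shuffle p [false, true] g

theorem hom_xy (p : ℕ) (g : H) (hg : Hom p g) : Hom (p + 2) (shuffle xy g) := by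
  unfold Hom
  rw [gr_xy, if_pos (by omega), Nat.add_sub_cancel, show Mot.gr p g = g from hg]

theorem D_hom {n : ℕ} {ψ : List Bool → ℤ} (hDER : SpecDER) {N : ℕ} {h : H} (hh : Hom N h)
    (hn : n ≤ N) : Hom (N - n) (Dw n ψ h) := by
  unfold Hom
  rw [hDER.gr, Nat.sub_add_cancel hn, show Mot.gr N h = h from hh]

theorem D_low {n : ℕ} {ψ : List Bool → ℤ} (hDER : SpecDER) {N : ℕ} {h : H} (hh : Hom N h)
    (hn : N < n) : Dw n ψ h = 0 := by
  rw [← show Mot.gr N h = h from hh]
  exact hDER.low n ψ N h hn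

theorem kp_of {σ : ℕ → List Bool → ℤ} (hσ : Fam σ) (j : ℕ) : Kp (2 * (j + 1) + 1) (σ j) :=
  ⟨by omega, (hσ j).1.sh⟩

theorem xy_hom : Hom 2 xy := by
  unfold Hom xy
  rw [SEPM.gr_wd]
  simp

theorem D_xy (hDER : SpecDER) {σ : ℕ → List Bool → ℤ} (hσ : Fam σ) (j : ℕ) (g : H) :
    Dj σ j (shuffle xy g) = shuffle xy (Dj σ j g) := by
  unfold Dj
  rw [hDER.der _ _ (kp_of hσ j), D_low hDER xy_hom (by omega), specAlg.comm 0, shuffle_zero_right,
    zero_add]

/-- the powers of `xy` -/
noncomputable def zpw : ℕ → H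
  | 0 => wd []
  | m + 1 => shuffle xy (zpw m)

theorem zpw_hom (m : ℕ) : Hom (2 * m) (zpw m) := by
  induction m with
  | zero =>
    unfold Hom zpw
    rw [SEPM.gr_wd]
    simp
  | succ m ih => exact hom_xy _ _ ih

theorem zpw_D (hDER : SpecDER) {σ : ℕ → List Bool → ℤ} (hσ : Fam σ) (j m : ℕ) :
    Dj σ j (zpw m) = 0 := by
  induction m with
  | zero => exact D_low hDER (zpw_hom 0) (by omega)
  | succ m ih =>
    show Dj σ j (shuffle xy (zpw m)) = 0
    rw [D_xy hDER hσ, ih, shuffle_zero_right]

theorem zpw_P {P : H →ₗ[ℚ] ℝ} (hP : IsPer P) (m : ℕ) : 0 < P (zpw m) := by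
  have h1 : ∀ m, P (wd (zp m)) = zeta (List.replicate m 2) := by
    intro m
    rw [hP.adm _ (PiW.adm_zp m), SEPM.Z_wd, PiW.zw_zp]
  induction m with
  | zero =>
    have := h1 0
    show 0 < P (wd (zp 0))
    rw [this]
    exact PiW.zeta_pos 0
  | succ m ih =>
    show 0 < P (shuffle xy (zpw m))
    rw [hP.mul]
    refine mul_pos ?_ ih
    show 0 < P (wd (zp 1))
    rw [h1 1]
    exact PiW.zeta_pos 1

theorem hom_sub {N : ℕ} {a b : H} (ha : Hom N a) (hb : Hom N b) : Hom N (a - b) := by
  unfold Hom at *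
  rw [map_sub, ha, hb]

theorem hom_smul {N : ℕ} {a : H} (r : ℚ) (ha : Hom N a) : Hom N (r • a) := by
  unfold Hom at *
  rw [map_smul, ha]

/-- CRI for homogeneous elements -/
theorem main (hSUR : SpecSUR) (hSEP : SpecSEP) (hDER : SpecDER) (hRIB : SpecRIB)
    {P : H →ₗ[ℚ] ℝ} (hP : IsPer P) {σ : ℕ → List Bool → ℤ} (hσ : Fam σ) (N : ℕ) :
    ∀ ξ : H, Hom N ξ → Van σ ξ → ξ ∈ RI ⊔ zeta2 := by
  induction N using Nat.strong_induction_on with
  | _ N ih =>
    intro ξ hξ hv
    rcases Nat.eq_zero_or_pos N with rfl | hN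
    · -- weight zero
      have h0 : ξ = 0 := by
        apply Finsupp.ext
        intro w
        rw [← show Mot.gr 0 ξ = ξ from hξ, gr_coeff]
        split_ifs with hw
        · rw [List.length_eq_zero_iff.1 hw]
          exact hv []
        · rfl
      rw [h0]
      exact Submodule.zero_mem _
    -- the decomposition of `D_j ξ`
    have hlow : ∀ j, N < 2 * (j + 1) + 1 → Dj σ j ξ ∈ RI := by
      intro j hj
      rw [show Dj σ j ξ = 0 from D_low hDER hξ hj]
      exact RI.zero_mem
    have hmid : ∀ j, 2 * (j + 1) + 1 ≤ N → ∃ g : H,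
        Dj σ j ξ - (if 2 ≤ N - (2 * (j + 1) + 1) then
          shuffle xy (Mot.gr (N - (2 * (j + 1) + 1) - 2) g) else 0) ∈ RI := by
      intro j hj
      have h1 := ih (N - (2 * (j + 1) + 1)) (by omega) (Dj σ j ξ) (D_hom hDER hξ hj) (hv.D j)
      obtain ⟨r, hr, z, hz, hrz⟩ := Submodule.mem_sup.1 h1
      obtain ⟨g, rfl⟩ := zeta2_iff z hz
      refine ⟨g, ?_⟩
      have h2 : Dj σ j ξ = Mot.gr (N - (2 * (j + 1) + 1)) (r + shuffle xy g) := by
        rw [hrz]
        exact (D_hom hDER hξ hj).symm
      rw [h2, map_add, gr_xy]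
      have h3 : ∀ a b : H, a + b - b = a := fun a b => add_sub_cancel_right a b
      rw [h3]
      exact hRIB.gr r hr _
    -- the reduction to `D_j ξ' ∈ R`
    obtain ⟨ξ', hξ', hD', hdiff⟩ : ∃ ξ', Hom N ξ' ∧ (∀ j, Dj σ j ξ' ∈ RI) ∧ ξ - ξ' ∈ zeta2 := by
      by_cases hN2 : N < 2
      · refine ⟨ξ, hξ, fun j => hlow j (by omega), ?_⟩
        rw [sub_self]
        exact Submodule.zero_mem _
      have hex : ∀ j, ∃ g : H, 2 * (j + 1) + 1 ≤ N →
        Dj σ j ξ - (if 2 ≤ N - (2 * (j + 1) + 1) then
          shuffle xy (Mot.gr (N - (2 * (j + 1) + 1) - 2) g) else 0) ∈ RI := by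
        intro j
        by_cases hj : 2 * (j + 1) + 1 ≤ N
        · obtain ⟨g, hg⟩ := hmid j hj
          exact ⟨g, fun _ => hg⟩
        · exact ⟨0, fun h => absurd h hj⟩
      choose η hη using hex
      obtain ⟨θ, hθ, hθD⟩ := hSUR σ hσ (N - 2) η
      refine ⟨ξ - shuffle xy θ, ?_, ?_, ?_⟩
      · refine hom_sub hξ ?_
        have := hom_xy (N - 2) θ hθ
        rwa [Nat.sub_add_cancel (by omega)] at this
      · intro j
        rw [map_sub, D_xy hDER hσ]
        by_cases hj2 : 2 * (j + 1) + 1 ≤ N - 2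
        · have h1 := hη j (by omega)
          rw [if_pos (by omega)] at h1
          have h2 := hθD j hj2
          have h3 := hRIB.ideal _ h2 xy
          rw [specAlg.comm, shuffle_sub_right] at h3
          have e : N - (2 * (j + 1) + 1) - 2 = N - 2 - (2 * (j + 1) + 1) := by omega
          rw [e] at h1
          have h4 := RI.sub_mem h1 h3
          have h5 : ∀ a b c : H, a - b - (c - b) = a - c := fun a b c => by abel
          rw [h5] at h4
          exact h4
        · have h2 : Dj σ j θ = 0 := D_low hDER hθ (by omega)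
          rw [h2, shuffle_zero_right, sub_zero]
          by_cases hj : 2 * (j + 1) + 1 ≤ N
          · have h1 := hη j hj
            rw [if_neg (by omega), sub_zero] at h1
            exact h1
          · exact hlow j (by omega)
      · have : ξ - (ξ - shuffle xy θ) = shuffle xy θ := by abel
        rw [this]
        exact mem_zeta2 θ
    have hfin : ξ' ∈ RI ⊔ zeta2 := by
      rcases Nat.even_or_odd' N with ⟨m, hm | hm⟩
      · -- even weight
        obtain ⟨μ, hμ⟩ := SEPM.exists_mu hP m
        have hφR : ∀ h ∈ RI, (μ ∘ₗ P) h = 0 := fun h hh => by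
          rw [LinearMap.comp_apply, hRIB.per P hP h hh, map_zero]
        have hφz : (μ ∘ₗ P) (zpw m) ≠ 0 := by
          intro h0
          have h1 := (hSEP σ hσ (2 * m) (zpw m) (zpw_hom m) (fun j => by
            rw [zpw_D hDER hσ]; exact RI.zero_mem)).2 m rfl (μ ∘ₗ P) hφR hμ h0
          exact (zpw_P hP m).ne' (hRIB.per P hP _ h1)
        set r : ℚ := (μ ∘ₗ P) ξ' / (μ ∘ₗ P) (zpw m) with hr
        have h1 := (hSEP σ hσ N (ξ' - r • zpw m) (hom_sub hξ' (hom_smul r (by
          rw [hm]; exact zpw_hom m))) (fun j => by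
            rw [map_sub, map_smul, zpw_D hDER hσ, smul_zero, sub_zero]
            exact hD' j)).2 m hm (μ ∘ₗ P) hφR hμ (by
            rw [map_sub, map_smul, hr, smul_eq_mul, div_mul_cancel₀ _ hφz, sub_self])
        have h2 : zpw m ∈ zeta2 := by
          obtain ⟨k, rfl⟩ : ∃ k, m = k + 1 := ⟨m - 1, by omega⟩
          exact mem_zeta2 _
        have h3 : ξ' = (ξ' - r • zpw m) + r • zpw m := by abel
        rw [h3]
        exact Submodule.add_mem _ (Submodule.mem_sup_left h1)
          (Submodule.mem_sup_right (Submodule.smul_mem _ _ h2))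
      · exact Submodule.mem_sup_left ((hSEP σ hσ N ξ' hξ' hD').1 (by omega))
    have h3 : ξ = (ξ - ξ') + ξ' := by abel
    rw [h3]
    exact Submodule.add_mem _ (Submodule.mem_sup_right hdiff) hfin

end MP154526.Mot.CRIM

namespace MP154526.Mot

open Finset MP154526.Bound MP154526.Top MP154526.Top.Pass2 MP154526.Lin MP154526.Low

theorem specCRI (hSUR : SpecSUR) (hSEP : SpecSEP) (hDER : SpecDER) (hRIB : SpecRIB)
    (hPER : SpecPER) : SpecCRI := by
  intro σ hσ ξ hξ
  obtain ⟨P, hP, -⟩ := hPER
  have hv : CRIM.Van σ ξ := by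
    intro L
    rw [← CRIM.foldl_eq]
    exact hξ L
  exact CRIM.mem_of_gr _ ξ fun p =>
    CRIM.main hSUR hSEP hDER hRIB hP hσ p _ (CRIM.gr_hom p ξ) (hv.gr hDER p)

end MP154526.Mot
end

section
/-!
# DER: elementary properties of the operators `D_ψ`
-/
set_option autoImplicit false

namespace MP154526.Mot.DERM

open Finset MP154526.Bound MP154526.Top MP154526.Top.Pass2 MP154526.Lin
  MP154526.Low

section lin

variable {K M M' : Type} [CommRing K] [AddCommGroup M] [Module K M] [AddCommGroup M'] [Module K M']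

theorem hd_map (L : M →ₗ[K] M') (n : ℕ) (ψ : List Bool → K) (c : Bool) (φ : List Bool → M)
    (w : List Bool) : hd n ψ c (fun v => L (φ v)) w = L (hd n ψ c φ w) := by
  unfold hd
  split_ifs <;> simp

theorem TT_map (n : ℕ) (ψ : List Bool → K) (L : M →ₗ[K] M') : ∀ (w : List Bool) (c : Bool)
    (φ : List Bool → M), TT n ψ c (fun v => L (φ v)) w = L (TT n ψ c φ w) := by
  intro w
  induction w with
  | nil =>
    intro c φ
    rw [TT, TT, hd_map]
  | cons a w ih =>
    intro c φ
    rw [TT, TT, hd_map, map_add]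
    rw [ih a (fun v => φ (a :: v))]

theorem T_map (n : ℕ) (ψ : List Bool → K) (L : M →ₗ[K] M') (φ : List Bool → M) (w : List Bool) :
    T n ψ (fun v => L (φ v)) w = L (T n ψ φ w) := TT_map n ψ L w true φ

theorem hd_congr (n : ℕ) (ψ : List Bool → K) (c : Bool) (φ φ' : List Bool → M) (w : List Bool)
    (h : ∀ v : List Bool, v.length + n = w.length → φ v = φ' v) : hd n ψ c φ w = hd n ψ c φ' w := by
  unfold hd
  split_ifs with h1
  all_goals try rfl
  all_goals
    rw [h (w.drop n) (by rw [List.length_drop]; omega)]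

theorem TT_congr (n : ℕ) (ψ : List Bool → K) : ∀ (w : List Bool) (c : Bool)
    (φ φ' : List Bool → M), (∀ v : List Bool, v.length + n = w.length → φ v = φ' v) →
    TT n ψ c φ w = TT n ψ c φ' w := by
  intro w
  induction w with
  | nil =>
    intro c φ φ' h
    rw [TT, TT]
    exact hd_congr n ψ c φ φ' [] h
  | cons a w ih =>
    intro c φ φ' h
    rw [TT, TT, hd_congr n ψ c φ φ' (a :: w) h]
    congr 1
    apply ih a
    intro v hv
    apply h
    simp only [List.length_cons]
    omega

theorem T_congr (n : ℕ) (ψ : List Bool → K) (w : List Bool) (φ φ' : List Bool → M)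
    (h : ∀ v : List Bool, v.length + n = w.length → φ v = φ' v) : T n ψ φ w = T n ψ φ' w :=
  TT_congr n ψ w true φ φ' h

theorem T_zero (n : ℕ) (ψ : List Bool → K) (w : List Bool) :
    T n ψ (fun _ => (0 : M)) w = 0 := by
  have := T_map n ψ (0 : M →ₗ[K] M) (fun _ => (0 : M)) w
  simpa using this

theorem T_eq_zero (n : ℕ) (ψ : List Bool → K) (w : List Bool) (φ : List Bool → M)
    (h : ∀ v : List Bool, v.length + n = w.length → φ v = 0) : T n ψ φ w = 0 := by
  rw [T_congr n ψ w φ (fun _ => 0) h, T_zero]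

theorem TT_short (n : ℕ) (ψ : List Bool → K) (w : List Bool) (c : Bool) (φ : List Bool → M)
    (h : w.length < n) : TT n ψ c φ w = 0 := by
  have h1 := TT_congr n ψ w c φ (fun v => (0 : M →ₗ[K] M) (φ v)) (by intro v hv; omega)
  rw [h1, TT_map]
  rfl

theorem T_top (n : ℕ) (ψ : List Bool → K) (hn : 1 ≤ n) (w : List Bool) (φ : List Bool → M)
    (hw : w.length = n) : T n ψ φ w = ψ w • φ [] := by
  cases w with
  | nil => simp at hw; omega
  | cons a w =>
    rw [T, TT, TT_short n ψ w a _ (by simp only [List.length_cons] at hw; omega), add_zero]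
    unfold hd
    rw [if_pos (by omega)]
    have h1 : (a :: w).drop n = [] := by
      apply List.drop_eq_nil_of_le
      omega
    have h2 : (a :: w).take n = a :: w := List.take_of_length_le (by omega)
    rw [h1, h2]
    simp

theorem TT_xy (n : ℕ) (ψ : List Bool → K) (hn : 1 ≤ n) (h0 : ψ (List.replicate n false) = 0)
    (k : ℕ) (φ : List Bool → M) :
    TT n ψ false φ (List.replicate k false ++ [true]) = 0 := by
  have key : ∀ k (φ : List Bool → M), hd n ψ false φ (List.replicate k false ++ [true]) = 0 := by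
    intro k φ
    unfold hd
    split_ifs with h1
    rotate_left
    all_goals try rfl
    all_goals
      rcases Nat.lt_or_ge k n with h2 | h2
      · have h3 : n = k + 1 := by
          rw [List.length_append, List.length_replicate, List.length_singleton] at h1
          omega
        subst h3
        have : List.drop (k + 1) (List.replicate k false ++ [true]) = [] := by
          apply List.drop_eq_nil_of_le
          simp
        simp_all
      · have : List.take n (List.replicate k false ++ [true]) = List.replicate n false := by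
          rw [List.take_append_of_le_length (by simpa using h2), List.take_replicate,
            Nat.min_eq_left h2]
        rw [this, h0]
        simp
  induction k generalizing φ with
  | zero =>
    have h1 := key 0 φ
    rw [List.replicate_zero, List.nil_append] at h1 ⊢
    rw [TT, h1, zero_add, TT, hd, if_neg]
    simp
    omega
  | succ k ih =>
    have h1 := key (k + 1) φ
    rw [List.replicate_succ, List.cons_append] at h1 ⊢
    rw [TT, h1, zero_add, ih]

theorem T_xy (n : ℕ) (ψ : List Bool → K) (hn : 1 ≤ n) (h0 : ψ (List.replicate n false) = 0)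
    (k : ℕ) (hk : n ≤ k) (φ : List Bool → M) :
    T n ψ φ (List.replicate k false ++ [true]) = 0 := by
  obtain ⟨k, rfl⟩ : ∃ m, k = m + 1 := ⟨k - 1, by omega⟩
  have h3 : List.take n (List.replicate (k + 1) false ++ [true]) = List.replicate n false := by
    rw [List.take_append_of_le_length (by simpa using hk), List.take_replicate,
      Nat.min_eq_left hk]
  have h4 : hd n ψ true φ (List.replicate (k + 1) false ++ [true]) = 0 := by
    unfold hd
    rw [h3, h0]
    simp
  rw [List.replicate_succ, List.cons_append] at h4 ⊢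
  rw [T, TT, h4, zero_add, TT_xy n ψ hn h0]

end lin

theorem Dw_wd (n : ℕ) (ψ : List Bool → ℤ) (w : List Bool) :
    Dw n ψ (wd w) = T n (fun u => (ψ u : ℚ)) wd w := by
  simp [Dw, wd]

theorem gr_wd (p : ℕ) (w : List Bool) : Mot.gr p (wd w) = if w.length = p then wd w else 0 := by
  simp [Mot.gr, wd]

theorem fn_wd (n : ℕ) (ψ : List Bool → ℤ) (w : List Bool) :
    fn n ψ (wd w) = if w.length = n then (ψ w : ℚ) else 0 := by
  simp [fn, wd]

theorem shs_cast (ψ : List Bool → ℤ) (u v : List Bool) :
    shs (fun w => (ψ w : ℚ)) u v = ((shs ψ u v : ℤ) : ℚ) :=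
  (shs_map (Int.castAddHom ℚ) ψ u v).symm

theorem Dw_sh (n : ℕ) (ψ : List Bool → ℤ) (hK : Kp n ψ) (u v : List Bool) :
    Dw n ψ (sh u v) = shuffle (Dw n ψ (wd u)) (wd v) + shuffle (wd u) (Dw n ψ (wd v)) := by
  have h1 := map_sh (Dw n ψ : H →+ H) u v
  have e : Dw n ψ (sh u v) = shs (fun l => Dw n ψ (wd l)) u v := h1
  have h2 : (fun l => Dw n ψ (wd l)) = T n (fun u => (ψ u : ℚ)) wd := funext (Dw_wd n ψ)
  have h3 : ∀ u v : List Bool, shs (fun l => wd l) u v = sh u v := fun u v =>
    (map_sh (AddMonoidHom.id H) u v).symm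
  rw [e, h2, specShW ℚ H n (fun u => (ψ u : ℚ)) hK.1 (by
    intro u v hu hv huv
    rw [shs_cast, hK.2 u v hu hv huv, Int.cast_zero]) wd u v]
  congr 1
  · have h4 : (fun s => shs wd s v) = fun s => (Alg.S.flip (wd v)) (wd s) := by
      funext s
      rw [LinearMap.flip_apply, Alg.S_apply, Alg.shuffle_wd]
      exact h3 s v
    rw [h4, T_map, Dw_wd]
    rfl
  · have h4 : (fun s => shs wd u s) = fun s => (Alg.S (wd u)) (wd s) := by
      funext s
      rw [Alg.S_apply, Alg.shuffle_wd]
      exact h3 u s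
    rw [h4, T_map, Dw_wd]
    rfl

/-- a linear map which is a derivation on words is a derivation -/
theorem leib (d : H →ₗ[ℚ] H) (hd : ∀ u v : List Bool,
    d (sh u v) = shuffle (d (wd u)) (wd v) + shuffle (wd u) (d (wd v))) (a b : H) :
    d (shuffle a b) = shuffle (d a) b + shuffle a (d b) := by
  have key : Alg.S.compr₂ d = Alg.S.comp d + Alg.S.compl₂ d := by
    refine Alg.ext_wd fun u => Alg.ext_wd fun v => ?_
    simp only [LinearMap.compr₂_apply, LinearMap.add_apply, LinearMap.comp_apply,
      LinearMap.compl₂_apply, Alg.S_apply, Alg.shuffle_wd]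
    exact hd u v
  have := congrArg (fun f => f a b) key
  simpa only [LinearMap.compr₂_apply, LinearMap.add_apply, LinearMap.comp_apply,
    LinearMap.compl₂_apply, Alg.S_apply] using this

theorem psi_rep (n : ℕ) (ψ : List Bool → ℤ) (hK : Kp n ψ) (hn : 2 ≤ n) :
    ψ (List.replicate n false) = 0 := by
  have h1 := hK.2 [false] (List.replicate (n - 1) false) (by simp) (by
    intro h
    have := congrArg List.length h
    simp at this
    omega) (by simp; omega)
  have h2 := F2.shs_replicate false 1 (n - 1) ψ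
  rw [List.replicate_one, h1, show 1 + (n - 1) = n by omega, Nat.choose_one_right] at h2
  rw [nsmul_eq_mul] at h2
  rcases mul_eq_zero.1 h2.symm with h | h
  · have : n = 0 := by exact_mod_cast h
    omega
  · exact h

end MP154526.Mot.DERM

namespace MP154526.Mot

open Finset MP154526.Bound MP154526.Top MP154526.Top.Pass2 MP154526.Lin
  MP154526.Low DERM

/-- DER -/
theorem specDER : SpecDER where
  der := fun n ψ hK a b => leib (Dw n ψ) (Dw_sh n ψ hK) a b
  gr := by
    intro n ψ m h
    have key : Mot.gr m ∘ₗ Dw n ψ = Dw n ψ ∘ₗ Mot.gr (m + n) := by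
      refine Alg.ext_wd fun w => ?_
      rw [LinearMap.comp_apply, LinearMap.comp_apply, Dw_wd, gr_wd, ← T_map]
      by_cases hw : w.length = m + n
      · rw [if_pos hw, Dw_wd]
        apply T_congr
        intro v hv
        rw [gr_wd, if_pos (by omega)]
      · rw [if_neg hw, map_zero]
        apply T_eq_zero
        intro v hv
        rw [gr_wd, if_neg (by omega)]
    exact LinearMap.congr_fun key h
  low := by
    intro n ψ m h hm
    have key : Dw n ψ ∘ₗ Mot.gr m = 0 := by
      refine Alg.ext_wd fun w => ?_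
      rw [LinearMap.comp_apply, LinearMap.zero_apply, gr_wd]
      split_ifs with hw
      · rw [Dw_wd]
        apply T_eq_zero
        intro v hv
        omega
      · rw [map_zero]
    exact LinearMap.congr_fun key h
  zk := by
    intro n ψ hK hn k hk
    rw [Dw_wd]
    apply T_xy n _ hK.1 _ k hk
    rw [psi_rep n ψ hK hn, Int.cast_zero]
  top := by
    intro n ψ hn h
    have key : Dw n ψ ∘ₗ Mot.gr n = (fn n ψ).smulRight (wd []) := by
      refine Alg.ext_wd fun w => ?_
      rw [LinearMap.comp_apply, LinearMap.smulRight_apply, gr_wd, fn_wd]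
      split_ifs with hw
      · rw [Dw_wd, T_top n _ hn w _ hw]
      · rw [map_zero, zero_smul]
    exact LinearMap.congr_fun key h

end MP154526.Mot
end

section
/-!
# DIM: the dimensions of the words modulo the ideal
-/
set_option autoImplicit false

namespace MP154526.Mot.DIMM

open Finset MP154526.Bound MP154526.Top MP154526.Top.Pass2 MP154526.Lin MP154526.Low

theorem gr_wd (p : ℕ) (w : List Bool) : Mot.gr p (wd w) = if w.length = p then wd w else 0 := by
  simp [Mot.gr, wd]

theorem gr_gr (p : ℕ) (h : H) : Mot.gr p (Mot.gr p h) = Mot.gr p h := by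
  have key : Mot.gr p ∘ₗ Mot.gr p = Mot.gr p := by
    refine Alg.ext_wd fun w => ?_
    rw [LinearMap.comp_apply, gr_wd]
    split_ifs with hw
    · rw [gr_wd, if_pos hw]
    · rw [map_zero]
  exact LinearMap.congr_fun key h

theorem gr_H0 {p : ℕ} {h : H} (hh : h ∈ H0 p) : Mot.gr p h = h := by
  rw [H0] at hh
  induction hh using Submodule.span_induction with
  | mem x hx =>
    obtain ⟨w, _, hw, rfl⟩ := hx
    rw [gr_wd, if_pos hw]
  | zero => rw [map_zero]
  | add x y _ _ h1 h2 => rw [map_add, h1, h2]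
  | smul r x _ h => rw [map_smul, h]

theorem hom_of_range {p : ℕ} {h : H} (hh : h ∈ LinearMap.range (Mot.gr p)) : Hom p h := by
  obtain ⟨g, rfl⟩ := hh
  exact gr_gr p g

theorem range_of_hom {p : ℕ} {h : H} (hh : Hom p h) : h ∈ LinearMap.range (Mot.gr p) := ⟨h, hh⟩

theorem finite_range (N : ℕ) : Module.Finite ℚ (LinearMap.range (Mot.gr N)) := by
  have hfin : {w : List Bool | w.length = N}.Finite := List.finite_length_eq Bool N
  have hle : LinearMap.range (Mot.gr N) ≤ Submodule.span ℚ (wd '' {w : List Bool | w.length = N}) := by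
    rintro _ ⟨h, rfl⟩
    induction h using Finsupp.induction_linear with
    | zero => rw [map_zero]; exact Submodule.zero_mem _
    | add f g hf hg => rw [map_add]; exact Submodule.add_mem _ hf hg
    | single w c =>
      have e : (Finsupp.single w c : H) = c • wd w := by simp [wd]
      rw [e, map_smul, gr_wd]
      apply Submodule.smul_mem
      split_ifs with hw
      · exact Submodule.subset_span ⟨w, hw, rfl⟩
      · exact Submodule.zero_mem _
  have : Module.Finite ℚ (Submodule.span ℚ (wd '' {w : List Bool | w.length = N})) :=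
    Module.Finite.span_of_finite ℚ (hfin.image _)
  exact Submodule.finiteDimensional_of_le hle

end MP154526.Mot.DIMM

namespace MP154526.Mot

open Finset MP154526.Bound MP154526.Top MP154526.Top.Pass2 MP154526.Lin MP154526.Low DIMM

/-- DIM -/
theorem specDIM (hEx : SpecExact) (hRIB : SpecRIB) : SpecDIM := by
  intro N
  have hle : H0 N ≤ LinearMap.range (Mot.gr N) := fun h hh => range_of_hom (gr_H0 hh)
  let f : H0 N →ₗ[ℚ] (LinearMap.range (Mot.gr N) ⧸ RI.comap (LinearMap.range (Mot.gr N)).subtype) :=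
    (Submodule.mkQ _) ∘ₗ (Submodule.inclusion hle)
  have hker : LinearMap.ker f = (Submodule.span ℚ (RDS N)).comap (H0 N).subtype := by
    ext x
    rw [LinearMap.mem_ker, LinearMap.comp_apply, Submodule.mkQ_apply, Submodule.Quotient.mk_eq_zero,
      Submodule.mem_comap, Submodule.mem_comap]
    exact hRIB.h0 N x.1 x.2
  have hsurj : Function.Surjective f := by
    intro y
    obtain ⟨⟨h, hh⟩, rfl⟩ := Submodule.mkQ_surjective _ y
    obtain ⟨h₀, h1, h2⟩ := hRIB.h0ex N h (hom_of_range hh)
    refine ⟨⟨h₀, h1⟩, ?_⟩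
    rw [LinearMap.comp_apply, Submodule.mkQ_apply, Submodule.mkQ_apply, Submodule.Quotient.eq,
      Submodule.mem_comap]
    have : h₀ - h ∈ RI := by
      rw [← neg_sub]
      exact Submodule.neg_mem _ h2
    exact this
  have e := (f.quotKerEquivOfSurjective hsurj).finrank_eq
  rw [← e, ← hEx.codim N, hker]

end MP154526.Mot
end

section
/-!
# FIN: the result from the modules
-/
set_option autoImplicit false

namespace MP154526.Mot

open Finset MP154526.Bound MP154526.Top MP154526.Top.Pass2 MP154526.Lin MP154526.Low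
open scoped TensorProduct

namespace FINM

theorem gr_wd (p : ℕ) (w : List Bool) : gr p (wd w) = if w.length = p then wd w else 0 := by
  unfold gr
  unfold wd
  rw [Finsupp.linearCombination_single, one_smul]

theorem single_eq (w : List Bool) (a : ℚ) : (Finsupp.single w a : H) = a • wd w := by
  rw [wd, Finsupp.smul_single, smul_eq_mul, mul_one]

/-- a sum of its parts -/
theorem sum_gr (h : H) : ∃ M : ℕ, ∀ N, M ≤ N → ∑ p ∈ range N, gr p h = h := by
  induction h using Finsupp.induction_linear with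
  | zero => exact ⟨0, fun N _ => by simp⟩
  | add f g hf hg =>
    obtain ⟨M, hM⟩ := hf
    obtain ⟨M', hM'⟩ := hg
    refine ⟨max M M', fun N hN => ?_⟩
    simp only [map_add, Finset.sum_add_distrib]
    rw [hM N (le_trans (le_max_left _ _) hN), hM' N (le_trans (le_max_right _ _) hN)]
  | single w a =>
    refine ⟨w.length + 1, fun N hN => ?_⟩
    simp only [single_eq, map_smul, gr_wd]
    rw [Finset.sum_eq_single w.length]
    · rw [if_pos rfl]
    · intro b _ hb
      rw [if_neg (Ne.symm hb), smul_zero]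
    · intro h
      exact absurd (Finset.mem_range.2 (by omega)) h

theorem mem_of_gr (J : Submodule ℚ H) (h : H) (hg : ∀ p, gr p h ∈ J) : h ∈ J := by
  obtain ⟨M, hM⟩ := sum_gr h
  rw [← hM M le_rfl]
  exact Submodule.sum_mem _ fun p _ => hg p

/-- `P = Z` on `ℌ⁰_p` -/
theorem per_h0 {P : H →ₗ[ℚ] ℝ} (hP : IsPer P) (p : ℕ) (h : H) (hh : h ∈ H0 p) : P h = Z h := by
  rw [H0] at hh
  induction hh using Submodule.span_induction with
  | mem x hx =>
    obtain ⟨w, hw, _, rfl⟩ := hx
    exact hP.adm w hw
  | zero => rw [map_zero, map_zero]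
  | add x y _ _ h1 h2 => rw [map_add, map_add, h1, h2]
  | smul a x _ h => rw [map_smul, map_smul, h]

/-- the parts of elements of `ℌ⁰_p` -/
theorem gr_h0 (p q : ℕ) (h : H) (hh : h ∈ H0 p) : gr q h = if p = q then h else 0 := by
  rw [H0] at hh
  induction hh using Submodule.span_induction with
  | mem x hx =>
    obtain ⟨w, _, hl, rfl⟩ := hx
    rw [gr_wd, hl]
  | zero => rw [map_zero, ite_self]
  | add x y _ _ h1 h2 =>
    rw [map_add, h1, h2]
    split_ifs
    · rfl
    · rw [add_zero]
  | smul a x _ h =>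
    rw [map_smul, h]
    split_ifs
    · rfl
    · rw [smul_zero]

theorem mem_grKer {P : H →ₗ[ℚ] ℝ} {h : H} : h ∈ grKer P ↔ ∀ p, P (gr p h) = 0 := by
  unfold grKer
  rw [Submodule.mem_iInf]
  rfl

theorem weak_of_motivic (hKIL : SpecKIL) {P : H →ₗ[ℚ] ℝ} {J : Submodule ℚ H}
    (h : Motivic P J) : Weak P J where
  graded := h.graded
  per := h.per
  stable := fun x hx => by
    have h1 : tens (J ⊔ zeta2) ⊤ ≤ tens (J ⊔ dec) ⊤ := by
      refine Submodule.span_mono ?_
      rintro z ⟨a, ha, b, hb, rfl⟩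
      exact ⟨a, (sup_le_sup (le_refl J) hKIL.zd) ha, b, hb, rfl⟩
    exact (sup_le_sup h1 (le_refl (tens ⊤ J))) (h.stable x hx)

end FINM

open FINM in
/-- FIN -/
theorem specFIN (hPER : SpecPER) (hRIB : SpecRIB) (hKIL : SpecKIL) (hSTA : SpecSTA)
    (hMAX : SpecMAX) : SpecFIN := by
  obtain ⟨P, hP, hu⟩ := hPER
  have hle : RI ≤ grKer P := fun h hh => mem_grKer.2 fun p => hRIB.per P hP _ (hRIB.gr h hh p)
  have h1 : (∀ p, ∀ h ∈ H0 p, Z h = 0 → h ∈ Submodule.span ℚ (RDS p)) → grKer P = RI := by
    intro hQ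
    refine le_antisymm (fun h hh => mem_of_gr RI h fun p => ?_) hle
    have hg : Hom p (gr p h) := by
      unfold Hom
      have : ∀ h : H, gr p (gr p h) = gr p h := by
        intro h
        induction h using Finsupp.induction_linear with
        | zero => simp
        | add f g hf hg => rw [map_add, map_add, hf, hg]
        | single w a =>
          rw [single_eq, map_smul, map_smul, gr_wd]
          split_ifs with hw
          · rw [gr_wd, if_pos hw]
          · rw [map_zero]
      exact this h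
    obtain ⟨h₀, hh₀, hr⟩ := hRIB.h0ex p _ hg
    have e : P h₀ = 0 := by
      have e1 := hRIB.per P hP _ hr
      rw [map_sub, mem_grKer.1 hh p, zero_sub, neg_eq_zero] at e1
      exact e1
    have e2 : h₀ ∈ RI := (hRIB.h0 p h₀ hh₀).2 (hQ p h₀ hh₀ (by rw [← per_h0 hP p h₀ hh₀, e]))
    have e3 := RI.add_mem hr e2
    rwa [sub_add_cancel] at e3
  have h2 : Weak P (grKer P) → ∀ p, ∀ h ∈ H0 p, Z h = 0 → h ∈ Submodule.span ℚ (RDS p) := by
    intro hW p h hh hZ
    refine (hRIB.h0 p h hh).1 (hMAX P hP _ hW (mem_grKer.2 fun q => ?_))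
    rw [gr_h0 p q h hh]
    split_ifs
    · rw [per_h0 hP p h hh, hZ]
    · rw [map_zero]
  refine ⟨P, hP, hu, hSTA P hP, hRIB.ideal, fun J hJ => weak_of_motivic hKIL hJ, hMAX P hP,
    hRIB.h0, ⟨fun hQ => ?_, fun hM => h2 (weak_of_motivic hKIL hM)⟩,
    ⟨fun hQ => ?_, h2⟩⟩
  · rw [h1 hQ]
    exact hSTA P hP
  · rw [h1 hQ]
    exact weak_of_motivic hKIL (hSTA P hP)

end MP154526.Mot
end
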