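import Pool.Agent.Lib.MP_154526_nt.Mot.Spec
import Pool.Agent.Lib.MP_154526_nt.Low.Ideal

section
/-!
# IND: the words in `z_2`, `z_2 z_1` are independent modulo the relations, for a fixed family
-/
set_option autoImplicit false

namespace MP154526.Mot

open Finset MP154526.Top MP154526.Top.F2 MP154526.Top.Pass2 MP154526.Lin MP154526.Low
open MP154526.Low.FrontL MP154526.Low.Level MP154526.Low.Anti MP154526.Low.Ops

/-- IND -/
theorem specIND : SpecIND := by
  classical
  intro σ hσ Pr hT hP N
  induction N using Nat.strong_induction_on with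
  | _ N ih =>
    intro S c hlen hφ
    by_contra hcon
    push Not at hcon
    obtain ⟨s₀, hs₀, hc₀⟩ := hcon
    -- the maximal level
    obtain ⟨s₁, hs₁, hmax⟩ := Finset.exists_max_image (S.filter fun s => c s ≠ 0)
      (fun s => s.count true) ⟨s₀, Finset.mem_filter.2 ⟨hs₀, hc₀⟩⟩
    set k := s₁.count true with hk
    obtain ⟨hs₁S, hc₁⟩ := Finset.mem_filter.1 hs₁
    have hle : ∀ s ∈ S, c s ≠ 0 → s.count true ≤ k := fun s hs hc =>
      hmax s (Finset.mem_filter.2 ⟨hs, hc⟩)
    rcases Nat.eq_zero_or_pos k with hk0 | hkpos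
    · -- level zero
      have h1 := count_zero (t := s₁) (by omega)
      have hN : N = 2 * s₁.length := by
        have := expand_length s₁
        have := hlen s₁ hs₁S
        omega
      obtain ⟨φ, hφR, hφ0⟩ := hP s₁.length
      have h2 := hφ φ (by rw [hN]; exact hφR)
      rw [Finset.sum_eq_single s₁] at h2
      · rw [h1, expand_zp] at h2
        rw [← h1] at h2
        rcases mul_eq_zero.1 h2 with h3 | h3
        · exact hc₁ h3
        · exact hφ0 h3
      · intro b hb hne
        by_contra hne2
        have hcb : c b ≠ 0 := fun h => hne2 (by rw [h, zero_mul])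
        have hb0 := hle b hb hcb
        have h3 := count_zero (t := b) (by omega)
        apply hne
        have hl1 := expand_length b
        have hl2 := hlen b hb
        rw [h3, h1]
        congr 1
        omega
      · intro h
        exact absurd hs₁S h
    · -- positive level
      set Sk := S.filter fun s => s.count true = k ∧ c s ≠ 0 with hSk
      have hs₁k : s₁ ∈ Sk := Finset.mem_filter.2 ⟨hs₁S, rfl, hc₁⟩
      have hex : ∃ v : ℕ, ∃ s ∈ Sk, ¬ (2 : ℤ) ^ (v + 1) ∣ c s := by
        refine ⟨(c s₁).natAbs, s₁, hs₁k, ?_⟩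
        intro hdvd
        have h1 := Int.natAbs_dvd_natAbs.2 hdvd
        rw [Int.natAbs_pow] at h1
        have h2 := Nat.le_of_dvd (Int.natAbs_pos.2 hc₁) h1
        have h3 : (c s₁).natAbs + 1 < 2 ^ ((c s₁).natAbs + 1) := Nat.lt_two_pow_self
        have h4 : ((2 : ℤ).natAbs) = 2 := rfl
        rw [h4] at h2
        omega
      set v₀ := Nat.find hex with hv₀
      have hdvd : ∀ s ∈ Sk, (2 : ℤ) ^ v₀ ∣ c s := by
        intro s hs
        rcases Nat.eq_zero_or_pos v₀ with h0 | hpos
        · rw [h0, pow_zero]
          exact one_dvd _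
        · have h1 := Nat.find_min hex (m := v₀ - 1) (by omega)
          push Not at h1
          have h2 := h1 s hs
          rwa [Nat.sub_add_cancel hpos] at h2
      obtain ⟨s₂, hs₂, hn₂⟩ := Nat.find_spec hex
      obtain ⟨t₀, ht₀, htmin⟩ := Finset.exists_min_image
        (Sk.filter fun s => ¬ (2 : ℤ) ^ (v₀ + 1) ∣ c s) tr
        ⟨s₂, Finset.mem_filter.2 ⟨hs₂, hn₂⟩⟩
      obtain ⟨ht₀k, hn₀⟩ := Finset.mem_filter.1 ht₀
      obtain ⟨ht₀S, ht₀c, ht₀ne⟩ := Finset.mem_filter.1 ht₀k
      obtain ⟨α, j, hα⟩ := exists_tr t₀ (by omega)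
      have htr : tr t₀ = j := by rw [hα, tr_eq]
      obtain ⟨ψ, hψe⟩ : ∃ ψ, ψ = σ j := ⟨_, rfl⟩
      have hψ : Sg j ψ := hψe ▸ hσ j
      set n := 2 * (j + 1) + 1 with hn
      have hG := good_DD specShW asmRacW j ψ hψ.1
      have hexpt : (expand t₀).length = (expand α).length + n := by
        have h1 : (expand (true :: List.replicate j false)).length = n := by
          rw [expand_length, List.count_cons, List.count_replicate]
          simp
          omega
        rw [hα, expand_append, List.length_append, h1]
      have hNn : N = (expand α).length + n := by rw [← hexpt, hlen t₀ ht₀S]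
      have hcα : α.count true + 1 = k := by
        rw [← ht₀c, hα, List.count_append, List.count_cons, List.count_replicate]
        simp
      obtain ⟨W, hW, -⟩ := FinN.exists_words (expand α).length
      have hzero := ih (expand α).length (by omega) W
        (fun β => ∑ s ∈ S, c s * pull (DD n ψ) (dl β) (expand s))
        (fun w hw => (hW w).1 hw) (by
          intro φ' hφ'
          have h1 := hφ (pull (DD n ψ) φ') (by
            rw [hNn, add_comm, pull_DD']
            rw [hψe]
            exact hT j _ φ' hφ')
          have h3 : ∀ s ∈ S, c s * pull (DD n ψ) φ' (expand s) =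
              ∑ β ∈ W, c s * (pull (DD n ψ) (dl β) (expand s) * φ' (expand β)) := by
            intro s hs
            rw [pull_expand j ψ _ W hW s (by rw [hlen s hs, hNn]) φ', Finset.mul_sum]
          rw [Finset.sum_congr rfl h3, Finset.sum_comm] at h1
          rw [← h1]
          refine Finset.sum_congr rfl fun β _ => ?_
          rw [Finset.sum_mul]
          refine Finset.sum_congr rfl fun s _ => ?_
          ring) α ((hW α).2 rfl)
      -- all terms but one are divisible by `2^{v₀+1}`
      have hodd : ∀ s, rd (dl α) (expand s) = if s = α then 1 else 0 := by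
        intro s
        unfold rd Ops.dl
        by_cases h : s = α
        · simp [h]
        · have : expand s ≠ expand α := fun h' => h (expand_inj h')
          simp [h, this]
      have hred : ∀ s : List Bool, s.count true ≤ α.count true + 1 →
          ((pull (DD n ψ) (dl α) (expand s) : ℤ) : ZMod 2) =
            if s.count true = α.count true + 1 then
              cv (fun t => rd (dl α) (expand t)) (qq n (rd ψ)) s else 0 := by
        intro s hs
        have e1 : ((pull (DD n ψ) (dl α) (expand s) : ℤ) : ZMod 2) =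
            pull (DD n ψ) (rd (dl α)) (expand s) :=
          pull_map (Int.castAddHom (ZMod 2)) _ (dl α) (expand s)
        rw [e1]
        refine hG.lev (α.count true) (rd (dl α)) ?_ s hs
        intro s' hs'
        rw [hodd, if_neg]
        rintro rfl
        omega
      have hterm : ∀ s ∈ S, s ≠ t₀ → (2 : ℤ) ^ (v₀ + 1) ∣
          c s * pull (DD n ψ) (dl α) (expand s) := by
        intro s hs hne
        by_cases hcs : c s = 0
        · rw [hcs, zero_mul]
          exact dvd_zero _
        have hsk := hle s hs hcs
        by_cases hslt : s.count true < k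
        · have h0 : pull (DD n ψ) (dl α) (expand s) = 0 := by
            rw [pull_DD]
            refine level0 j ψ s _ ?_
            intro s' _ h2
            unfold Ops.dl
            rw [if_neg]
            intro h3
            rw [expand_inj h3] at h2
            omega
          rw [h0, mul_zero]
          exact dvd_zero _
        have hseq : s.count true = k := by omega
        have hsSk : s ∈ Sk := Finset.mem_filter.2 ⟨hs, hseq, hcs⟩
        by_cases heven : ((pull (DD n ψ) (dl α) (expand s) : ℤ) : ZMod 2) = 0
        · have h1 : (2 : ℤ) ∣ pull (DD n ψ) (dl α) (expand s) :=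
            (ZMod.intCast_zmod_eq_zero_iff_dvd _ 2).1 heven
          rw [pow_succ]
          exact mul_dvd_mul (hdvd s hsSk) h1
        · rw [hred s (by omega), if_pos (by omega)] at heven
          obtain ⟨a, t, hat, ha, hq⟩ := cv_ne heven
          have haα : a = α := by
            by_contra h
            exact ha (by rw [hodd, if_neg h])
          subst haα
          -- `t = A^i B A^{i'}`
          have hqs := hG.supp t hq
          obtain ⟨γ, i, hγ⟩ := exists_tr t (by omega)
          have htrs : tr s = i := by
            rw [hat, hγ, ← List.append_assoc, tr_eq]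
          have hcγ : γ.count true = 0 := by
            have h1 := hqs.1
            rw [hγ, List.count_append, List.count_cons, List.count_replicate] at h1
            simp at h1
            exact h1
          have hlt : γ.length + i = j := by
            have h1 := hqs.2
            rw [expand_length, hqs.1, hγ, List.length_append, List.length_cons,
              List.length_replicate] at h1
            omega
          have hγne : γ ≠ [] := by
            rintro rfl
            apply hne
            rw [hat, hγ, hα]
            simp only [List.length_nil, zero_add] at hlt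
            rw [hlt]
            rfl
          have hγpos := List.length_pos_iff.2 hγne
          by_contra hnd
          have h5 : s ∈ Sk.filter fun s => ¬ (2 : ℤ) ^ (v₀ + 1) ∣ c s :=
            Finset.mem_filter.2 ⟨hsSk, fun h => hnd (Dvd.dvd.mul_right h _)⟩
          have h6 := htmin s h5
          rw [htr, htrs] at h6
          omega
      have hlast : ¬ (2 : ℤ) ^ (v₀ + 1) ∣ c t₀ * pull (DD n ψ) (dl α) (expand t₀) := by
        have h1 : ((pull (DD n ψ) (dl α) (expand t₀) : ℤ) : ZMod 2) = 1 := by
          rw [hred t₀ (by omega), if_pos (by omega)]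
          unfold Level.cv
          rw [Finset.sum_eq_single α.length]
          · rw [hα, List.take_left' rfl, List.drop_left' rfl]
            show rd (dl α) (expand α) * _ = 1
            rw [hodd, if_pos rfl, one_mul]
            exact qq_rev hψ
          · intro i hi hne
            show rd (dl α) (expand (t₀.take i)) * _ = 0
            rw [hodd, if_neg, zero_mul]
            intro h
            have h2 := congrArg List.length h
            rw [List.length_take] at h2
            have h3 := Finset.mem_range.1 hi
            omega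
          · intro h
            exfalso
            apply h
            rw [Finset.mem_range, hα, List.length_append]
            omega
        intro h2
        have hodd2 : ¬ (2 : ℤ) ∣ pull (DD n ψ) (dl α) (expand t₀) := by
          intro h3
          rw [(ZMod.intCast_zmod_eq_zero_iff_dvd _ 2).2 h3] at h1
          exact absurd h1 (by decide)
        have hcop : IsCoprime ((2 : ℤ) ^ (v₀ + 1)) (pull (DD n ψ) (dl α) (expand t₀)) := by
          refine IsCoprime.pow_left ?_
          exact (Int.prime_two.coprime_iff_not_dvd).2 hodd2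
        exact hn₀ (hcop.dvd_of_dvd_mul_right h2)
      apply hlast
      have h7 : ∑ s ∈ S, c s * pull (DD n ψ) (dl α) (expand s) = 0 := hzero
      rw [← Finset.add_sum_erase S _ ht₀S] at h7
      have h8 : (2 : ℤ) ^ (v₀ + 1) ∣
          ∑ s ∈ S.erase t₀, c s * pull (DD n ψ) (dl α) (expand s) :=
        Finset.dvd_sum fun s hs => hterm s (Finset.mem_of_mem_erase hs) (Finset.ne_of_mem_erase hs)
      have h9 := (Int.dvd_add_left h8).1 (by rw [h7]; exact dvd_zero _)
      exact h9

end MP154526.Mot
end

section
/-!
# MAX: every weak system of motivic relations is contained in `R`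
-/
set_option autoImplicit false

namespace MP154526.Mot

open Finset MP154526.Bound MP154526.Top MP154526.Top.Pass2 MP154526.Lin MP154526.Low
open scoped TensorProduct

namespace MAXM

theorem exists_fam : ∃ σ : ℕ → List Bool → ℤ, Fam σ :=
  ⟨fun j => Classical.choose (Ops.desc specShW asmRacW specLynF asmExW j),
    fun j => Classical.choose_spec (Ops.desc specShW asmRacW specLynF asmExW j)⟩

theorem dwj {σ : ℕ → List Bool → ℤ} (hσ : Fam σ) (j : ℕ) : DW (2 * (j + 1) + 1) (σ j) := (hσ j).1

theorem kp_of_dw {n : ℕ} {ψ : List Bool → ℤ} (h : DW n ψ) : Kp n ψ :=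
  ⟨by have := h.three; omega, h.sh⟩

theorem gr_wd (p : ℕ) (w : List Bool) : gr p (wd w) = if w.length = p then wd w else 0 := by
  unfold gr
  unfold wd
  rw [Finsupp.linearCombination_single, one_smul]

theorem fn_wd (n : ℕ) (ψ : List Bool → ℤ) (w : List Bool) :
    fn n ψ (wd w) = if w.length = n then (ψ w : ℚ) else 0 := by
  unfold fn
  unfold wd
  rw [Finsupp.linearCombination_single, one_smul]

theorem single_eq (w : List Bool) (a : ℚ) : (Finsupp.single w a : H) = a • wd w := by
  rw [wd, Finsupp.smul_single, smul_eq_mul, mul_one]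

theorem gr_gr (p : ℕ) (h : H) : gr p (gr p h) = gr p h := by
  induction h using Finsupp.induction_linear with
  | zero => simp
  | add f g hf hg => rw [map_add, map_add, hf, hg]
  | single w a =>
    rw [single_eq, map_smul, map_smul, gr_wd]
    split_ifs with h1
    · rw [gr_wd, if_pos h1]
    · rw [map_zero]

theorem fn_gr (n : ℕ) (ψ : List Bool → ℤ) (h : H) : fn n ψ (gr n h) = fn n ψ h := by
  induction h using Finsupp.induction_linear with
  | zero => simp
  | add f g hf hg => rw [map_add, map_add, map_add, hf, hg]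
  | single w a =>
    rw [single_eq, map_smul, map_smul, map_smul, gr_wd, fn_wd]
    split_ifs with h1
    · rw [fn_wd, if_pos h1]
    · rw [map_zero]

/-- a sum of its parts -/
theorem sum_gr (h : H) : ∃ M : ℕ, ∀ N, M ≤ N → ∑ p ∈ range N, gr p h = h := by
  induction h using Finsupp.induction_linear with
  | zero => exact ⟨0, fun N _ => by simp⟩
  | add f g hf hg =>
    obtain ⟨M, hM⟩ := hf
    obtain ⟨M', hM'⟩ := hg
    refine ⟨max M M', fun N hN => ?_⟩
    simp only [map_add, Finset.sum_add_distrib]
    rw [hM N (le_trans (le_max_left _ _) hN), hM' N (le_trans (le_max_right _ _) hN)]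
  | single w a =>
    refine ⟨w.length + 1, fun N hN => ?_⟩
    simp only [single_eq, map_smul, gr_wd]
    rw [Finset.sum_eq_single w.length]
    · rw [if_pos rfl]
    · intro b _ hb
      rw [if_neg (Ne.symm hb), smul_zero]
    · intro h
      exact absurd (Finset.mem_range.2 (by omega)) h

theorem mem_of_gr (J : Submodule ℚ H) (h : H) (hg : ∀ p, gr p h ∈ J) : h ∈ J := by
  obtain ⟨M, hM⟩ := sum_gr h
  rw [← hM M le_rfl]
  exact Submodule.sum_mem _ fun p _ => hg p

/-- a functional which kills `A`, applied to the left factor of `A ⊗ H + H ⊗ B` -/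
theorem lid_mem (f : H →ₗ[ℚ] ℚ) (A B : Submodule ℚ H) (hf : ∀ a ∈ A, f a = 0) (t : H ⊗[ℚ] H)
    (ht : t ∈ tens A ⊤ ⊔ tens ⊤ B) :
    TensorProduct.lid ℚ H (TensorProduct.map f LinearMap.id t) ∈ B := by
  obtain ⟨t₁, h₁, t₂, h₂, hst⟩ := Submodule.mem_sup.1 ht
  clear ht
  rw [← hst, map_add, map_add]
  clear hst
  refine Submodule.add_mem _ ?_ ?_
  · have : TensorProduct.lid ℚ H (TensorProduct.map f LinearMap.id t₁) = 0 := by
      unfold tens at h₁
      induction h₁ using Submodule.span_induction with
      | mem x hx =>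
        obtain ⟨a, ha, b, _, rfl⟩ := hx
        rw [TensorProduct.map_tmul, hf a ha, TensorProduct.zero_tmul, map_zero]
      | zero => rw [map_zero, map_zero]
      | add x y _ _ h1 h2 =>
        rw [map_add, map_add, h1, h2, add_zero]
      | smul a x _ h =>
        rw [map_smul, map_smul, h, smul_zero]
    rw [this]
    exact Submodule.zero_mem _
  · unfold tens at h₂
    induction h₂ using Submodule.span_induction with
    | mem x hx =>
      obtain ⟨a, _, b, hb, rfl⟩ := hx
      rw [TensorProduct.map_tmul, TensorProduct.lid_tmul]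
      exact Submodule.smul_mem _ _ hb
    | zero =>
      rw [map_zero, map_zero]
      exact Submodule.zero_mem _
    | add x y hx hy h1 h2 =>
      rw [map_add, map_add]
      exact Submodule.add_mem _ h1 h2
    | smul a x hx h =>
      rw [map_smul, map_smul]
      exact Submodule.smul_mem _ _ h

theorem z_wd (w : List Bool) : Low.Z (wd w) = Zw w := by
  unfold Low.Z
  unfold wd
  rw [Finsupp.linearCombination_single, one_smul]

theorem per_zp {P : H →ₗ[ℚ] ℝ} (hP : IsPer P) (m : ℕ) : P (wd (zp m)) ≠ 0 := by
  rw [hP.adm _ (PiW.adm_zp m), z_wd, PiW.zw_zp]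
  exact (PiW.zeta_pos m).ne'

theorem per_z {P : H →ₗ[ℚ] ℝ} (hP : IsPer P) (k : ℕ) :
    P (wd (List.replicate (k + 1) false ++ [true])) ≠ 0 := by
  have e : List.replicate (k + 1) false ++ [true] = bw [k + 1] := by
    simp [bw]
  have h1 : Adm (List.replicate (k + 1) false ++ [true]) := by
    right
    exact ⟨List.replicate k false, by rw [List.replicate_succ]⟩
  rw [hP.adm _ h1, z_wd, e]
  unfold Zw
  rw [toY_bw]
  show zeta [k + 1 + 1] ≠ 0
  exact (ExW.zeta_pos _ (by omega)).ne'

end MAXM

open MAXM in
/-- module MAX -/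
theorem specMAX (hPSI : SpecPSI) (hKIL : SpecKIL) (hSEP : SpecSEP) (hDER : SpecDER)
    (hRIB : SpecRIB) : SpecMAX := by
  intro P hP J hJ
  obtain ⟨σ, hσ⟩ := exists_fam
  have main : ∀ N : ℕ, ∀ ξ ∈ J, Hom N ξ → ξ ∈ RI := by
    intro N
    induction N using Nat.strong_induction_on with
    | _ N ih =>
      intro ξ hξ hN
      have hN' : gr N ξ = ξ := hN
      -- the operators of small weight
      have hsmall : ∀ j, 2 * (j + 1) + 1 < N → Dj σ j ξ ∈ RI := by
        intro j hj
        have h1 : Dj σ j ξ ∈ J := by
          unfold Dj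
          rw [← hPSI _ _ (kp_of_dw (dwj hσ j)) ξ]
          refine lid_mem _ (J ⊔ dec) J ?_ _ (hJ.stable ξ hξ)
          intro a ha
          obtain ⟨a₁, h₁, a₂, h₂, rfl⟩ := Submodule.mem_sup.1 ha
          rw [map_add, hKIL.dec _ _ (dwj hσ j) (by omega) a₂ h₂, add_zero, ← fn_gr]
          exact hKIL.ri _ _ (dwj hσ j) _ (ih _ hj _ (hJ.graded a₁ h₁ _) (gr_gr _ _))
        refine ih (N - (2 * (j + 1) + 1)) (by omega) _ h1 ?_
        show gr _ (Dw _ _ ξ) = Dw _ _ ξ
        rw [hDER.gr, Nat.sub_add_cancel hj.le, hN']
      have hbig : ∀ j, N < 2 * (j + 1) + 1 → ∀ h : H, Hom N h → Dj σ j h ∈ RI := by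
        intro j hj h hh
        have hh' : gr N h = h := hh
        unfold Dj
        rw [← hh', hDER.low _ _ _ _ hj]
        exact Submodule.zero_mem _
      rcases Nat.even_or_odd' N with ⟨m, hm | hm⟩
      · -- even weight
        have hall : ∀ j, Dj σ j ξ ∈ RI := by
          intro j
          rcases lt_trichotomy (2 * (j + 1) + 1) N with h | h | h
          · exact hsmall j h
          · omega
          · exact hbig j h ξ hN
        obtain ⟨μ, hμ⟩ : ∃ μ : Module.Dual ℚ ℝ, μ (P (wd (zp m))) ≠ 0 := by
          by_contra hc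
          push Not at hc
          exact per_zp hP m ((Module.forall_dual_apply_eq_zero_iff ℚ _).1 hc)
        refine (hSEP σ hσ N ξ hN hall).2 m hm (μ ∘ₗ P) ?_ hμ ?_
        · intro h hh
          rw [LinearMap.comp_apply, hRIB.per P hP h hh, map_zero]
        · rw [LinearMap.comp_apply, hJ.per ξ hξ, map_zero]
      · -- odd weight
        rcases Nat.eq_zero_or_pos m with h0 | hpos
        · have hall : ∀ j, Dj σ j ξ ∈ RI := fun j => hbig j (by omega) ξ hN
          exact (hSEP σ hσ N ξ hN hall).1 (by omega)
        · obtain ⟨r, hr⟩ : ∃ r, m = r + 1 := ⟨m - 1, by omega⟩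
          have hNr : N = 2 * (r + 1) + 1 := by omega
          subst hNr
          obtain ⟨z, hz⟩ : ∃ z : H, z = wd (List.replicate (2 * r + 1 + 1) false ++ [true]) :=
            ⟨_, rfl⟩
          have hzN : Hom (2 * (r + 1) + 1) z := by
            show gr _ z = z
            rw [hz, gr_wd, if_pos (by simp; omega)]
          have hPz : P z ≠ 0 := by
            rw [hz]
            exact per_z hP _
          have hzs : ∀ j, 2 * (j + 1) + 1 < 2 * (r + 1) + 1 → Dj σ j z = 0 := by
            intro j hj
            unfold Dj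
            rw [hz]
            exact hDER.zk _ _ (kp_of_dw (dwj hσ j)) (by omega) _ (by omega)
          have htop : ∀ h : H, Hom (2 * (r + 1) + 1) h →
              Dj σ r h = fn (2 * (r + 1) + 1) (σ r) h • wd [] := by
            intro h hh
            have hh' : gr (2 * (r + 1) + 1) h = h := hh
            have h1 := hDER.top (2 * (r + 1) + 1) (σ r) (by omega) h
            rw [hh'] at h1
            exact h1
          have hcase : ∀ j, j ≠ r → (2 * (j + 1) + 1 < 2 * (r + 1) + 1 ∨
              2 * (r + 1) + 1 < 2 * (j + 1) + 1) := by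
            intro j hj
            omega
          have ha : fn (2 * (r + 1) + 1) (σ r) z ≠ 0 := by
            intro ha
            have hall : ∀ j, Dj σ j z ∈ RI := by
              intro j
              by_cases hjr : j = r
              · rw [hjr, htop z hzN, ha, zero_smul]
                exact Submodule.zero_mem _
              · rcases hcase j hjr with h | h
                · rw [hzs j h]
                  exact Submodule.zero_mem _
                · exact hbig j h z hzN
            have h1 := (hSEP σ hσ _ z hzN hall).1 (by omega)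
            exact hPz (hRIB.per P hP z h1)
          obtain ⟨c, hc⟩ : ∃ c : ℚ, c = fn (2 * (r + 1) + 1) (σ r) ξ /
              fn (2 * (r + 1) + 1) (σ r) z := ⟨_, rfl⟩
          have hξ' : ξ - c • z ∈ RI := by
            refine (hSEP σ hσ (2 * (r + 1) + 1) (ξ - c • z) ?_ ?_).1 (by omega)
            · show gr _ (ξ - c • z) = ξ - c • z
              have hzN' : gr (2 * (r + 1) + 1) z = z := hzN
              rw [map_sub, map_smul, hN', hzN']
            · intro j
              have hlin : Dj σ j (ξ - c • z) = Dj σ j ξ - c • Dj σ j z := by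
                rw [map_sub, map_smul]
              rw [hlin]
              by_cases hjr : j = r
              · rw [hjr, htop z hzN, htop ξ hN, smul_smul, ← sub_smul]
                have : fn (2 * (r + 1) + 1) (σ r) ξ - c * fn (2 * (r + 1) + 1) (σ r) z = 0 := by
                  rw [hc, div_mul_cancel₀ _ ha, sub_self]
                rw [this, zero_smul]
                exact Submodule.zero_mem _
              · rcases hcase j hjr with h | h
                · rw [hzs j h, smul_zero, sub_zero]
                  exact hsmall j h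
                · exact Submodule.sub_mem _ (hbig j h ξ hN)
                    (Submodule.smul_mem _ _ (hbig j h z hzN))
          have h2 := hRIB.per P hP _ hξ'
          rw [map_sub, map_smul, hJ.per ξ hξ, zero_sub, neg_eq_zero] at h2
          have h3 : c = 0 := by
            rcases smul_eq_zero.1 h2 with h | h
            · exact h
            · exact absurd h hPz
          rw [h3, zero_smul, sub_zero] at hξ'
          exact hξ'
  intro h hh
  refine mem_of_gr RI h fun p => ?_
  exact main p _ (hJ.graded h hh p) (gr_gr p h)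

end MP154526.Mot
end

section
/-!
# PER: there is exactly one regularised period map
-/
set_option autoImplicit false

namespace MP154526.Mot.PERM

open Finset MP154526.Bound MP154526.Top MP154526.Top.Pass2 MP154526.Lin MP154526.Low
open MP154526.Low.PTR

/-- the regularisation as a linear map of `H` -/
noncomputable def RG : H →ₗ[ℚ] H := (G.toLinearMap : Sh →ₗ[ℚ] Sh)

theorem RG_apply (a : H) : RG a = (show H from G (a : Sh)) := rfl

theorem RG_mul (a b : H) : RG (shuffle a b) = shuffle (RG a) (RG b) := G_mul a b

theorem RG_mem (a : H) : RG a ∈ H0all := G_mem a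

theorem RG_x : RG (wd [false]) = 0 := by
  show (sly.E (slx.E _) : Sh) = 0
  rw [slx.E_t, map_zero]

theorem RG_y : RG (wd [true]) = 0 := by
  show (G (wd [true] : H) : Sh) = 0
  rw [G_of (show Dx _ = 0 from y_mem), sly.E_t]

theorem RG_adm {w : List Bool} (hw : Adm w) : RG (wd w) = wd w := by
  have hx : (dx (wd w) : H) = 0 := by
    rcases hw with rfl | ⟨u, rfl⟩
    · exact dx_nil
    · rw [dx_snoc]
      simp
  have hy : (dy (wd w) : H) = 0 := by
    rcases hw with rfl | ⟨u, rfl⟩
    · exact dy_nil
    · rw [List.cons_append, dy_cons]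
      simp
  show (G (wd w : H) : Sh) = (wd w : H)
  rw [G_of (show Dx _ = 0 from hx), sly.E_self (show Dy _ = 0 from hy)]

theorem RG_H0all {h : H} (hh : h ∈ H0all) : RG h = h := by
  unfold H0all at hh
  induction hh using Submodule.span_induction with
  | mem x hx =>
    obtain ⟨w, hw, rfl⟩ := hx
    exact RG_adm hw
  | zero => exact map_zero _
  | add x y _ _ h1 h2 => rw [map_add, h1, h2]
  | smul r x _ h => rw [map_smul, h]

/-- the ideal generated by the letters -/
noncomputable def LI : Submodule ℚ H :=
  Submodule.span ℚ {z | ∃ a b : H, (a = wd [false] ∨ a = wd [true]) ∧ z = shuffle a b}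

theorem sub_RG (h : H) : h - RG h ∈ LI := by
  obtain ⟨b, hb⟩ := slx.pr_spec (h : Sh)
  obtain ⟨b', hb'⟩ := sly.pr_spec (slx.pr (h : Sh))
  have key : ∀ h k g t s : H, h = k + t → k = g + s → h - g = s + t := by
    intro h k g t s h1 h2
    rw [h1, h2]
    abel
  have e : h - RG h = shuffle (wd [true]) b' + shuffle (wd [false]) b :=
    key h (slx.pr (h : Sh)) (RG h) _ _ hb hb'
  rw [e]
  exact Submodule.add_mem _ (Submodule.subset_span ⟨_, _, Or.inr rfl, rfl⟩)
    (Submodule.subset_span ⟨_, _, Or.inl rfl, rfl⟩)

theorem per_LI {P : H →ₗ[ℚ] ℝ} (hP : IsPer P) {h : H} (hh : h ∈ LI) : P h = 0 := by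
  unfold LI at hh
  induction hh using Submodule.span_induction with
  | mem x hx =>
    obtain ⟨a, b, hab, rfl⟩ := hx
    rw [hP.mul]
    rcases hab with rfl | rfl
    · rw [hP.x, zero_mul]
    · rw [hP.y, zero_mul]
  | zero => exact map_zero _
  | add x y _ _ h1 h2 => rw [map_add, h1, h2, add_zero]
  | smul r x _ h => rw [map_smul, h, smul_zero]

theorem per_H0all {P : H →ₗ[ℚ] ℝ} (hP : IsPer P) {h : H} (hh : h ∈ H0all) : P h = Z h := by
  unfold H0all at hh
  induction hh using Submodule.span_induction with
  | mem x hx =>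
    obtain ⟨w, hw, rfl⟩ := hx
    exact hP.adm w hw
  | zero => rw [map_zero, map_zero]
  | add x y _ _ h1 h2 => rw [map_add, map_add, h1, h2]
  | smul r x _ h => rw [map_smul, map_smul, h]

theorem per_eq {P : H →ₗ[ℚ] ℝ} (hP : IsPer P) (h : H) : P h = Z (RG h) := by
  have h1 := per_LI hP (sub_RG h)
  rw [map_sub, sub_eq_zero] at h1
  rw [h1, per_H0all hP (RG_mem h)]

theorem isPer_F : IsPer F where
  adm w hw := by
    rw [F_apply]
    show Z (RG (wd w)) = _
    rw [RG_adm hw]
  x := by
    rw [F_apply]
    show Z (RG (wd [false])) = _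
    rw [RG_x, map_zero]
  y := by
    rw [F_apply]
    show Z (RG (wd [true])) = _
    rw [RG_y, map_zero]
  mul := F_mul specZshuf

end MP154526.Mot.PERM

namespace MP154526.Mot

open Finset MP154526.Bound MP154526.Top MP154526.Low PERM

/-- PER -/
theorem specPER : SpecPER := by
  refine ⟨PTR.F, isPer_F, fun P' hP' => LinearMap.ext fun h => ?_⟩
  rw [per_eq hP', per_eq isPer_F]

end MP154526.Mot
end

section
/-!
# RIB: elementary properties of the ideal `RI`
-/
set_option autoImplicit false

namespace MP154526.Mot.RIBM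

open Finset MP154526.Bound MP154526.Top MP154526.Top.Pass2 MP154526.Lin MP154526.Low
open MP154526.Mot.PERM

theorem gr_wd (p : ℕ) (w : List Bool) : Mot.gr p (wd w) = if w.length = p then wd w else 0 := by
  unfold Mot.gr
  unfold wd
  rw [Finsupp.linearCombination_single, one_smul]

theorem gr_sh (p : ℕ) (u v : List Bool) :
    Mot.gr p (sh u v) = if u.length + v.length = p then sh u v else 0 := by
  have h := map_sh (Mot.gr p : H →+ H) u v
  have e : Mot.gr p (sh u v) = shs (fun l => Mot.gr p (wd l)) u v := h
  rw [e]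
  have h2 := map_sh (AddMonoidHom.id H) u v
  simp only [AddMonoidHom.id_apply] at h2
  split_ifs with hn
  · rw [h2]
    exact shs_congr_len u v fun l hl => by rw [gr_wd, if_pos (by omega)]
  · rw [shs_congr_len (G := fun _ => (0 : H)) u v (fun l hl => by
      rw [gr_wd, if_neg (by omega)]), shs_zero]

/-- graded pieces of a product with a word -/
theorem gr_wd_shuffle (p : ℕ) (u : List Bool) (b : H) : Mot.gr p (shuffle (wd u) b) =
    if u.length ≤ p then shuffle (wd u) (Mot.gr (p - u.length) b) else 0 := by
  have key : Mot.gr p ∘ₗ Alg.S (wd u) =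
      if u.length ≤ p then Alg.S (wd u) ∘ₗ Mot.gr (p - u.length) else 0 := by
    refine Alg.ext_wd fun v => ?_
    rw [LinearMap.comp_apply, Alg.S_apply, Alg.shuffle_wd, gr_sh]
    by_cases hu : u.length ≤ p
    · rw [if_pos hu, LinearMap.comp_apply, gr_wd, Alg.S_apply]
      by_cases hv : u.length + v.length = p
      · rw [if_pos hv, if_pos (by omega), Alg.shuffle_wd]
      · rw [if_neg hv, if_neg (by omega), Alg.shuffle_zero_right]
    · rw [if_neg hu, if_neg (by omega)]
      rfl
  have := congrArg (fun f => f b) key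
  simp only [LinearMap.comp_apply, Alg.S_apply] at this
  rw [this]
  split_ifs
  · rfl
  · rfl

/-- graded pieces of a product with a homogeneous element -/
theorem gr_shuffle (p q : ℕ) (a b : H)
    (ha : a ∈ Submodule.span ℚ {h | ∃ w : List Bool, w.length = q ∧ h = wd w}) :
    Mot.gr p (shuffle a b) = if q ≤ p then shuffle a (Mot.gr (p - q) b) else 0 := by
  induction ha using Submodule.span_induction with
  | mem x hx =>
    obtain ⟨w, hw, rfl⟩ := hx
    rw [gr_wd_shuffle, hw]
  | zero =>
    rw [Alg.shuffle_zero_left, map_zero, Alg.shuffle_zero_left]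
    split_ifs <;> rfl
  | add x y _ _ h1 h2 =>
    rw [Alg.shuffle_add_left, map_add, h1, h2, Alg.shuffle_add_left]
    split_ifs
    · rfl
    · rw [add_zero]
  | smul r x _ h =>
    rw [Alg.shuffle_smul_left, map_smul, h, Alg.shuffle_smul_left]
    split_ifs
    · rfl
    · rw [smul_zero]

/-- the homogeneous elements of weight `q` -/
noncomputable def HS (q : ℕ) : Submodule ℚ H :=
  Submodule.span ℚ {h | ∃ w : List Bool, w.length = q ∧ h = wd w}

theorem wd_HS (w : List Bool) : wd w ∈ HS w.length := Submodule.subset_span ⟨w, rfl, rfl⟩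

theorem H0_HS (q : ℕ) : H0 q ≤ HS q := by
  unfold H0 HS
  refine Submodule.span_mono ?_
  rintro h ⟨w, _, hw, rfl⟩
  exact ⟨w, hw, rfl⟩

theorem H0_H0all (q : ℕ) : H0 q ≤ H0all := by
  unfold H0 H0all
  refine Submodule.span_mono ?_
  rintro h ⟨w, hw, _, rfl⟩
  exact ⟨w, hw, rfl⟩

theorem gr_H0all {h : H} (hh : h ∈ H0all) (p : ℕ) : Mot.gr p h ∈ H0 p := by
  unfold H0all at hh
  induction hh using Submodule.span_induction with
  | mem x hx =>
    obtain ⟨w, hw, rfl⟩ := hx
    rw [gr_wd]
    split_ifs with hl
    · exact Submodule.subset_span ⟨w, hw, hl, rfl⟩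
    · exact Submodule.zero_mem _
  | zero => rw [map_zero]; exact Submodule.zero_mem _
  | add x y _ _ h1 h2 => rw [map_add]; exact Submodule.add_mem _ h1 h2
  | smul r x _ h => rw [map_smul]; exact Submodule.smul_mem _ _ h

theorem gr_HS {q : ℕ} {h : H} (hh : h ∈ HS q) : Mot.gr q h = h := by
  unfold HS at hh
  induction hh using Submodule.span_induction with
  | mem x hx =>
    obtain ⟨w, hw, rfl⟩ := hx
    rw [gr_wd, if_pos hw]
  | zero => exact map_zero _
  | add x y _ _ h1 h2 => rw [map_add, h1, h2]
  | smul r x _ h => rw [map_smul, h]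

/-- the generators are homogeneous -/
theorem gen_HS {a : H} (ha : a = wd [false] ∨ a = wd [true] ∨ ∃ p, a ∈ RDS p) :
    ∃ q, a ∈ HS q := by
  rcases ha with rfl | rfl | ⟨p, hp⟩
  · exact ⟨1, wd_HS [false]⟩
  · exact ⟨1, wd_HS [true]⟩
  · exact ⟨p, H0_HS p hp.1⟩

theorem ri_ideal : ∀ a ∈ RI, ∀ b : H, shuffle a b ∈ RI := by
  intro a ha b
  unfold RI at ha
  induction ha using Submodule.span_induction with
  | mem x hx =>
    obtain ⟨a, c, ha, rfl⟩ := hx
    rw [Alg.shuffle_assoc]
    exact Submodule.subset_span ⟨a, shuffle c b, ha, rfl⟩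
  | zero => rw [Alg.shuffle_zero_left]; exact Submodule.zero_mem _
  | add x y _ _ h1 h2 => rw [Alg.shuffle_add_left]; exact Submodule.add_mem _ h1 h2
  | smul r x _ h => rw [Alg.shuffle_smul_left]; exact Submodule.smul_mem _ _ h

theorem ri_gr : ∀ h ∈ RI, ∀ p, Mot.gr p h ∈ RI := by
  intro h hh p
  unfold RI at hh
  induction hh using Submodule.span_induction with
  | mem x hx =>
    obtain ⟨a, c, ha, rfl⟩ := hx
    obtain ⟨q, hq⟩ := gen_HS ha
    rw [gr_shuffle p q a c hq]
    split_ifs
    · exact Submodule.subset_span ⟨a, _, ha, rfl⟩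
    · exact Submodule.zero_mem _
  | zero => rw [map_zero]; exact Submodule.zero_mem _
  | add x y _ _ h1 h2 => rw [map_add]; exact Submodule.add_mem _ h1 h2
  | smul r x _ h => rw [map_smul]; exact Submodule.smul_mem _ _ h

theorem LI_le : LI ≤ RI := by
  unfold LI RI
  refine Submodule.span_mono ?_
  rintro z ⟨a, b, ha, rfl⟩
  exact ⟨a, b, ha.imp_right Or.inl, rfl⟩

theorem RDS_le (p : ℕ) : Submodule.span ℚ (RDS p) ≤ RI := by
  rw [Submodule.span_le]
  intro r hr
  exact Submodule.subset_span ⟨r, wd [], Or.inr (Or.inr ⟨p, hr⟩), (Alg.shuffle_one_right r).symm⟩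

/-- the regularisation of an element of `RI` -/
theorem RG_RI {z : H} (hz : z ∈ RI) (p : ℕ) : Mot.gr p (RG z) ∈ Submodule.span ℚ (RDS p) := by
  unfold RI at hz
  induction hz using Submodule.span_induction with
  | mem x hx =>
    obtain ⟨a, b, ha, rfl⟩ := hx
    rw [RG_mul]
    rcases ha with rfl | rfl | ⟨q, hq⟩
    · rw [RG_x, Alg.shuffle_zero_left, map_zero]
      exact Submodule.zero_mem _
    · rw [RG_y, Alg.shuffle_zero_left, map_zero]
      exact Submodule.zero_mem _
    · rw [RG_H0all (H0_H0all q hq.1), gr_shuffle p q a _ (H0_HS q hq.1)]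
      split_ifs with hqp
      · have h1 := ideal q (p - q) a (Mot.gr (p - q) (RG b)) (Submodule.subset_span hq)
          (gr_H0all (RG_mem b) _)
        rwa [show q + (p - q) = p by omega] at h1
      · exact Submodule.zero_mem _
  | zero => rw [map_zero, map_zero]; exact Submodule.zero_mem _
  | add x y _ _ h1 h2 => rw [map_add, map_add]; exact Submodule.add_mem _ h1 h2
  | smul r x _ h => rw [map_smul, map_smul]; exact Submodule.smul_mem _ _ h

theorem ri_h0 : ∀ p, ∀ h ∈ H0 p, h ∈ RI ↔ h ∈ Submodule.span ℚ (RDS p) := by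
  intro p h hh
  refine ⟨fun hr => ?_, fun hr => RDS_le p hr⟩
  have h1 := RG_RI hr p
  rwa [RG_H0all (H0_H0all p hh), gr_HS (H0_HS p hh)] at h1

theorem ri_per : ∀ P : H →ₗ[ℚ] ℝ, IsPer P → ∀ h ∈ RI, P h = 0 := by
  intro P hP h hh
  unfold RI at hh
  induction hh using Submodule.span_induction with
  | mem x hx =>
    obtain ⟨a, b, ha, rfl⟩ := hx
    rw [hP.mul]
    rcases ha with rfl | rfl | ⟨q, hq⟩
    · rw [hP.x, zero_mul]
    · rw [hP.y, zero_mul]
    · rw [per_H0all hP (H0_H0all q hq.1), asmExact.kill q a hq, zero_mul]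
  | zero => exact map_zero _
  | add x y _ _ h1 h2 => rw [map_add, h1, h2, add_zero]
  | smul r x _ h => rw [map_smul, h, smul_zero]

theorem gr_sub_RG (N : ℕ) (h : H) : Mot.gr N h - Mot.gr N (RG h) ∈ RI := by
  rw [← map_sub]
  exact ri_gr _ (LI_le (sub_RG h)) N

end MP154526.Mot.RIBM

namespace MP154526.Mot

open Finset MP154526.Bound MP154526.Top MP154526.Low PERM RIBM

/-- RIB -/
theorem specRIB : SpecRIB where
  ideal := ri_ideal
  gr := ri_gr
  h0 := ri_h0
  per := ri_per
  span N h := by
    have h1 := gr_sub_RG N h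
    have h2 : Mot.gr N (RG h) ∈ H0 N := gr_H0all (RG_mem h) N
    have e : Mot.gr N h = (Mot.gr N h - Mot.gr N (RG h)) + Mot.gr N (RG h) := by abel
    rw [e]
    refine Submodule.add_mem _ (Submodule.mem_sup_left h1) ?_
    rw [(asmStatement N).span] at h2
    exact sup_le_sup_right (RDS_le N) _ h2
  h0ex p h hp := by
    refine ⟨Mot.gr p (RG h), gr_H0all (RG_mem h) p, ?_⟩
    have h1 := gr_sub_RG p h
    rwa [show Mot.gr p h = h from hp] at h1

end MP154526.Mot
end

section
/-!
# STA: the ideal `RI` is a system of motivic relations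
-/
set_option autoImplicit false

namespace MP154526.Mot

open Finset MP154526.Bound MP154526.Top MP154526.Top.Pass2 MP154526.Lin MP154526.Low
open scoped TensorProduct

namespace STAM

theorem fam_exists : ∃ σ : ℕ → List Bool → ℤ, Fam σ := by
  choose σ hσ using fun j => Ops.desc specShW asmRacW specLynF asmExW j
  exact ⟨σ, hσ⟩

theorem kp_of_sg {j : ℕ} {ψ : List Bool → ℤ} (h : Ops.Sg j ψ) : Kp (2 * (j + 1) + 1) ψ :=
  ⟨by omega, h.1.sh⟩

/-- `(1 ⊗ β) Δ h` -/
noncomputable def tau (β : H →ₗ[ℚ] ℚ) (h : H) : H :=
  TensorProduct.rid ℚ H (TensorProduct.map LinearMap.id β (coact h))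

theorem rid_map_left (D : H →ₗ[ℚ] H) (β : H →ₗ[ℚ] ℚ) (t : H ⊗[ℚ] H) :
    D (TensorProduct.rid ℚ H (TensorProduct.map LinearMap.id β t)) =
      TensorProduct.rid ℚ H (TensorProduct.map LinearMap.id β
        (TensorProduct.map D LinearMap.id t)) := by
  induction t using TensorProduct.induction_on with
  | zero => simp only [map_zero]
  | tmul a b =>
    simp only [TensorProduct.map_tmul, TensorProduct.rid_tmul, LinearMap.id_coe, id_eq, map_smul]
  | add x y hx hy => simp only [map_add, hx, hy]

theorem eps_map (ε β : H →ₗ[ℚ] ℚ) (t : H ⊗[ℚ] H) :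
    ε (TensorProduct.rid ℚ H (TensorProduct.map LinearMap.id β t)) =
      β (TensorProduct.lid ℚ H (TensorProduct.map ε LinearMap.id t)) := by
  induction t using TensorProduct.induction_on with
  | zero => simp only [map_zero]
  | tmul a b =>
    simp only [TensorProduct.map_tmul, TensorProduct.rid_tmul, TensorProduct.lid_tmul,
      LinearMap.id_coe, id_eq, map_smul, smul_eq_mul]
    ring
  | add x y hx hy => simp only [map_add, hx, hy]

theorem Dj_tau (hCOM : SpecCOM) {σ : ℕ → List Bool → ℤ} (hσ : Fam σ) (j : ℕ) (β : H →ₗ[ℚ] ℚ)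
    (h : H) : Dj σ j (tau β h) = tau β (Dj σ j h) := by
  unfold tau Dj
  rw [rid_map_left, hCOM _ _ (kp_of_sg (hσ j))]

theorem foldl_tau (hCOM : SpecCOM) {σ : ℕ → List Bool → ℤ} (hσ : Fam σ) (β : H →ₗ[ℚ] ℚ)
    (L : List ℕ) : ∀ h : H, L.foldl (fun h j => Dj σ j h) (tau β h) =
      tau β (L.foldl (fun h j => Dj σ j h) h) := by
  induction L with
  | nil => intro h; rfl
  | cons j L ih =>
    intro h
    rw [List.foldl_cons, List.foldl_cons, Dj_tau hCOM hσ, ih]

theorem foldl_mem (hDRI : SpecDRI) {σ : ℕ → List Bool → ℤ} (hσ : Fam σ)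
    (L : List ℕ) : ∀ h : H, h ∈ RI → L.foldl (fun h j => Dj σ j h) h ∈ RI := by
  induction L with
  | nil => intro h hh; exact hh
  | cons j L ih =>
    intro h hh
    rw [List.foldl_cons]
    exact ih _ (hDRI _ _ (hσ j).1 h hh)

end STAM

open STAM

theorem specSTA (hCOM : SpecCOM) (hCNT : SpecCNT) (hCRI : SpecCRI) (hDRI : SpecDRI)
    (hTEN : SpecTEN) (hRIB : SpecRIB) : SpecSTA := by
  intro P hP
  refine ⟨fun h hh p => hRIB.gr h hh p, fun h hh => hRIB.per P hP h hh, ?_⟩
  intro h hh
  obtain ⟨σ, hσ⟩ := fam_exists
  apply hTEN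
  intro β hβ
  apply hCRI σ hσ
  intro L
  show (L.foldl (fun h j => Dj σ j h) (tau β h) : H) [] = 0
  rw [foldl_tau hCOM hσ]
  have h1 : (tau β (L.foldl (fun h j => Dj σ j h) h) : H) [] =
      (Finsupp.lapply ([] : List Bool) : H →ₗ[ℚ] ℚ) (tau β (L.foldl (fun h j => Dj σ j h) h)) := rfl
  rw [h1]
  unfold tau
  rw [eps_map, hCNT]
  exact hβ _ (foldl_mem hDRI hσ L h hh)

end MP154526.Mot
end
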