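import Pool.Agent.Lib.MP_154526_nt.Mot.FIN
import Pool.Agent.Lib.MP_154526_nt.Low.PiW

/-!
# SUR: the operators `D_j` are jointly surjective
-/

set_option autoImplicit false

namespace MP154526.Mot.SURM

open Finset MP154526.Bound MP154526.Top MP154526.Top.Pass2 MP154526.Lin MP154526.Low DIMM

/-- `D_N = ∑_{n_j ≤ N} D_{N - n_j} + [N even]` -/
theorem D_rec : ∀ N : ℕ, D N = (∑ j ∈ range ((N - 1) / 2), D (N - (2 * (j + 1) + 1))) +
    if N % 2 = 0 then 1 else 0 := by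
  intro N
  induction N using Nat.strong_induction_on with
  | _ N ih =>
  match N with
  | 0 => simp [D]
  | 1 => simp [D]
  | 2 => simp [D]
  | N + 3 =>
    have h1 := ih (N + 1) (by omega)
    have e1 : (N + 3 - 1) / 2 = (N + 1 - 1) / 2 + 1 := by omega
    rw [e1, Finset.sum_range_succ']
    have e2 : ∀ j ∈ range ((N + 1 - 1) / 2), D (N + 3 - (2 * (j + 1 + 1) + 1)) =
        D (N + 1 - (2 * (j + 1) + 1)) := by
      intro j _
      congr 1
      omega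
    rw [Finset.sum_congr rfl e2]
    have e3 : N + 3 - (2 * (0 + 1) + 1) = N := by omega
    rw [e3]
    have e4 : (if (N + 3) % 2 = 0 then 1 else 0) = if (N + 1) % 2 = 0 then 1 else 0 := by
      by_cases h : (N + 1) % 2 = 0
      · rw [if_pos h, if_pos (by omega)]
      · rw [if_neg h, if_neg (by omega)]
    rw [e4]
    have e5 : D (N + 3) = D (N + 1) + D N := rfl
    rw [e5, h1]
    ring

/-- the words of length `N` -/
noncomputable abbrev HN (N : ℕ) : Submodule ℚ H := LinearMap.range (Mot.gr N)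

/-- the relations of weight `N` -/
noncomputable abbrev RN (N : ℕ) : Submodule ℚ (HN N) := RI.comap (HN N).subtype

instance fin1 (N : ℕ) : Module.Finite ℚ (HN N) := finite_range N

/-- words modulo relations -/
def VN (N : ℕ) : Type := HN N ⧸ RN N

noncomputable instance acg (N : ℕ) : AddCommGroup (VN N) :=
  inferInstanceAs (AddCommGroup (HN N ⧸ RN N))

noncomputable instance mdl (N : ℕ) : Module ℚ (VN N) :=
  inferInstanceAs (Module ℚ (HN N ⧸ RN N))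

instance fin2 (N : ℕ) : Module.Finite ℚ (VN N) :=
  inferInstanceAs (Module.Finite ℚ (HN N ⧸ RN N))

/-- the projection -/
noncomputable def mk (N : ℕ) : HN N →ₗ[ℚ] VN N := (RN N).mkQ

theorem mk_surj (N : ℕ) : Function.Surjective (mk N) := Submodule.mkQ_surjective _

theorem mk_zero (N : ℕ) (x : HN N) : mk N x = 0 ↔ x.1 ∈ RI := by
  have h : (RN N).mkQ x = 0 ↔ x ∈ RN N := by
    rw [Submodule.mkQ_apply, Submodule.Quotient.mk_eq_zero]
  exact h

/-- descend a map -/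
noncomputable def lift {W : Type} [AddCommGroup W] [Module ℚ W] (N : ℕ) (f : HN N →ₗ[ℚ] W)
    (h : ∀ x : HN N, x.1 ∈ RI → f x = 0) : VN N →ₗ[ℚ] W :=
  (RN N).liftQ f fun x hx => LinearMap.mem_ker.2 (h x hx)

theorem lift_mk {W : Type} [AddCommGroup W] [Module ℚ W] (N : ℕ) (f : HN N →ₗ[ℚ] W)
    (h : ∀ x : HN N, x.1 ∈ RI → f x = 0) (x : HN N) : lift N f h (mk N x) = f x := rfl

theorem finrank_vn (hDIM : SpecDIM) (N : ℕ) : Module.finrank ℚ (VN N) = D N := hDIM N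

theorem dj_range (hDER : SpecDER) (σ : ℕ → List Bool → ℤ) (N j : ℕ)
    (hj : 2 * (j + 1) + 1 ≤ N) : ∀ x ∈ HN N, Dj σ j x ∈ HN (N - (2 * (j + 1) + 1)) := by
  intro x hx
  have h1 : Mot.gr N x = x := hom_of_range hx
  apply range_of_hom
  unfold Hom Dj
  rw [hDER.gr, Nat.sub_add_cancel hj, h1]

/-- the operator `D_j` on `F_N` -/
noncomputable def dq (hDER : SpecDER) (hDRI : SpecDRI) (σ : ℕ → List Bool → ℤ) (hσ : Fam σ)
    (N j : ℕ) (hj : 2 * (j + 1) + 1 ≤ N) : VN N →ₗ[ℚ] VN (N - (2 * (j + 1) + 1)) :=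
  lift N (mk (N - (2 * (j + 1) + 1)) ∘ₗ (Dj σ j).restrict (dj_range hDER σ N j hj)) (by
      intro x hx
      rw [LinearMap.comp_apply, mk_zero]
      exact hDRI _ _ (hσ j).1 _ hx)

theorem dq_mk (hDER : SpecDER) (hDRI : SpecDRI) (σ : ℕ → List Bool → ℤ) (hσ : Fam σ)
    (N j : ℕ) (hj : 2 * (j + 1) + 1 ≤ N) (x : HN N) :
    dq hDER hDRI σ hσ N j hj (mk N x) =
      mk (N - (2 * (j + 1) + 1)) ⟨Dj σ j x.1, dj_range hDER σ N j hj x.1 x.2⟩ := rfl

theorem jlt {N : ℕ} (j : Fin ((N - 1) / 2)) : 2 * (j.1 + 1) + 1 ≤ N := by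
  have := j.2
  omega

/-- the joint operator -/
noncomputable def PH (hDER : SpecDER) (hDRI : SpecDRI) (σ : ℕ → List Bool → ℤ) (hσ : Fam σ)
    (N : ℕ) : VN N →ₗ[ℚ] ((j : Fin ((N - 1) / 2)) → VN (N - (2 * (j.1 + 1) + 1))) :=
  LinearMap.pi fun j => dq hDER hDRI σ hσ N j.1 (jlt j)

theorem ker_ri (hDER : SpecDER) (hDRI : SpecDRI) (σ : ℕ → List Bool → ℤ) (hσ : Fam σ)
    (N : ℕ) (x : HN N) (hx : PH hDER hDRI σ hσ N (mk N x) = 0) :
    ∀ j, Dj σ j x.1 ∈ RI := by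
  intro j
  by_cases hj : 2 * (j + 1) + 1 ≤ N
  · have h1 := congrFun hx ⟨j, by omega⟩
    have h2 : dq hDER hDRI σ hσ N j hj (mk N x) = 0 := h1
    rw [dq_mk, mk_zero] at h2
    exact h2
  · have h1 : Mot.gr N x.1 = x.1 := hom_of_range x.2
    rw [← h1]
    unfold Dj
    rw [hDER.low _ _ _ _ (by omega)]
    exact Submodule.zero_mem _

/-- the functional which does not vanish at `(xy)^m` -/
theorem exists_phi (hRIB : SpecRIB) (hPER : SpecPER) (m : ℕ) :
    ∃ φ : H →ₗ[ℚ] ℚ, (∀ h ∈ RI, φ h = 0) ∧ φ (wd (zp m)) ≠ 0 := by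
  obtain ⟨P, hP, _⟩ := hPER
  have h0 : P (wd (zp m)) ≠ 0 := by
    rw [hP.adm _ (PiW.adm_zp m)]
    have : Z (wd (zp m)) = Zw (zp m) := by simp [Z, wd]
    rw [this, PiW.zw_zp]
    exact (PiW.zeta_pos m).ne'
  obtain ⟨μ, hμ⟩ : ∃ μ : Module.Dual ℚ ℝ, μ (P (wd (zp m))) ≠ 0 := by
    by_contra hc
    push Not at hc
    exact h0 ((Module.forall_dual_apply_eq_zero_iff ℚ _).1 hc)
  refine ⟨μ ∘ₗ P, ?_, hμ⟩
  intro h hh
  rw [LinearMap.comp_apply, hRIB.per P hP h hh, map_zero]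

theorem ker_le (hSEP : SpecSEP) (hDER : SpecDER) (hDRI : SpecDRI) (hRIB : SpecRIB)
    (hPER : SpecPER) (σ : ℕ → List Bool → ℤ) (hσ : Fam σ) (N : ℕ) :
    Module.finrank ℚ (LinearMap.ker (PH hDER hDRI σ hσ N)) ≤ if N % 2 = 0 then 1 else 0 := by
  split_ifs with hN
  · obtain ⟨m, hm⟩ : ∃ m, N = 2 * m := ⟨N / 2, by omega⟩
    obtain ⟨φ, h1, h2⟩ := exists_phi hRIB hPER m
    let φq : VN N →ₗ[ℚ] ℚ := lift N (φ ∘ₗ (HN N).subtype) (by
      intro x hx
      rw [LinearMap.comp_apply]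
      exact h1 _ hx)
    have hinj : Function.Injective (φq ∘ₗ (LinearMap.ker (PH hDER hDRI σ hσ N)).subtype) := by
      rw [← LinearMap.ker_eq_bot, LinearMap.ker_eq_bot']
      rintro ⟨y, hy⟩ h0
      obtain ⟨x, rfl⟩ := mk_surj N y
      rw [LinearMap.mem_ker] at hy
      have h3 := ker_ri hDER hDRI σ hσ N x hy
      have h4 : φ x.1 = 0 := h0
      have h5 := (hSEP σ hσ N x.1 (hom_of_range x.2) h3).2 m hm φ h1 h2 h4
      ext1
      exact (mk_zero N x).2 h5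
    have := LinearMap.finrank_le_finrank_of_injective hinj
    rwa [Module.finrank_self] at this
  · have : LinearMap.ker (PH hDER hDRI σ hσ N) = ⊥ := by
      rw [LinearMap.ker_eq_bot']
      intro y hy
      obtain ⟨x, rfl⟩ := mk_surj N y
      have h3 := ker_ri hDER hDRI σ hσ N x hy
      have h5 := (hSEP σ hσ N x.1 (hom_of_range x.2) h3).1 (by omega)
      exact (mk_zero N x).2 h5
    rw [this, finrank_bot]

/-- surjectivity by counting dimensions -/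
theorem surj_of {ι V : Type} [Fintype ι] {W : ι → Type} [AddCommGroup V] [Module ℚ V]
    [Module.Finite ℚ V] [∀ i, AddCommGroup (W i)] [∀ i, Module ℚ (W i)]
    [∀ i, Module.Finite ℚ (W i)] (f : V →ₗ[ℚ] ((i : ι) → W i))
    (h : (∑ i, Module.finrank ℚ (W i)) + Module.finrank ℚ (LinearMap.ker f) ≤
      Module.finrank ℚ V) : Function.Surjective f := by
  rw [← LinearMap.range_eq_top]
  apply Submodule.eq_top_of_finrank_eq
  have h1 := LinearMap.finrank_range_add_finrank_ker f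
  have h6 := Submodule.finrank_le (LinearMap.range f)
  rw [Module.finrank_pi_fintype] at h6 ⊢
  omega

theorem ker_le' (hSEP : SpecSEP) (hDIM : SpecDIM) (hDER : SpecDER) (hDRI : SpecDRI)
    (hRIB : SpecRIB) (hPER : SpecPER) (σ : ℕ → List Bool → ℤ) (hσ : Fam σ) (N : ℕ) :
    (∑ j : Fin ((N - 1) / 2), Module.finrank ℚ (VN (N - (2 * (j.1 + 1) + 1)))) +
      Module.finrank ℚ (LinearMap.ker (PH hDER hDRI σ hσ N)) ≤ Module.finrank ℚ (VN N) := by
  have h2 := ker_le hSEP hDER hDRI hRIB hPER σ hσ N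
  have h3 := finrank_vn hDIM N
  have h4 : (∑ j : Fin ((N - 1) / 2), Module.finrank ℚ (VN (N - (2 * (j.1 + 1) + 1)))) =
      ∑ j ∈ range ((N - 1) / 2), D (N - (2 * (j + 1) + 1)) := by
    rw [← Fin.sum_univ_eq_sum_range]
    apply Finset.sum_congr rfl
    intro j _
    exact finrank_vn hDIM _
  have h5 := D_rec N
  omega

theorem surj (hSEP : SpecSEP) (hDIM : SpecDIM) (hDER : SpecDER) (hDRI : SpecDRI) (hRIB : SpecRIB)
    (hPER : SpecPER) (σ : ℕ → List Bool → ℤ) (hσ : Fam σ) (N : ℕ) :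
    Function.Surjective (PH hDER hDRI σ hσ N) :=
  surj_of (PH hDER hDRI σ hσ N) (ker_le' hSEP hDIM hDER hDRI hRIB hPER σ hσ N)

end MP154526.Mot.SURM

namespace MP154526.Mot

open Finset MP154526.Bound MP154526.Top MP154526.Top.Pass2 MP154526.Lin MP154526.Low DIMM SURM

/-- SUR -/
theorem specSUR (hSEP : SpecSEP) (hDIM : SpecDIM) (hDER : SpecDER) (hDRI : SpecDRI)
    (hRIB : SpecRIB) (hPER : SpecPER) : SpecSUR := by
  intro σ hσ N η
  obtain ⟨y, hy⟩ := surj hSEP hDIM hDER hDRI hRIB hPER σ hσ N fun j =>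
    mk (N - (2 * (j.1 + 1) + 1)) ⟨Mot.gr (N - (2 * (j.1 + 1) + 1)) (η j.1), ⟨_, rfl⟩⟩
  obtain ⟨x, rfl⟩ := mk_surj N y
  refine ⟨x.1, hom_of_range x.2, ?_⟩
  intro j hj
  have h1 := congrFun hy ⟨j, by omega⟩
  have h2 : dq hDER hDRI σ hσ N j hj (mk N x) =
    mk (N - (2 * (j + 1) + 1)) ⟨Mot.gr (N - (2 * (j + 1) + 1)) (η j), ⟨_, rfl⟩⟩ := h1
  rw [dq_mk, ← sub_eq_zero, ← map_sub, SURM.mk_zero] at h2
  exact h2

end MP154526.Mot
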