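import Pool.Agent.Lib.MP_154526_nt.Mot.Spec
import Pool.Agent.Lib.MP_154526_nt.Low.Lower
import Pool.Agent.Lib.MP_154526_nt.Top.F2
import Pool.Agent.Lib.MP_154526_nt.Top.Alg
import Pool.Agent.Lib.MP_154526_nt.Low.Ideal
import Pool.Agent.Lib.MP_154526_nt.Mot.FIN
import Pool.Agent.Lib.MP_154526_nt.Mot.STA
import Pool.Agent.Lib.MP_154526_nt.Mot.SUR
import Pool.Agent.Lib.MP_154526_nt.Mot.COM
import Pool.Agent.Lib.MP_154526_nt.Mot.DRI

section
/-!
# KIL: functionals of odd weight kill the ideal and the decomposable elements
-/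
set_option autoImplicit false

namespace MP154526.Mot.KILM

open Finset MP154526.Bound MP154526.Top MP154526.Top.Pass2 MP154526.Lin MP154526.Low

theorem gr_wd (p : ℕ) (w : List Bool) : Mot.gr p (wd w) = if w.length = p then wd w else 0 := by
  simp [Mot.gr, wd]

theorem fn_wd (n : ℕ) (ψ : List Bool → ℤ) (w : List Bool) :
    fn n ψ (wd w) = if w.length = n then (ψ w : ℚ) else 0 := by
  simp [fn, wd]

theorem rep_zero (c : Bool) {n : ℕ} {ψ : List Bool → ℤ} (hψ : DW n ψ) :
    ψ (List.replicate n c) = 0 := by
  have h3 := hψ.three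
  have h1 := hψ.sh [c] (List.replicate (n - 1) c) (by simp) (by
    intro h
    have := congrArg List.length h
    simp at this
    omega) (by simp; omega)
  have h2 := F2.shs_replicate c 1 (n - 1) ψ
  rw [List.replicate_one, h1, show 1 + (n - 1) = n by omega, Nat.choose_one_right] at h2
  rw [nsmul_eq_mul] at h2
  rcases mul_eq_zero.1 h2.symm with h | h
  · have : n = 0 := by exact_mod_cast h
    omega
  · exact h

theorem bw_ne {u : List ℕ} (hu : u ≠ []) : bw u ≠ [] := by
  intro h
  have h1 := congrArg List.length h
  rw [bw_length, List.length_nil] at h1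
  cases u with
  | nil => exact hu rfl
  | cons a u =>
    rw [wt_cons] at h1
    omega

theorem rr_of_dw {n : ℕ} {ψ : List Bool → ℤ} (h : DW n ψ) : RR n ψ where
  reg := by
    intro j w hj _ hjw
    by_cases hw : w = []
    · subst hw
      rw [shs_nil_right]
      have : j = n := by simpa using hjw
      subst this
      exact rep_zero true h
    · apply h.sh _ w _ hw (by simpa using hjw)
      intro h'
      have := congrArg List.length h'
      simp at this
      omega
  rds := by
    intro u v hv hw
    by_cases hu : u = []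
    · subst hu
      rw [show bw [] = [] from rfl, shs_nil_left, stf_nil_left]
    · by_cases hv' : v = []
      · subst hv'
        rw [show bw [] = [] from rfl, shs_nil_right, stf_nil_right]
      · rw [h.sh _ _ (bw_ne hu) (bw_ne hv') (by rw [bw_length, bw_length, hw]),
          h.st u v hu hv' hv hw]

/-- products of nonempty words are killed -/
theorem fn_sh {n : ℕ} {ψ : List Bool → ℤ} (h : DW n ψ) (u v : List Bool) (hu : u ≠ [])
    (hv : v ≠ []) : fn n ψ (sh u v) = 0 := by
  have h1 := map_sh (fn n ψ).toAddMonoidHom u v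
  simp only [LinearMap.toAddMonoidHom_coe, fn_wd] at h1
  rw [h1]
  by_cases hl : u.length + v.length = n
  · have h2 := shs_map (Int.castAddHom ℚ) ψ u v
    simp only [Int.coe_castAddHom] at h2
    have h3 : shs (fun w => if w.length = n then (ψ w : ℚ) else 0) u v =
        shs (fun w => (ψ w : ℚ)) u v := by
      refine shs_congr_len _ _ fun l hll => ?_
      rw [if_pos (by omega)]
    rw [h3, ← h2, h.sh u v hu hv hl, Int.cast_zero]
  · refine Eq.trans (shs_congr_len _ _ fun l hll => ?_) (shs_zero (M := ℚ) u v)
    show (if l.length = n then (ψ l : ℚ) else 0) = 0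
    rw [if_neg (by omega)]

theorem H0_zero {a : H} (ha : a ∈ H0 0) : a = (a []) • wd [] := by
  rw [H0] at ha
  induction ha using Submodule.span_induction with
  | mem x hx =>
    obtain ⟨w, _, hw, rfl⟩ := hx
    have : w = [] := List.length_eq_zero_iff.1 hw
    subst this
    simp [wd]
  | zero => simp
  | add x y _ _ h1 h2 =>
    rw [Finsupp.add_apply, add_smul, ← h1, ← h2]
  | smul r x _ h =>
    rw [Finsupp.smul_apply, smul_eq_mul, mul_smul, ← h]

theorem Z_nil : Z (wd []) = 1 := by
  simp [Z, wd, Zw, toY, zeta]

theorem rds_zero (hEx : SpecExact) {a : H} (ha : a ∈ RDS 0) : a = 0 := by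
  have h1 := H0_zero ha.1
  have h2 := hEx.kill 0 a ha
  rw [h1, map_smul, Z_nil] at h2
  have h3 : a [] = 0 := by
    have : ((a [] : ℚ) : ℝ) = 0 := by
      rw [Rat.smul_def, mul_one] at h2
      exact h2
    exact_mod_cast this
  rw [h1, h3, zero_smul]

theorem fn_H0_ne {n p : ℕ} {ψ : List Bool → ℤ} (hp : p ≠ n) {a : H} (ha : a ∈ H0 p) :
    fn n ψ a = 0 := by
  rw [H0] at ha
  induction ha using Submodule.span_induction with
  | mem x hx =>
    obtain ⟨w, _, hw, rfl⟩ := hx
    rw [fn_wd, if_neg (by omega)]
  | zero => rw [map_zero]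
  | add x y _ _ h1 h2 => rw [map_add, h1, h2, add_zero]
  | smul r x _ h => rw [map_smul, h, smul_zero]

theorem fn_H0 {n : ℕ} {ψ : List Bool → ℤ} {a : H} (ha : a ∈ H0 n) : fn n ψ a = linL ψ a := by
  rw [H0] at ha
  induction ha using Submodule.span_induction with
  | mem x hx =>
    obtain ⟨w, _, hw, rfl⟩ := hx
    rw [fn_wd, if_pos hw, linL_wd]
  | zero => rw [map_zero, map_zero]
  | add x y _ _ h1 h2 => rw [map_add, map_add, h1, h2]
  | smul r x _ h => rw [map_smul, map_smul, h]

theorem sh_H0 {n p : ℕ} {ψ : List Bool → ℤ} (h : DW n ψ) (hp : p ≠ 0) {a : H} (ha : a ∈ H0 p)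
    {w : List Bool} (hw : w ≠ []) : fn n ψ (shuffle a (wd w)) = 0 := by
  rw [H0] at ha
  induction ha using Submodule.span_induction with
  | mem x hx =>
    obtain ⟨u, _, hu, rfl⟩ := hx
    rw [Alg.shuffle_wd]
    apply fn_sh h u w _ hw
    rintro rfl
    exact hp hu.symm
  | zero => rw [Alg.shuffle_zero_left, map_zero]
  | add x y _ _ h1 h2 => rw [Alg.shuffle_add_left, map_add, h1, h2, add_zero]
  | smul r x _ h => rw [Alg.shuffle_smul_left, map_smul, h, smul_zero]

theorem ri_word (hEx : SpecExact) {n : ℕ} {ψ : List Bool → ℤ} (h : DW n ψ) {a : H}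
    (ha : a = wd [false] ∨ a = wd [true] ∨ ∃ p, a ∈ RDS p) (w : List Bool) :
    fn n ψ (shuffle a (wd w)) = 0 := by
  have h3 := h.three
  by_cases hw : w = []
  · subst hw
    rw [Alg.shuffle_one_right]
    rcases ha with rfl | rfl | ⟨p, hp⟩
    · rw [fn_wd, if_neg (by simp; omega)]
    · rw [fn_wd, if_neg (by simp; omega)]
    · by_cases hpn : p = n
      · subst hpn
        rw [fn_H0 hp.1, ← lin_eq]
        exact LowM.kill (rr_of_dw h) a hp
      · exact fn_H0_ne hpn hp.1
  · rcases ha with rfl | rfl | ⟨p, hp⟩
    · rw [Alg.shuffle_wd]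
      exact fn_sh h _ _ (by simp) hw
    · rw [Alg.shuffle_wd]
      exact fn_sh h _ _ (by simp) hw
    · by_cases hp0 : p = 0
      · subst hp0
        rw [rds_zero hEx hp, Alg.shuffle_zero_left, map_zero]
      · exact sh_H0 h hp0 hp.1 hw

end MP154526.Mot.KILM

namespace MP154526.Mot

open Finset MP154526.Bound MP154526.Top MP154526.Top.Pass2 MP154526.Lin MP154526.Low KILM

/-- KIL -/
theorem specKIL (hEx : SpecExact) : SpecKIL where
  ri := by
    intro n ψ h x hx
    unfold RI at hx
    induction hx using Submodule.span_induction with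
    | mem x hx =>
      obtain ⟨a, b, ha, rfl⟩ := hx
      have key : fn n ψ ∘ₗ Alg.S a = 0 := by
        refine Alg.ext_wd fun w => ?_
        rw [LinearMap.comp_apply, LinearMap.zero_apply, Alg.S_apply]
        exact ri_word hEx h ha w
      exact LinearMap.congr_fun key b
    | zero => rw [map_zero]
    | add x y _ _ h1 h2 => rw [map_add, h1, h2, add_zero]
    | smul r x _ h => rw [map_smul, h, smul_zero]
  dec := by
    intro n ψ h hn x hx
    have h3 := h.three
    unfold Mot.dec at hx
    induction hx using Submodule.span_induction with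
    | mem x hx =>
      rcases hx with ⟨w, hw, rfl⟩ | ⟨u, v, hu, hv, rfl⟩
      · rw [fn_wd, if_neg (by omega)]
      · exact fn_sh h u v hu hv
    | zero => rw [map_zero]
    | add x y _ _ h1 h2 => rw [map_add, h1, h2, add_zero]
    | smul r x _ h => rw [map_smul, h, smul_zero]
  zd := by
    unfold zeta2
    rw [Submodule.span_le]
    rintro _ ⟨h, rfl⟩
    rw [SetLike.mem_coe]
    induction h using Finsupp.induction_linear with
    | zero => rw [Alg.shuffle_zero_right]; exact Submodule.zero_mem _
    | add f g hf hg => rw [Alg.shuffle_add_right]; exact Submodule.add_mem _ hf hg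
    | single w c =>
      have e : (Finsupp.single w c : H) = c • wd w := by simp [wd]
      rw [e, Alg.shuffle_smul_right, Alg.shuffle_wd]
      apply Submodule.smul_mem
      by_cases hw : w = []
      · subst hw
        rw [Alg.sh_nil_right]
        exact Submodule.subset_span (Or.inl ⟨[false, true], Or.inl rfl, rfl⟩)
      · exact Submodule.subset_span (Or.inr ⟨[false, true], w, by simp, hw, rfl⟩)

end MP154526.Mot
end

section
/-!
# TEN: membership in `A ⊗ H + H ⊗ B`
-/
set_option autoImplicit false

namespace MP154526.Mot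

open Finset MP154526.Bound MP154526.Top MP154526.Top.Pass2 MP154526.Lin MP154526.Low
open scoped TensorProduct

namespace TENM

theorem range_left (B : Submodule ℚ H) :
    LinearMap.range (LinearMap.lTensor H B.subtype) ≤ tens ⊤ B := by
  rintro _ ⟨t, rfl⟩
  induction t using TensorProduct.induction_on with
  | zero => rw [map_zero]; exact Submodule.zero_mem _
  | tmul a b =>
    rw [LinearMap.lTensor_tmul]
    exact Submodule.subset_span ⟨a, Submodule.mem_top, _, b.2, rfl⟩
  | add x y hx hy => rw [map_add]; exact Submodule.add_mem _ hx hy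

theorem range_right (A : Submodule ℚ H) :
    LinearMap.range (LinearMap.rTensor H A.subtype) ≤ tens A ⊤ := by
  rintro _ ⟨t, rfl⟩
  induction t using TensorProduct.induction_on with
  | zero => rw [map_zero]; exact Submodule.zero_mem _
  | tmul a b =>
    rw [LinearMap.rTensor_tmul]
    exact Submodule.subset_span ⟨_, a.2, b, Submodule.mem_top, rfl⟩
  | add x y hx hy => rw [map_add]; exact Submodule.add_mem _ hx hy

theorem rid_map {V : Type*} [AddCommGroup V] [Module ℚ V] (f : H →ₗ[ℚ] V) (β : H →ₗ[ℚ] ℚ)
    (t : H ⊗[ℚ] H) :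
    TensorProduct.rid ℚ V (TensorProduct.map f β t) =
      f (TensorProduct.rid ℚ H (TensorProduct.map LinearMap.id β t)) := by
  induction t using TensorProduct.induction_on with
  | zero => simp only [map_zero]
  | tmul a b =>
    simp only [TensorProduct.map_tmul, TensorProduct.rid_tmul, LinearMap.id_coe, id_eq, map_smul]
  | add x y hx hy => simp only [map_add, hx, hy]

end TENM

open TENM

theorem specTEN : SpecTEN := by
  intro A B t ht
  have hker : LinearMap.ker (TensorProduct.map A.mkQ B.mkQ) =
      LinearMap.range (LinearMap.lTensor H B.subtype) ⊔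
        LinearMap.range (LinearMap.rTensor H A.subtype) := by
    apply TensorProduct.map_ker
    · rw [LinearMap.exact_iff, Submodule.ker_mkQ, Submodule.range_subtype]
    · exact Submodule.mkQ_surjective A
    · rw [LinearMap.exact_iff, Submodule.ker_mkQ, Submodule.range_subtype]
    · exact Submodule.mkQ_surjective B
  have hzero : TensorProduct.map A.mkQ B.mkQ t = 0 := by
    classical
    let b := Module.Basis.ofVectorSpace ℚ (H ⧸ B)
    apply (TensorProduct.equivFinsuppOfBasisRight (M := H ⧸ A) b).injective
    rw [map_zero]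
    ext i
    rw [TensorProduct.equivFinsuppOfBasisRight_apply, Finsupp.zero_apply]
    have h1 : (LinearMap.lTensor (H ⧸ A) (b.coord i)) (TensorProduct.map A.mkQ B.mkQ t) =
        TensorProduct.map A.mkQ (b.coord i ∘ₗ B.mkQ) t := by
      rw [LinearMap.lTensor, ← LinearMap.comp_apply, ← TensorProduct.map_comp, LinearMap.id_comp]
    rw [h1, rid_map, ← LinearMap.mem_ker, Submodule.ker_mkQ]
    apply ht
    intro x hx
    have h2 : B.mkQ x = 0 := (Submodule.Quotient.mk_eq_zero B).mpr hx
    rw [LinearMap.comp_apply, h2, map_zero]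
  have hmem : t ∈ LinearMap.ker (TensorProduct.map A.mkQ B.mkQ) := LinearMap.mem_ker.mpr hzero
  rw [hker] at hmem
  have hle : LinearMap.range (LinearMap.lTensor H B.subtype) ⊔
        LinearMap.range (LinearMap.rTensor H A.subtype) ≤ tens A ⊤ ⊔ tens ⊤ B :=
    sup_le ((range_left B).trans le_sup_right) ((range_right A).trans le_sup_left)
  exact hle hmem

end MP154526.Mot
end

section
/-!
# The relations of motivic multiple zeta values: assembly
-/
set_option autoImplicit false

namespace MP154526.Mot

theorem allDRI : SpecDRI := specDRI specDER specRIB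

theorem allSEP : SpecSEP := specSEP specIND allDRI specPER specRIB

theorem allSUR : SpecSUR :=
  specSUR allSEP (specDIM Low.asmExact specRIB) specDER allDRI specRIB specPER

theorem allCRI : SpecCRI := specCRI allSUR allSEP specDER specRIB specPER

theorem allSTA : SpecSTA := specSTA (specCOM specDER) specCNT allCRI allDRI specTEN specRIB

theorem allMAX : SpecMAX := specMAX specPSI (specKIL Low.asmExact) allSEP specDER specRIB

theorem finAll : SpecFIN := specFIN specPER specRIB (specKIL Low.asmExact) allSTA allMAX

end MP154526.Mot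
end
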