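import Pool.Agent.Lib.MP_154526_nt.Low.Defs

/-!
# The relations of motivic multiple zeta values: definitions

`H = ℚ⟨x,y⟩`, `false = x`, `true = y`.  The word `a₁⋯a_n` stands for the iterated integral of
`ω_{a₁}(x₁)⋯ω_{a_n}(x_n)` over `1 > x₁ > ⋯ > x_n > 0`, `ω_x = dx/x`, `ω_y = dx/(1-x)`: the letter `x`
belongs to the point `0`, the letter `y` to the point `1`, and the path runs from `1` to `0`.
-/

set_option autoImplicit false

namespace MP154526.Mot

open Finset MP154526.Bound MP154526.Low
open scoped TensorProduct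

/-- The iterated integral `I(l; w; r)` along the path from `l` to `r`, as an element of the shuffle
algebra: it is `1` if `w` is empty; otherwise it is `0` if `l = r`, `w` if `(l, r) = (y, x)` (the
path from `1` to `0`), and `(-1)^{|w|}` times the reversed word if `(l, r) = (x, y)`. -/
noncomputable def seg (l r : Bool) (w : List Bool) : H :=
  if w = [] then wd [] else
    if l = r then 0 else
      if l = true then wd w else (-1 : ℚ) ^ w.length • wd w.reverse

/-- `g ↦ h ⧢ g` -/
noncomputable def shL (h : H) : H →ₗ[ℚ] H := Finsupp.linearCombination ℚ fun w => shuffle h (wd w)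

/-- `g ↦ a g` for a letter `a` -/
noncomputable def lmL (a : Bool) : H →ₗ[ℚ] H := Finsupp.linearCombination ℚ fun w => wd (a :: w)

/-- The part of the coaction which belongs to the rest `w` of a word, when `l` is the last chosen
letter and `u` is the word of the letters which were read since.  The next letter `a` is either not
chosen, or it is chosen; in this case the gap `u` gives the factor `I(l; u; a)` on the left, and `a`
is written on the right.  At the end the last gap gives the factor `I(l; u; x)`. -/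
noncomputable def gon : Bool → List Bool → List Bool → H ⊗[ℚ] H
  | l, u, [] => seg l false u ⊗ₜ[ℚ] wd []
  | l, u, a :: w => gon l (u ++ [a]) w +
      TensorProduct.map (shL (seg l a u)) (lmL a) (gon a [] w)

/-- The coaction of Goncharov and Brown,
`Δ(a₁⋯a_n) = ∑ (∏_{j=0}^k I(a_{i_j}; a_{i_j+1}⋯a_{i_{j+1}-1}; a_{i_{j+1}})) ⊗ a_{i₁}⋯a_{i_k}`, the sum
over all `0 = i₀ < i₁ < ⋯ < i_k < i_{k+1} = n+1`, with `a₀ = y` and `a_{n+1} = x`. -/
noncomputable def coact : H →ₗ[ℚ] H ⊗[ℚ] H := Finsupp.linearCombination ℚ fun w => gon true [] w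

/-- the projection to the part of weight `p` -/
noncomputable def gr (p : ℕ) : H →ₗ[ℚ] H :=
  Finsupp.linearCombination ℚ fun w => if w.length = p then wd w else 0

/-- `P` is the regularised period map: the algebra map from `(ℚ⟨x,y⟩, ⧢)` to `ℝ` which extends
`Z : ℌ⁰ → ℝ` and kills the letters `x` and `y`. -/
structure IsPer (P : H →ₗ[ℚ] ℝ) : Prop where
  adm : ∀ w, Adm w → P (wd w) = Z (wd w)
  x : P (wd [false]) = 0
  y : P (wd [true]) = 0
  mul : ∀ a b : H, P (shuffle a b) = P a * P b

/-- the span of the `a ⊗ b`, `a ∈ A`, `b ∈ B` -/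
noncomputable def tens (A B : Submodule ℚ H) : Submodule ℚ (H ⊗[ℚ] H) :=
  Submodule.span ℚ {z | ∃ a ∈ A, ∃ b ∈ B, z = a ⊗ₜ[ℚ] b}

/-- the ideal of `(H, ⧢)` generated by `xy`, that is by `ζ(2)` -/
noncomputable def zeta2 : Submodule ℚ H := Submodule.span ℚ {z | ∃ h, z = shuffle (wd [false, true]) h}

/-- `J` is a system of motivic relations: a graded subspace of the kernel of the period map `P` which
is stable under the coaction, `Δ J ⊆ (J + ζ(2) H) ⊗ H + H ⊗ J`. -/
structure Motivic (P : H →ₗ[ℚ] ℝ) (J : Submodule ℚ H) : Prop where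
  graded : ∀ h ∈ J, ∀ p, gr p h ∈ J
  per : ∀ h ∈ J, P h = 0
  stable : ∀ h ∈ J, coact h ∈ tens (J ⊔ zeta2) ⊤ ⊔ tens ⊤ J

/-- the span of the words of even length or of length one and of the shuffle products of nonempty
words: what is invisible in Brown's operators `D_r`, `r` odd, `r ≥ 3` -/
noncomputable def dec : Submodule ℚ H :=
  Submodule.span ℚ {z | (∃ w : List Bool, (w.length % 2 = 0 ∨ w.length = 1) ∧ z = wd w) ∨
    ∃ u v : List Bool, u ≠ [] ∧ v ≠ [] ∧ z = sh u v}

/-- The weaker condition that `J` is stable only under Brown's infinitesimal coactions `D_r`, `r` odd,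
`r ≥ 3`: the left factor counts modulo products, and only its parts of odd weight `r ≥ 3` count. -/
structure Weak (P : H →ₗ[ℚ] ℝ) (J : Submodule ℚ H) : Prop where
  graded : ∀ h ∈ J, ∀ p, gr p h ∈ J
  per : ∀ h ∈ J, P h = 0
  stable : ∀ h ∈ J, coact h ∈ tens (J ⊔ dec) ⊤ ⊔ tens ⊤ J

/-- the ideal of `(H, ⧢)` generated by the letters and the regularised double shuffle elements -/
noncomputable def RI : Submodule ℚ H :=
  Submodule.span ℚ {z | ∃ a b : H, (a = wd [false] ∨ a = wd [true] ∨ ∃ p, a ∈ RDS p) ∧
    z = shuffle a b}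

/-- the graded kernel of `P`: all the linear relations of one weight -/
noncomputable def grKer (P : H →ₗ[ℚ] ℝ) : Submodule ℚ H :=
  ⨅ p : ℕ, LinearMap.ker (P ∘ₗ gr p)

end MP154526.Mot
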