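import Pool.Agent.Lib.MP_154526_nt.Mot.Defs
import Pool.Agent.Lib.MP_154526_nt.Low.Ind

/-!
# The relations of motivic multiple zeta values: exact statements of all modules

GOAL (`SpecFIN`): the largest graded subspace of the kernel of the regularised period map which is
stable under the coaction of Goncharov and Brown is the ideal `RI` generated by the letters and the
regularised double shuffle elements, and `RI ∩ ℌ⁰_p` is the span of the regularised double shuffle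
elements of weight `p`.

Notation of the docstrings: `R = RI`, `n_j = 2 j + 3` (written `2 * (j + 1) + 1`), `D_j` the operator
`Dw n_j (σ j)`, `F_N` the words of length `N` modulo `R`.  A functional on the words of length `n` is
a function `ψ : List Bool → ℤ` of which only the values on words of length `n` matter.

RULES: file `Mot/XXX.lean`, `theorem specXXX (hYYY : SpecYYY) .. : SpecXXX`, any other Spec may be
used as a hypothesis, own lemmas in the namespace `MP154526.Mot.XXXM`.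
-/

set_option autoImplicit false

namespace MP154526.Mot

open Finset MP154526.Bound MP154526.Top MP154526.Top.Pass2 MP154526.Lin MP154526.Low
open scoped TensorProduct

/-! ### auxiliary definitions -/

/-- `ψ` kills the shuffle products of nonempty words (weight `n`) -/
def Kp (n : ℕ) (ψ : List Bool → ℤ) : Prop :=
  1 ≤ n ∧ ∀ u v : List Bool, u ≠ [] → v ≠ [] → u.length + v.length = n → shs ψ u v = 0

/-- the functional of weight `n` with the values `ψ`; it is zero on words of other lengths -/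
noncomputable def fn (n : ℕ) (ψ : List Bool → ℤ) : H →ₗ[ℚ] ℚ :=
  Finsupp.linearCombination ℚ fun w => if w.length = n then (ψ w : ℚ) else 0

/-- `D_ψ(w) = ∑_{w = a u b, |u| = n} ([a = 1 or a ends in y] - [b starts with y]) ψ(u) ab`; the
functional `φ ∘ D_ψ` is `T n ψ φ` -/
noncomputable def Dw (n : ℕ) (ψ : List Bool → ℤ) : H →ₗ[ℚ] H :=
  Finsupp.linearCombination ℚ fun w => T n (fun u => (ψ u : ℚ)) wd w

/-- `Sg j` of `Low/LynOp.lean` for all `j`: `σ j` is an element of weight `2 j + 3` of the double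
shuffle Lie algebra (`DW`), the coefficient of one word is odd -/
def Fam (σ : ℕ → List Bool → ℤ) : Prop := ∀ j, Ops.Sg j (σ j)

/-- the operator `D_j` -/
noncomputable def Dj (σ : ℕ → List Bool → ℤ) (j : ℕ) : H →ₗ[ℚ] H := Dw (2 * (j + 1) + 1) (σ j)

/-- `h` is homogeneous of weight `p` -/
def Hom (p : ℕ) (h : H) : Prop := gr p h = h

/-! ### the coaction -/

/-- COM [250]: `Δ ∘ D_ψ = (D_ψ ⊗ 1) ∘ Δ`.
PROOF. For a word `v`, a factorisation `v = a U b`, `|U| = n` and boundary letters `l`, `r` put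
`c(l,a,b,r) = [l a ends in y] - [b r starts with y]` (so `c` looks at `l` if `a = 1`, at `r` if
`b = 1`).
(1) `D_ψ(seg l r g) = ∑_{g = aUb} c(l,a,b,r) ψ(U) seg l r (ab)`.  If `(l,r) = (y,x)` this is the
definition of `D_ψ`.  If `l = r` both sides vanish: on the right only `ab = 1` contributes, and there
`c = 0`.  If `(l,r) = (x,y)`: `D_ψ((-1)^{|g|} rev g)`; the factorisation `rev g = a'U'b'` corresponds
to `g = aUb`, `a = rev b'`, `U = rev U'`, `b = rev a'`, and `ψ(rev U) = (-1)^{n+1} ψ(U)` because `ψ`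
kills products (`∑ (-1)^i u_i ⧢ rev(v_i) = 0` over the factorisations `U = u_i v_i`; compare
`Sm_eq`, `anti` in `Low/Anti.lean`); so the term is
`(-1)^{|ab|} (-1) ([b = 1 or b starts with y] - [a ends in y]) ψ(U) rev(ab)`.
(2) CLAIM, by induction on `w`, for all `l`, `u`:
`(D_ψ ⊗ 1)(gon l u w) = A(l,u,w) + TT n ψ (last letter of l u) (fun v => gon l u v) w`, where
`A(l,u,w) = ∑_{i < |u|}` (the term of the factorisation `u w = a U b`, `|a| = i`, with coefficient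
`c(l,a,b,x) ψ(U)`, namely `gon l (u without U) w` if `i + n ≤ |u|`, and
`gon l (u.take i) (w.drop (n + i - |u|))` otherwise; it is `0` if `i + n > |u w|`).
`w = 1`: this is (1).  `w = s w'`: `gon l u (s w') = gon l (u s) w' + (seg l s u ⧢ ⊗ s) gon s [] w'`,
`D_ψ` is a derivation for `⧢` (`specShW`), so by induction the left side is
`A(l,us,w') + TT .. s (gon l (us) ·) w' + (D_ψ(seg l s u) ⧢ ⊗ s) gon s [] w' +
(seg l s u ⧢ ⊗ s) TT .. s (gon s [] ·) w'`.  The right side is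
`A(l,u,sw') + hd n ψ _ (gon l u ·) (s w') + TT .. s (fun v => gon l u (s v)) w'`.  The two `TT`-terms on
the left give the last one on the right.  In `A(l,us,w')` the term `i = |u|` is the `hd`-term, the
terms with `i + n > |u|` agree with those of `A(l,u,sw')`, and for `i + n ≤ |u|` the difference is
`c ψ(U) (seg l s (u without U) ⧢ ⊗ s) gon s [] w'`; the sum of these is
`(D_ψ(seg l s u) ⧢ ⊗ s) gon s [] w'` by (1).
(3) `l = y`, `u = []` is the statement for `h = wd w`. -/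
def SpecCOM : Prop :=
  ∀ (n : ℕ) (ψ : List Bool → ℤ), Kp n ψ →
    ∀ h : H, coact (Dw n ψ h) = TensorProduct.map (Dw n ψ) LinearMap.id (coact h)

/-- PSI [150] (from CNT or by itself): `(ψ ⊗ 1) Δ = D_ψ`.
PROOF. Let `Ψ = (fn n ψ ⊗ 1)`.  CLAIM, by induction on `w`: (a) `Ψ(gon l [] w) = TT n ψ l wd w`;
(b) for `1 ≤ |u| ≤ n`: `Ψ(gon l u w) = hd n ψ l wd (u w)`; (c) for `|u| > n`: `Ψ(gon l u w) = 0`.
`gon l u (s w') = gon l (u s) w' + (seg l s u ⧢ ⊗ s) gon s [] w'`.  If `u = []` then `seg l s u = 1`,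
and (a) is the recursion of `TT`.  If `u ≠ []`, then `fn n ψ (seg l s u ⧢ g) = fn n ψ (seg l s u) ε(g)`
because `ψ` kills products, and `(ε ⊗ 1) gon s [] w' = w'` (CNT, general `s`), so the second term is
`[|u| = n] ([l = y] - [s = y]) ψ(u) s w'` (`ψ(seg x y u) = (-1)^n ψ(rev u) = -ψ(u)`, see COM).
`w = []`: `Ψ(seg l x u ⊗ 1) = [|u| = n] [l = y] ψ(u)`. -/
def SpecPSI : Prop :=
  ∀ (n : ℕ) (ψ : List Bool → ℤ), Kp n ψ →
    ∀ h : H, TensorProduct.lid ℚ H (TensorProduct.map (fn n ψ) LinearMap.id (coact h)) = Dw n ψ h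

/-- CNT [80]: the counit, `(ε ⊗ 1) Δ = 1`, `ε` = coefficient of the empty word.  Please prove the
more general lemma `CNTM.gon_eps : (ε ⊗ 1) (gon l [] w) = w` for all `l` (for PSI).
PROOF. `ε(a ⧢ b) = ε(a) ε(b)`, `ε(seg l r u) = 0` for `u ≠ []`; induction on `w`:
`(ε ⊗ 1) gon l [] w = w`, `(ε ⊗ 1) gon l u w = 0` for `u ≠ []`. -/
def SpecCNT : Prop :=
  ∀ h : H, TensorProduct.lid ℚ H
    (TensorProduct.map (Finsupp.lapply ([] : List Bool)) LinearMap.id (coact h)) = h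

/-! ### the operators -/

/-- DER [120]: elementary properties of `D_ψ`.
PROOF. `der`: `specShW` with `M = H`, `φ = wd`, and `shuffle (wd u) (wd v) = sh u v`; the leading
lemma is `map_sh` of `Top`, see `leib` in `Low/Ptr.lean`.  `gr`: every term of `D_ψ(w)` has length
`|w| - n`. `zk`: `T_xy` in `Low/Flow.lean` (the factorisations of `x^k y`, `n ≤ k`; `ψ(x^n) = 0`
because `ψ` kills `x ⧢ x^{n-1}`, `n ≥ 2`). -/
structure SpecDER : Prop where
  der : ∀ (n : ℕ) (ψ : List Bool → ℤ), Kp n ψ → ∀ a b : H,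
    Dw n ψ (shuffle a b) = shuffle (Dw n ψ a) b + shuffle a (Dw n ψ b)
  gr : ∀ (n : ℕ) (ψ : List Bool → ℤ) (m : ℕ) (h : H), Mot.gr m (Dw n ψ h) = Dw n ψ (Mot.gr (m + n) h)
  low : ∀ (n : ℕ) (ψ : List Bool → ℤ) (m : ℕ) (h : H), m < n → Dw n ψ (Mot.gr m h) = 0
  zk : ∀ (n : ℕ) (ψ : List Bool → ℤ), Kp n ψ → 2 ≤ n → ∀ k, n ≤ k →
    Dw n ψ (wd (List.replicate k false ++ [true])) = 0
  top : ∀ (n : ℕ) (ψ : List Bool → ℤ), 1 ≤ n → ∀ h : H, Dw n ψ (Mot.gr n h) = fn n ψ h • wd []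

/-- PER [100]: there is exactly one regularised period map.
PROOF. Existence: `F` of `Low/Ptr.lean` (`specPtR`, `F_mul`, with `specZshuf`, `asmZrds`).
Uniqueness: `h - G h` lies in the ideal generated by the letters (`Slice.pr_spec`, twice), `G h` in
`ℌ⁰` (`G_mem`), so `P' h = P' (G h) = Z (G h)`. -/
def SpecPER : Prop := ∃ P : H →ₗ[ℚ] ℝ, IsPer P ∧ ∀ P', IsPer P' → P' = P

/-- RIB [200]: elementary properties of `R = RI`.
PROOF. `h0`: if `h ∈ ℌ⁰_p` lies in `R`, apply the algebra map `G` (`Low/Ptr.lean`; `G = 1` on `ℌ⁰`,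
`G x = G y = 0`): `h = ∑ a_i ⧢ G(b_i)` with `a_i ∈ RDS q_i`, `G(b_i) ∈ ℌ⁰`; take the parts of
weight `p` and use `ideal` of `Low/Ideal.lean`.  `span`: `h - G h` is in the ideal of the letters,
`G h ∈ ℌ⁰`, and `ℌ⁰_N = span RDS N + span of the expanded words` (`asmStatement N`, field `span`).
`per`: `P` kills the letters and `RDS p` (`P = Z` on `ℌ⁰`, `asmExact.kill`). -/
structure SpecRIB : Prop where
  ideal : ∀ a ∈ RI, ∀ b : H, shuffle a b ∈ RI
  gr : ∀ h ∈ RI, ∀ p, Mot.gr p h ∈ RI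
  h0 : ∀ p, ∀ h ∈ H0 p, h ∈ RI ↔ h ∈ Submodule.span ℚ (RDS p)
  per : ∀ P : H →ₗ[ℚ] ℝ, IsPer P → ∀ h ∈ RI, P h = 0
  span : ∀ N, ∀ h : H, Mot.gr N h ∈ RI ⊔
    Submodule.span ℚ {z | ∃ w, (expand w).length = N ∧ z = wd (expand w)}
  h0ex : ∀ p, ∀ h : H, Hom p h → ∃ h₀ ∈ H0 p, h - h₀ ∈ RI

/-- KIL [100] (from RIB): `ψ ∈ DW` of odd weight kills `R` and `dec`.
PROOF. Products of elements without constant term are killed; a generator `a ⧢ b` of `R`,
`a ∈ {x, y}` or `a ∈ RDS q` (`q ≥ 2`, or `a = 0`), `b` a word, is such a product or `b = 1`.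
`ψ(x) = ψ(y) = 0` since `n ≥ 3`.  For `b = 1` and `a ∈ RDS n`: `DW.sh`, `DW.st` (`reg` changes the
element by multiples of `y`); compare `kill` in `Low/Lower.lean` for `RR`.  `zd`: `xy ⧢ w` is `xy`
for `w = 1`, otherwise a product of nonempty words. -/
structure SpecKIL : Prop where
  ri : ∀ (n : ℕ) (ψ : List Bool → ℤ), DW n ψ → ∀ h ∈ RI, fn n ψ h = 0
  dec : ∀ (n : ℕ) (ψ : List Bool → ℤ), DW n ψ → n % 2 = 1 → ∀ h ∈ Mot.dec, fn n ψ h = 0
  zd : zeta2 ≤ Mot.dec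

/-- DRI [150] (from DER, RIB): `D_ψ R ⊆ R`.
PROOF. `D_ψ` is a derivation and kills the letters (`n ≥ 3`).  Let `a ∈ RDS q`; if `q < n` then
`D_ψ a = 0`.  Otherwise `D_ψ a ∈ ℌ⁰_{q-n}` (words `w ∈ ℌ⁰`, `T_congr_ad` in `Low/RacW.lean`), and by
`IdealM.mem_of_kill` it is enough that `linL φ (D_ψ a) = linL (T n ψ φ) a = 0` for `φ ∈ IdealM.RJ`:
`IdealM.closure` and `IdealM.kill_span`. -/
def SpecDRI : Prop := ∀ (n : ℕ) (ψ : List Bool → ℤ), DW n ψ → ∀ h ∈ RI, Dw n ψ h ∈ RI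

/-! ### injectivity, surjectivity -/

/-- IND [60]: `Ops.indP` (`Low/Ind.lean`) with the closure only for the given family `σ`.
PROOF. Copy of the proof of `indP`; the `ψ` given by `desc` is replaced by `σ j`. -/
def SpecIND : Prop :=
  ∀ σ : ℕ → List Bool → ℤ, Fam σ → ∀ Pr : ℕ → (List Bool → ℤ) → Prop,
    (∀ (j m : ℕ) (φ : List Bool → ℤ), Pr m φ →
      Pr (2 * (j + 1) + 1 + m) (T (2 * (j + 1) + 1) (σ j) φ)) →
    (∀ m : ℕ, ∃ φ : List Bool → ℤ, Pr (2 * m) φ ∧ φ (zp m) ≠ 0) →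
    ∀ (N : ℕ) (S : Finset (List Bool)) (c : List Bool → ℤ), (∀ s ∈ S, (expand s).length = N) →
      (∀ φ : List Bool → ℤ, Pr N φ → ∑ s ∈ S, c s * φ (expand s) = 0) → ∀ s ∈ S, c s = 0

/-- SEP [200] (from IND, DRI, DER, PER, RIB): the common kernel of the `D_j`.
PROOF. By `RIB.span` we may assume that `ξ` is a combination of expanded words of length `N`, after
multiplication by an integer with integral coefficients `c`.  Put
`Pr m χ := (fn m χ kills R) ∧ (m = N → fn m χ ξ = 0)`.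
Closure: `fn (n_j + m) (T n_j (σ j) χ) = fn m χ ∘ D_j`; it kills `R` by DRI, and for `n_j + m = N` it
kills `ξ` since `D_j ξ ∈ R`.  Base: for `2 m ≠ N` take `χ` = a multiple of `μ ∘ P` on the words of
length `2 m`, `P` the period map, `μ : ℝ → ℚ` linear with `μ(P((xy)^m)) ≠ 0`
(`PiW.zeta_pos`, `PiW.zw_zp`; integral values on the finitely many words by `ExW.clear`); for
`2 m = N` a multiple of the given `φ`.  By IND all coefficients of `ξ` vanish. -/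
def SpecSEP : Prop :=
  ∀ σ : ℕ → List Bool → ℤ, Fam σ → ∀ (N : ℕ) (ξ : H), Hom N ξ → (∀ j, Dj σ j ξ ∈ RI) →
    (N % 2 = 1 → ξ ∈ RI) ∧
    ∀ m, N = 2 * m → ∀ φ : H →ₗ[ℚ] ℚ, (∀ h ∈ RI, φ h = 0) → φ (wd (zp m)) ≠ 0 → φ ξ = 0 → ξ ∈ RI

/-- DIM [100] (from RIB): `dim F_N = D_N`.
PROOF. `ℌ⁰_N / span RDS N → F_N` is bijective (`RIB.h0`, `RIB.h0ex`), `asmExact.codim`. -/
def SpecDIM : Prop :=
  ∀ N, Module.finrank ℚ (LinearMap.range (gr N) ⧸ RI.comap (LinearMap.range (gr N)).subtype) = D N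

/-- SUR [200] (from SEP, DIM, DER, DRI, RIB, PER): the map `F_N → ∏_{n_j ≤ N} F_{N - n_j}`,
`ξ ↦ (D_j ξ)_j` is surjective.
PROOF. By SEP its kernel is `0` for odd `N` and of dimension at most one for even `N` (the functional
`μ ∘ P` with `μ(P((xy)^m)) ≠ 0` is injective on it).  So the rank is at least `D_N - [N even]`, and
`D_N = ∑_{n_j ≤ N} D_{N - n_j} + [N even]` (induction on `N` from `D_N = D_{N-2} + D_{N-3}`). -/
def SpecSUR : Prop :=
  ∀ σ : ℕ → List Bool → ℤ, Fam σ → ∀ (N : ℕ) (η : ℕ → H),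
    ∃ ξ, Hom N ξ ∧ ∀ j, 2 * (j + 1) + 1 ≤ N → Dj σ j ξ - gr (N - (2 * (j + 1) + 1)) (η j) ∈ RI

/-- CRI [200] (from SUR, SEP, DER, DRI, RIB, PER): the elements which vanish modulo `R + ζ(2) H`.
PROOF. The parts of `ξ` satisfy the hypothesis (DER.gr), so let `ξ` be homogeneous of weight `N`;
induction on `N`.  `N = 0`: `L = []` gives `ξ = 0`.  `N > 0`: `D_j ξ` satisfies the hypothesis, so
`D_j ξ = r_j + xy ⧢ η_j`, `r_j ∈ R`, for `n_j ≤ N`, `η_j` homogeneous of weight `N - n_j - 2` (take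
parts; `η_j = 0` if `N - n_j < 2`: then `D_j ξ ∈ R`).  By SUR in weight `N - 2` there is `η` with
`D_j η - η_j ∈ R` for all `j` with `n_j ≤ N - 2` (`N ≥ 2`; for `N = 1` all is in `R`, SEP).
`ξ' = ξ - xy ⧢ η`: `D_j(xy) = 0`, so `D_j ξ' ∈ R` for all `j`.  `N` odd: `ξ' ∈ R` by SEP.  `N = 2 m`:
`ζ = (xy)^{⧢ m}`, `D_j ζ = 0`, `φ = μ ∘ P`, `μ(P(ζ)) ≠ 0`; note `P ζ = P(xy)^m > 0`.  Choose `μ` with
`μ(P((xy)^m)) ≠ 0`, so `φ(wd (zp m)) ≠ 0`; `φ ζ ≠ 0` too, otherwise `ζ ∈ R` by SEP and `P ζ = 0`;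
`ξ' - (φ ξ'/φ ζ) ζ ∈ R` by SEP. -/
def SpecCRI : Prop :=
  ∀ σ : ℕ → List Bool → ℤ, Fam σ → ∀ ξ : H,
    (∀ L : List ℕ, (L.foldl (fun h j => Dj σ j h) ξ : H) [] = 0) → ξ ∈ RI ⊔ zeta2

/-! ### assembly -/

/-- TEN [80]: linear algebra.
PROOF. Let `q : H → H/A`, `q' : H → H/B`.  The kernel of `q ⊗ q'` is `A ⊗ H + H ⊗ B`
(`TensorProduct.map_ker`).  If `(q ⊗ q') t ≠ 0` choose a basis `b_i` of `H/B`, write
`(q ⊗ q') t = ∑ v_i ⊗ b_i`, some `v_i ≠ 0`, and take `β` = coordinate `i` composed with `q'`. -/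
def SpecTEN : Prop :=
  ∀ (A B : Submodule ℚ H) (t : H ⊗[ℚ] H),
    (∀ β : H →ₗ[ℚ] ℚ, (∀ b ∈ B, β b = 0) →
      TensorProduct.rid ℚ H (TensorProduct.map LinearMap.id β t) ∈ A) →
    t ∈ tens A ⊤ ⊔ tens ⊤ B

/-- STA [100] (from COM, CNT, CRI, DRI, TEN, RIB): `R` is a system of motivic relations.
PROOF. Let `h ∈ R`, `β` a functional which kills `R`, `τ = (1 ⊗ β) Δ h`.  By TEN we have to show
`τ ∈ R + ζ(2) H`, by CRI that `ε(D_{j_k} ⋯ D_{j_1} τ) = 0`.  By COM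
`D_{j_k} ⋯ D_{j_1} τ = (1 ⊗ β) Δ(D_{j_k} ⋯ D_{j_1} h)`, so by CNT
`ε(..) = β(D_{j_k} ⋯ D_{j_1} h) = 0`, since `D_j R ⊆ R`. -/
def SpecSTA : Prop := ∀ P : H →ₗ[ℚ] ℝ, IsPer P → Motivic P RI

/-- MAX [200] (from PSI, KIL, SEP, DER, DRI, RIB, PER): every weak system of motivic relations is
in `R`.
PROOF. `J` weak.  Induction on `N`: `ξ ∈ J` homogeneous of weight `N` is in `R`.  Let `n_j < N`.
`D_j ξ = (ψ ⊗ 1) Δ ξ`, `ψ = fn n_j (σ j)` (PSI).  `ψ` kills `J + dec`: for `h ∈ J` we have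
`ψ h = ψ (gr n_j h)`, `gr n_j h ∈ J` is in `R` by induction, KIL.  So
`D_j ξ ∈ (ψ ⊗ 1)(H ⊗ J) ⊆ J`, homogeneous of weight `N - n_j < N`, hence in `R`.
`N` even: `φ = μ ∘ P` with `μ(P((xy)^m)) ≠ 0`; `P ξ = 0`, so `ξ ∈ R` by SEP (`n_j ≠ N`, `D_j ξ = 0`
for `n_j > N`).  `N` odd, `N = 1`: SEP.  `N = 2 r + 3`: `z = x^{N-1} y`, `a = σ_r(z)`.  `D_j z = 0`
for `n_j < N` (DER.zk).  If `a = 0` then `D_r z = 0` (DER.top), so `z ∈ R` by SEP and
`P z = ζ(N) = 0`, a contradiction.  `ξ' = ξ - (σ_r(ξ)/a) z` satisfies `D_j ξ' ∈ R` for all `j`, so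
`ξ' ∈ R`, `0 = P ξ' = - (σ_r(ξ)/a) ζ(N)`, so `σ_r(ξ) = 0` and `ξ = ξ' ∈ R`. -/
def SpecMAX : Prop := ∀ P : H →ₗ[ℚ] ℝ, IsPer P → ∀ J : Submodule ℚ H, Weak P J → J ≤ RI

/-- FIN [100] (from PER, RIB, KIL, STA, MAX): the result.
PROOF of the last parts: if Q1 holds in all weights, then the graded kernel is `R`: for `h` in it
`gr p h = h₀ + r`, `h₀ ∈ ℌ⁰_p`, `r ∈ R` (`RIB.h0ex`), `Z h₀ = P h₀ = 0`, so `h₀ ∈ span RDS p ⊆ R`. -/
def SpecFIN : Prop :=
  ∃ P : H →ₗ[ℚ] ℝ, IsPer P ∧ (∀ P', IsPer P' → P' = P) ∧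
    Motivic P RI ∧ (∀ a ∈ RI, ∀ b : H, shuffle a b ∈ RI) ∧
    (∀ J : Submodule ℚ H, Motivic P J → Weak P J) ∧ (∀ J : Submodule ℚ H, Weak P J → J ≤ RI) ∧
    (∀ p, ∀ h ∈ H0 p, h ∈ RI ↔ h ∈ Submodule.span ℚ (RDS p)) ∧
    ((∀ p, ∀ h ∈ H0 p, Z h = 0 → h ∈ Submodule.span ℚ (RDS p)) ↔ Motivic P (grKer P)) ∧
    ((∀ p, ∀ h ∈ H0 p, Z h = 0 → h ∈ Submodule.span ℚ (RDS p)) ↔ Weak P (grKer P))

end MP154526.Mot
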